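import Pool.Agent.W_f620bf_h49.Link

/-!
Every parallel class of edges of a cubical polytope of dimension at least three is a cut.
-/

set_option autoImplicit false
set_option linter.unusedSectionVars false
set_option linter.deprecated false

namespace Pool.F620bf

open Set

variable {E : Type*} [NormedAddCommGroup E] [NormedSpace ℝ E] [FiniteDimensional ℝ E]
  {P F : Set E} {v : E}

theorem xor_aux {a b x : Bool} {p q : Prop} [Decidable p] [Decidable q] (h1 : a ≠ x ↔ p)
    (h2 : b ≠ x ↔ q) : xor a (decide q) = xor b (decide p) := by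
  by_cases hp : p <;> by_cases hq : q <;> cases a <;> cases b <;> cases x <;> simp_all

theorem xor_aux2 {a b : Bool} {p : Prop} [Decidable p] (h : xor a (decide p) = b) : b ≠ a ↔ p := by
  by_cases hp : p <;> cases a <;> cases b <;> simp_all

theorem exists_cut_aux (h : IsCubical P) (hd : 3 ≤ fdim P) (C : Set E → Prop)
    (hC : ∀ e e', Opp P e e' → (C e ↔ C e')) (c : ∀ v : P.extremePoints ℝ, Fig P v.1)
    (l : E →L[ℝ] ℝ)
    (hl : ∀ u ∈ P.extremePoints ℝ, ∀ w ∈ P.extremePoints ℝ, l u = l w → u = w)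
    (hl' : ∀ v : P.extremePoints ℝ, ∀ q ∈ (c v).Q.extremePoints ℝ,
      ∀ q' ∈ (c v).Q.extremePoints ℝ, l q = l q' → q = q') :
    ∀ n : ℕ, ∀ A : Set E, A ⊆ P.extremePoints ℝ →
      (∀ u ∈ A, ∀ w ∈ P.extremePoints ℝ, l w < l u → w ∈ A) → A.ncard = n →
      ∃ s : E → Bool, ∀ u ∈ A, ∀ w ∈ A, Nb P u w → (s u ≠ s w ↔ C (segment ℝ u w)) := by
  classical
  intro n
  induction n with
  | zero =>
    intro A hA _ hn
    have : A = ∅ := (Set.ncard_eq_zero (h.poly.finite_ext.subset hA)).mp hn
    subst this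
    exact ⟨fun _ => false, fun u hu => absurd hu (notMem_empty u)⟩
  | succ n ih =>
    intro A hA hdown hn
    have hAfin : A.Finite := h.poly.finite_ext.subset hA
    have hAne : A.Nonempty := by
      rw [nonempty_iff_ne_empty]
      rintro rfl
      simp at hn
    obtain ⟨v, hvA, hmax⟩ := exists_max_image A l hAfin hAne
    have hv : v ∈ P.extremePoints ℝ := hA hvA
    have hlt : ∀ u ∈ A, u ≠ v → l u < l v := fun u hu huv =>
      lt_of_le_of_ne (hmax u hu) (fun he => huv (hl u (hA hu) v hv he))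
    obtain ⟨s', hs'⟩ := ih (A \ {v}) (diff_subset.trans hA)
      (by
        rintro u ⟨hu, huv⟩ w hw hwu
        refine ⟨hdown u hu w hw hwu, ?_⟩
        rintro rfl
        exact absurd (hmax u hu) (not_le.mpr hwu))
      (by
        have := Set.ncard_diff_singleton_add_one hvA hAfin
        omega)
    let val : E → Bool := fun u => xor (s' u) (decide (C (segment ℝ v u)))
    have hval : ∀ u u', Nb P v u → Nb P v u' → l u < l v → l u' < l v → val u = val u' := by
      refine (c ⟨v, hv⟩).link_connected h.poly hv l (hl' ⟨v, hv⟩) val ?_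
      rintro u u' hn1 hn2 huu hlu hlu' ⟨D, hD, hD2, hvD, huD, huD', hlow⟩
      have hDP : D ≠ P := by
        rintro rfl
        omega
      obtain ⟨x, hxD, hxv, hx1, hx2, ho1, ho2⟩ := exists_square h hD hDP hn1 hn2 huu hvD huD huD'
      have hxA : x ∈ A \ {v} := ⟨hdown v hvA x hx1.2.1 (hlow x hxD hxv), hxv⟩
      have huA : u ∈ A \ {v} := ⟨hdown v hvA u hn1.2.1 hlu, hn1.2.2.1⟩
      have huA' : u' ∈ A \ {v} := ⟨hdown v hvA u' hn2.2.1 hlu', hn2.2.2.1⟩
      have e1 := hs' u huA x hxA hx1
      have e2 := hs' u' huA' x hxA hx2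
      have e3 := hC _ _ ho1
      have e4 := hC _ _ ho2
      show xor (s' u) (decide (C (segment ℝ v u))) = xor (s' u') (decide (C (segment ℝ v u')))
      have e5 : decide (C (segment ℝ v u)) = decide (C (segment ℝ u' x)) := decide_eq_decide.mpr e3
      have e6 : decide (C (segment ℝ v u')) = decide (C (segment ℝ u x)) := decide_eq_decide.mpr e4
      rw [e5, e6]
      exact xor_aux e1 e2
    obtain ⟨b, hb⟩ : ∃ b : Bool, ∀ u, Nb P v u → l u < l v → val u = b := by
      by_cases hex : ∃ u0, Nb P v u0 ∧ l u0 < l v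
      · obtain ⟨u0, hu0, hlu0⟩ := hex
        exact ⟨val u0, fun u hu hlu => hval u u0 hu hu0 hlu hlu0⟩
      · push Not at hex
        exact ⟨false, fun u hu hlu => absurd hlu (not_lt.mpr (hex u hu))⟩
    have hmain : ∀ w ∈ A, w ≠ v → Nb P v w → (b ≠ s' w ↔ C (segment ℝ v w)) := by
      intro w hw hwv hnb
      exact xor_aux2 (hb w hnb (hlt w hw hwv))
    refine ⟨fun w => if w = v then b else s' w, ?_⟩
    intro u hu w hw hnb
    by_cases huv : u = v
    · subst huv
      have hwu : w ≠ u := hnb.2.2.1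
      simp only [if_true, hwu, if_false]
      exact hmain w hw hwu hnb
    · by_cases hwv : w = v
      · subst hwv
        simp only [if_true, huv, if_false]
        rw [ne_comm, segment_symm]
        exact hmain u hu huv hnb.symm
      · simp only [huv, hwv, if_false]
        exact hs' u ⟨hu, huv⟩ w ⟨hw, hwv⟩ hnb

/-- An `Opp`-invariant set of edges is a cut. -/
theorem exists_cut (h : IsCubical P) (hd : 3 ≤ fdim P) (C : Set E → Prop)
    (hC : ∀ e e', Opp P e e' → (C e ↔ C e')) :
    ∃ s : E → Bool, ∀ u w, Nb P u w → (s u ≠ s w ↔ C (segment ℝ u w)) := by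
  obtain ⟨c, l, hl, hl'⟩ := exists_generic h.poly
  obtain ⟨s, hs⟩ := exists_cut_aux h hd C hC c l hl hl' _ (P.extremePoints ℝ) Subset.rfl
    (fun _ _ w hw _ => hw) rfl
  exact ⟨s, fun u w hnb => hs u hnb.1 w hnb.2.1 hnb⟩

/-- The parallel class of `e₀` is a cut. -/
theorem exists_cut_parallel (h : IsCubical P) (hd : 3 ≤ fdim P) (e₀ : Set E) :
    ∃ s : E → Bool, ∀ u w, Nb P u w → (s u ≠ s w ↔ Parallel P e₀ (segment ℝ u w)) := by
  refine exists_cut h hd (fun e => Parallel P e₀ e) fun e e' ho => ?_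
  exact ⟨fun hp => Relation.EqvGen.trans _ _ _ hp (Relation.EqvGen.rel _ _ ho),
    fun hp => Relation.EqvGen.trans _ _ _ hp (Relation.EqvGen.symm _ _ (Relation.EqvGen.rel _ _ ho))⟩

end Pool.F620bf
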