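import Pool.Agent.W_f620bf_h49.Fig2

/-!
Euler's relation for convex polytopes, by sweeping with a generic linear functional.
-/

set_option autoImplicit false
set_option linter.unusedSectionVars false
set_option linter.deprecated false

namespace Pool.F620bf

open Set

variable {E : Type*} [NormedAddCommGroup E] [NormedSpace ℝ E] [FiniteDimensional ℝ E]

/-- `l` separates the vertices of `P` and of the iterated vertex figures up to depth `n` -/
def Gen (l : E →L[ℝ] ℝ) : ℕ → Set E → Prop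
  | 0, P => ∀ u ∈ P.extremePoints ℝ, ∀ w ∈ P.extremePoints ℝ, l u = l w → u = w
  | (n + 1), P => (∀ u ∈ P.extremePoints ℝ, ∀ w ∈ P.extremePoints ℝ, l u = l w → u = w) ∧
      ∀ v ∈ P.extremePoints ℝ, ∃ c : Fig P v, Gen l n c.Q

theorem Gen.inj {l : E →L[ℝ] ℝ} {n : ℕ} {P : Set E} (h : Gen l n P) :
    ∀ u ∈ P.extremePoints ℝ, ∀ w ∈ P.extremePoints ℝ, l u = l w → u = w := by
  cases n with
  | zero => exact h
  | succ n => exact h.1

theorem exists_gen_set : ∀ (n : ℕ) (P : Set E), Poly P →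
    ∃ Z : Set E, Z.Finite ∧ (∀ z ∈ Z, z ≠ 0) ∧
      ∀ l : E →L[ℝ] ℝ, (∀ z ∈ Z, l z ≠ 0) → Gen l n P := by
  classical
  have hbase : ∀ P : Set E, Poly P → ∃ Z : Set E, Z.Finite ∧ (∀ z ∈ Z, z ≠ 0) ∧
      ∀ l : E →L[ℝ] ℝ, (∀ z ∈ Z, l z ≠ 0) →
        ∀ u ∈ P.extremePoints ℝ, ∀ w ∈ P.extremePoints ℝ, l u = l w → u = w := by
    intro P h
    refine ⟨{z | z ∈ (fun p : E × E => p.1 - p.2) '' (P.extremePoints ℝ ×ˢ P.extremePoints ℝ) ∧ z ≠ 0},
      ?_, fun z hz => hz.2, fun l hl u hu w hw huw => ?_⟩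
    · exact ((h.finite_ext.prod h.finite_ext).image _).subset fun z hz => hz.1
    · by_contra hne
      refine hl (u - w) ⟨⟨(u, w), ⟨hu, hw⟩, rfl⟩, sub_ne_zero.mpr hne⟩ ?_
      rw [map_sub, huw, sub_self]
  intro n
  induction n with
  | zero => intro P h; exact hbase P h
  | succ n ih =>
    intro P h
    obtain ⟨Z0, hZ0, hZ0', hl0⟩ := hbase P h
    have hc : ∀ v : P.extremePoints ℝ, Nonempty (Fig P v.1) := fun v => exists_fig h v.2
    let c : ∀ v : P.extremePoints ℝ, Fig P v.1 := fun v => (hc v).some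
    choose Z hZ1 hZ2 hZ3 using fun v : P.extremePoints ℝ => ih (c v).Q ((c v).poly_Q h v.2)
    have : Finite (P.extremePoints ℝ) := h.finite_ext.to_subtype
    refine ⟨Z0 ∪ ⋃ v, Z v, hZ0.union (Set.finite_iUnion hZ1), ?_, ?_⟩
    · rintro z (hz | hz)
      · exact hZ0' z hz
      · obtain ⟨v, hv⟩ := mem_iUnion.mp hz
        exact hZ2 v z hv
    · intro l hl
      refine ⟨hl0 l fun z hz => hl z (Or.inl hz), fun v hv => ⟨c ⟨v, hv⟩, ?_⟩⟩
      exact hZ3 ⟨v, hv⟩ l fun z hz => hl z (Or.inr (mem_iUnion.mpr ⟨⟨v, hv⟩, hz⟩))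

theorem exists_gen (n : ℕ) {P : Set E} (h : Poly P) : ∃ l : E →L[ℝ] ℝ, Gen l n P := by
  obtain ⟨Z, hZ, hZ0, hl⟩ := exists_gen_set n P h
  have : Finite {z : E // z ∈ Z} := hZ.to_subtype
  obtain ⟨f, hf⟩ := Module.exists_dual_forall_apply_ne_zero (K := ℝ)
    (fun z : {z : E // z ∈ Z} => z.1) (fun z => hZ0 z.1 z.2)
  exact ⟨LinearMap.toContinuousLinearMap f, hl _ fun z hz => hf ⟨z, hz⟩⟩

/-- nonempty faces of dimension `i` on which `l < a` -/
def lowAll (P : Set E) (l : E →L[ℝ] ℝ) (a : ℝ) (i : ℕ) : Set (Set E) :=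
  {F | IsFace P F ∧ F.Nonempty ∧ fdim F = i ∧ ∀ x ∈ F, l x < a}

/-- faces of dimension `i` with top vertex `v` -/
def lowTop (P : Set E) (l : E →L[ℝ] ℝ) (v : E) (i : ℕ) : Set (Set E) :=
  {F | IsFace P F ∧ v ∈ F ∧ fdim F = i ∧ ∀ x ∈ F, x ≠ v → l x < l v}

theorem exists_top {P F : Set E} (h : Poly P) (l : E →L[ℝ] ℝ)
    (hl : ∀ u ∈ P.extremePoints ℝ, ∀ w ∈ P.extremePoints ℝ, l u = l w → u = w)
    (hF : IsFace P F) (hne : F.Nonempty) :
    ∃ v ∈ P.extremePoints ℝ, v ∈ F ∧ ∀ x ∈ F, x ≠ v → l x < l v := by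
  have hfin : (P.extremePoints ℝ ∩ F).Finite := h.finite_ext.subset inter_subset_left
  obtain ⟨w, hw, hwF⟩ := hF.exists_ext h hne
  obtain ⟨v, ⟨hv, hvF⟩, hmax⟩ := exists_max_image (P.extremePoints ℝ ∩ F) l hfin ⟨w, hw, hwF⟩
  refine ⟨v, hv, hvF, ?_⟩
  have hconv : Convex ℝ {x | x = v ∨ l x < l v} := by
    rw [convex_iff_openSegment_subset]
    rintro x hx y hy z ⟨a, b, ha, hb, hab, rfl⟩
    simp only [mem_setOf_eq, map_add, map_smul, smul_eq_mul] at hx hy ⊢
    rcases hx with rfl | hx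
    · rcases hy with rfl | hy
      · left; rw [← add_smul, hab, one_smul]
      · right
        have e1 : a * l x + b * l x = l x := by rw [← add_mul, hab, one_mul]
        linarith [mul_lt_mul_of_pos_left hy hb]
    · right
      rcases hy with rfl | hy
      · have e1 : a * l y + b * l y = l y := by rw [← add_mul, hab, one_mul]
        linarith [mul_lt_mul_of_pos_left hx ha]
      · have e1 : a * l v + b * l v = l v := by rw [← add_mul, hab, one_mul]
        linarith [mul_lt_mul_of_pos_left hx ha, mul_lt_mul_of_pos_left hy hb]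
  have hsub : F ⊆ {x | x = v ∨ l x < l v} := by
    rw [hF.eq_hull h]
    refine convexHull_min ?_ hconv
    rintro x ⟨hx, hxF⟩
    by_cases hxv : x = v
    · left; exact hxv
    · right
      exact lt_of_le_of_ne (hmax x ⟨hx, hxF⟩) (fun he => hxv (hl x hx v hv he))
  intro x hx hxv
  exact (hsub hx).resolve_left hxv

theorem ncard_lowAll {P : Set E} (h : Poly P) (l : E →L[ℝ] ℝ)
    (hl : ∀ u ∈ P.extremePoints ℝ, ∀ w ∈ P.extremePoints ℝ, l u = l w → u = w) (a : ℝ) (i : ℕ) :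
    (lowAll P l a i).ncard = ∑ v ∈ h.finite_ext.toFinset.filter (fun v => l v < a),
      (lowTop P l v i).ncard := by
  classical
  have hfin : (lowAll P l a i).Finite := (finite_faces h).subset fun F hF => hF.1
  have hex : ∀ F ∈ lowAll P l a i, ∃ v ∈ P.extremePoints ℝ, v ∈ F ∧ ∀ x ∈ F, x ≠ v → l x < l v :=
    fun F hF => exists_top h l hl hF.1 hF.2.1
  choose! t ht1 ht2 ht3 using hex
  rw [Set.ncard_eq_toFinset_card _ hfin, Finset.card_eq_sum_card_fiberwise (f := t)
    (t := h.finite_ext.toFinset.filter (fun v => l v < a)) (fun F hF => by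
      rw [Finset.mem_coe, Set.Finite.mem_toFinset] at hF
      rw [Finset.mem_coe, Finset.mem_filter, Set.Finite.mem_toFinset]
      exact ⟨ht1 F hF, hF.2.2.2 _ (ht2 F hF)⟩)]
  refine Finset.sum_congr rfl fun v hv => ?_
  rw [Finset.mem_filter, Set.Finite.mem_toFinset] at hv
  rw [← Set.ncard_coe_finset]
  congr 1
  ext F
  simp only [Finset.coe_filter, Set.Finite.mem_toFinset, mem_setOf_eq]
  constructor
  · rintro ⟨hF, rfl⟩
    exact ⟨hF.1, ht2 F hF, hF.2.2.1, ht3 F hF⟩
  · rintro ⟨hF, hvF, hd, hlow⟩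
    have hFa : F ∈ lowAll P l a i := ⟨hF, ⟨v, hvF⟩, hd, fun x hx => by
      by_cases hxv : x = v
      · rw [hxv]; exact hv.2
      · exact (hlow x hx hxv).trans hv.2⟩
    refine ⟨hFa, ?_⟩
    by_contra hne
    have h1 := ht3 F hFa v hvF (Ne.symm hne)
    have h2 := hlow _ (ht2 F hFa) hne
    exact lt_asymm h1 h2

theorem lowTop_zero {P : Set E} {v : E} (hv : v ∈ P.extremePoints ℝ) (l : E →L[ℝ] ℝ) :
    (lowTop P l v 0).ncard = 1 := by
  have : lowTop P l v 0 = {{v}} := by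
    ext F
    rw [mem_singleton_iff]
    constructor
    · rintro ⟨_, hvF, h0, _⟩
      obtain ⟨w, rfl⟩ := fdim_eq_zero ⟨v, hvF⟩ h0
      rw [mem_singleton_iff.mp hvF]
    · rintro rfl
      exact ⟨isFace_singleton.mpr hv, rfl, fdim_singleton v, fun x hx hxv => absurd hx hxv⟩
  rw [this, Set.ncard_singleton]

theorem lowTop_succ {P : Set E} (h : Poly P) {v : E} (hv : v ∈ P.extremePoints ℝ) (c : Fig P v)
    (l : E →L[ℝ] ℝ) (i : ℕ) :
    (lowTop P l v (i + 1)).ncard = (lowAll c.Q l (l v) i).ncard := by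
  have : lowTop P l v (i + 1) = c.G '' lowAll c.Q l (l v) i := by
    ext F
    constructor
    · rintro ⟨hF, hvF, hd, hlow⟩
      have hFv : F ≠ {v} := by
        rintro rfl
        rw [fdim_singleton] at hd
        omega
      obtain ⟨h1, h2⟩ := c.fdim_section h hv hF hvF hFv
      refine ⟨F ∩ c.Q, ⟨c.isFace_section hF, h1, by omega, fun x hx => ?_⟩, c.G_section h hv hF hvF⟩
      exact hlow x hx.1 (c.ne_of_mem_Q hx.2)
    · rintro ⟨F', ⟨h1, h2, h3, h4⟩, rfl⟩
      refine ⟨c.isFace_G h hv h1, c.v_mem_G hv F', by rw [c.fdim_G' h hv h1.subset h2, h3], ?_⟩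
      intro x hx hxv
      have := h4 _ (hx.2.resolve_left hxv)
      exact (c.l_r_lt l (c.ht_pos h hv hx.1 hxv)).mp this
  rw [this, Set.ncard_image_of_injOn]
  intro F1 hF1 F2 hF2 he
  exact c.G_inj hF1.1.subset hF2.1.subset he

theorem exists_low_iff {P : Set E} (h : Poly P) {v : E} (hv : v ∈ P.extremePoints ℝ) (c : Fig P v)
    (l : E →L[ℝ] ℝ) :
    (∃ q ∈ c.Q.extremePoints ℝ, l q < l v) ↔ ∃ w ∈ P.extremePoints ℝ, l w < l v := by
  constructor
  · rintro ⟨q, hq, hlq⟩
    obtain ⟨u, hu, huv, hr, _⟩ := c.exists_edge h hv hq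
    rw [← hr] at hlq
    exact ⟨u, hu, (c.l_r_lt l (c.ht_pos h hv hu.1 huv)).mp hlq⟩
  · rintro ⟨w, hw, hlw⟩
    obtain ⟨u, hu, huv, hf, hlu⟩ := exists_lower h hv l hw.1 hlw
    exact ⟨c.r u, c.r_mem_ext h ⟨hv, hu, huv, hf⟩, (c.l_r_lt l (c.ht_pos h hv hu.1 huv)).mpr hlu⟩

theorem forall_low_iff {P : Set E} (h : Poly P) {v : E} (hv : v ∈ P.extremePoints ℝ) (c : Fig P v)
    (l : E →L[ℝ] ℝ)
    (hl : ∀ u ∈ P.extremePoints ℝ, ∀ w ∈ P.extremePoints ℝ, l u = l w → u = w) :
    (∀ q ∈ c.Q.extremePoints ℝ, l q < l v) ↔ ∀ w ∈ P.extremePoints ℝ, w ≠ v → l w < l v := by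
  constructor
  · intro hall w hw hwv
    by_contra hcon
    push Not at hcon
    have hlt : (-l) w < (-l) v := by
      have : l v < l w := lt_of_le_of_ne hcon (fun he => hwv (hl w hw v hv he.symm))
      simpa using this
    obtain ⟨u, hu, huv, hf, hlu⟩ := exists_lower h hv (-l) hw.1 hlt
    have h1 := hall _ (c.r_mem_ext h ⟨hv, hu, huv, hf⟩)
    have h2 := (c.l_r_lt l (c.ht_pos h hv hu.1 huv)).mp h1
    have h3 : l v < l u := by simpa using hlu
    exact lt_asymm h2 h3
  · intro hall q hq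
    obtain ⟨u, hu, huv, hr, _⟩ := c.exists_edge h hv hq
    rw [← hr]
    exact (c.l_r_lt l (c.ht_pos h hv hu.1 huv)).mpr (hall u hu huv)

open Classical in
theorem euler_aux : ∀ (n : ℕ) (P : Set E), Poly P → P.Nonempty → fdim P = n →
    ∀ l : E →L[ℝ] ℝ, Gen l n P → ∀ a : ℝ,
      ∑ i ∈ Finset.range n, (-1 : ℤ) ^ i * ((lowAll P l a i).ncard : ℤ) =
        (if ∃ v ∈ P.extremePoints ℝ, l v < a then 1 else 0) -
          (if ∀ v ∈ P.extremePoints ℝ, l v < a then (-1) ^ n else 0) := by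
  intro n
  induction n with
  | zero =>
    intro P h hne hd l hl a
    obtain ⟨v, rfl⟩ := fdim_eq_zero hne hd
    simp only [Finset.range_zero, Finset.sum_empty, extremePoints_singleton, mem_singleton_iff,
      exists_eq_left, forall_eq, pow_zero]
    split_ifs <;> norm_num
  | succ n ih =>
    intro P h hne hd l hl a
    have hinj := hl.inj
    set L := h.finite_ext.toFinset.filter (fun v => l v < a) with hL
    have h1 : ∑ i ∈ Finset.range (n + 1), (-1 : ℤ) ^ i * ((lowAll P l a i).ncard : ℤ) =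
        ∑ v ∈ L, ∑ i ∈ Finset.range (n + 1), (-1 : ℤ) ^ i * ((lowTop P l v i).ncard : ℤ) := by
      rw [Finset.sum_comm]
      refine Finset.sum_congr rfl fun i _ => ?_
      rw [ncard_lowAll h l hinj a i, Nat.cast_sum, Finset.mul_sum]
    have hterm : ∀ v ∈ L, ∑ i ∈ Finset.range (n + 1), (-1 : ℤ) ^ i * ((lowTop P l v i).ncard : ℤ) =
        (if ∀ w ∈ P.extremePoints ℝ, ¬ l w < l v then 1 else 0) +
          (if ∀ w ∈ P.extremePoints ℝ, w ≠ v → l w < l v then (-1) ^ n else 0) := by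
      intro v hv
      rw [hL, Finset.mem_filter, Set.Finite.mem_toFinset] at hv
      obtain ⟨c, hc⟩ := hl.2 v hv.1
      have hPv : P ≠ {v} := by
        rintro rfl
        rw [fdim_singleton] at hd
        omega
      obtain ⟨hQne, hQd⟩ := c.fdim_Q h hv.1 hPv
      have h2 := ih c.Q (c.poly_Q h hv.1) hQne (by omega) l hc (l v)
      rw [Finset.sum_range_succ', lowTop_zero hv.1]
      have h3 : ∀ i ∈ Finset.range n, (-1 : ℤ) ^ (i + 1) * ((lowTop P l v (i + 1)).ncard : ℤ) =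
          -((-1 : ℤ) ^ i * ((lowAll c.Q l (l v) i).ncard : ℤ)) := by
        intro i _
        rw [lowTop_succ h hv.1 c l i, pow_succ]; ring
      rw [Finset.sum_congr rfl h3, Finset.sum_neg_distrib, h2]
      simp only [exists_low_iff h hv.1 c l, forall_low_iff h hv.1 c l hinj]
      by_cases hmin : ∃ w ∈ P.extremePoints ℝ, l w < l v
      · have hmin' : ¬ ∀ w ∈ P.extremePoints ℝ, ¬ l w < l v := by push Not; exact hmin
        rw [if_pos hmin, if_neg hmin']
        push_cast; ring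
      · have hmin' : ∀ w ∈ P.extremePoints ℝ, ¬ l w < l v := by
          intro w hw hlw; exact hmin ⟨w, hw, hlw⟩
        rw [if_neg hmin, if_pos hmin']
        push_cast; ring
    rw [h1, Finset.sum_congr rfl hterm, Finset.sum_add_distrib]
    -- the minimum and the maximum
    have hfin := h.finite_ext
    obtain ⟨w0, hw0, _⟩ := (IsFace.refl h.convex).exists_ext h hne
    obtain ⟨m, hm, hmmin⟩ := exists_min_image (P.extremePoints ℝ) l hfin ⟨w0, hw0⟩
    obtain ⟨t, ht, htmax⟩ := exists_max_image (P.extremePoints ℝ) l hfin ⟨w0, hw0⟩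
    have e1 : ∑ v ∈ L, (if ∀ w ∈ P.extremePoints ℝ, ¬ l w < l v then (1 : ℤ) else 0) =
        if ∃ v ∈ P.extremePoints ℝ, l v < a then 1 else 0 := by
      by_cases hex : ∃ v ∈ P.extremePoints ℝ, l v < a
      · rw [if_pos hex]
        obtain ⟨x, hx, hxa⟩ := hex
        have hmL : m ∈ L := by
          rw [hL, Finset.mem_filter, Set.Finite.mem_toFinset]
          exact ⟨hm, (hmmin x hx).trans_lt hxa⟩
        rw [Finset.sum_eq_single_of_mem m hmL]
        · rw [if_pos]
          intro w hw; exact not_lt.mpr (hmmin w hw)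
        · intro v hv hvm
          rw [hL, Finset.mem_filter, Set.Finite.mem_toFinset] at hv
          rw [if_neg]
          push Not
          exact ⟨m, hm, lt_of_le_of_ne (hmmin v hv.1) (fun he => hvm (hinj m hm v hv.1 he).symm)⟩
      · rw [if_neg hex]
        have : L = ∅ := by
          rw [Finset.eq_empty_iff_forall_notMem]
          intro v hv
          rw [hL, Finset.mem_filter, Set.Finite.mem_toFinset] at hv
          exact hex ⟨v, hv.1, hv.2⟩
        rw [this, Finset.sum_empty]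
    have e2 : ∑ v ∈ L, (if ∀ w ∈ P.extremePoints ℝ, w ≠ v → l w < l v then ((-1 : ℤ)) ^ n else 0) =
        if ∀ v ∈ P.extremePoints ℝ, l v < a then (-1) ^ n else 0 := by
      by_cases hall : ∀ v ∈ P.extremePoints ℝ, l v < a
      · rw [if_pos hall]
        have htL : t ∈ L := by
          rw [hL, Finset.mem_filter, Set.Finite.mem_toFinset]
          exact ⟨ht, hall t ht⟩
        rw [Finset.sum_eq_single_of_mem t htL]
        · rw [if_pos]
          intro w hw hwt
          exact lt_of_le_of_ne (htmax w hw) (fun he => hwt (hinj w hw t ht he))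
        · intro v hv hvt
          rw [hL, Finset.mem_filter, Set.Finite.mem_toFinset] at hv
          rw [if_neg]
          push Not
          exact ⟨t, ht, Ne.symm hvt, htmax v hv.1⟩
      · rw [if_neg hall]
        apply Finset.sum_eq_zero
        intro v hv
        rw [hL, Finset.mem_filter, Set.Finite.mem_toFinset] at hv
        rw [if_neg]
        push Not at hall ⊢
        obtain ⟨x, hx, hxa⟩ := hall
        refine ⟨x, hx, ?_, (hv.2.trans_le hxa).le⟩
        rintro rfl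
        exact absurd hv.2 (not_lt.mpr hxa)
    rw [e1, e2]
    by_cases hall : ∀ v ∈ P.extremePoints ℝ, l v < a
    · rw [if_pos hall, if_pos hall, pow_succ]; ring
    · rw [if_neg hall, if_neg hall]; ring

/-- **Euler's relation** for polytopes. -/
theorem euler {P : Set E} (h : Poly P) (hne : P.Nonempty) :
    ∑ i ∈ Finset.range (fdim P), (-1 : ℤ) ^ i * (faceNumber P i : ℤ) = 1 - (-1) ^ fdim P := by
  classical
  obtain ⟨l, hl⟩ := exists_gen (fdim P) h
  obtain ⟨a, ha⟩ : ∃ a, ∀ x ∈ P, l x < a := by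
    obtain ⟨b, hb⟩ := (h.isCompact.image l.continuous).bddAbove
    exact ⟨b + 1, fun x hx => by linarith [hb ⟨x, hx, rfl⟩]⟩
  have h1 := euler_aux (fdim P) P h hne rfl l hl a
  have h2 : ∀ i, lowAll P l a i = {F : Set E | IsFace P F ∧ F.Nonempty ∧ fdim F = i} := by
    intro i
    ext F
    constructor
    · rintro ⟨a1, a2, a3, _⟩; exact ⟨a1, a2, a3⟩
    · rintro ⟨a1, a2, a3⟩; exact ⟨a1, a2, a3, fun x hx => ha x (a1.subset hx)⟩
  simp only [h2] at h1
  obtain ⟨w0, hw0, _⟩ := (IsFace.refl h.convex).exists_ext h hne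
  rw [if_pos ⟨w0, hw0, ha w0 hw0.1⟩, if_pos (fun v hv => ha v hv.1)] at h1
  exact h1

end Pool.F620bf
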