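import Pool.Agent.W_f620bf_h49.Up
import Pool.Agent.W_f620bf_h49.Euler
import Pool.Agent.W_f620bf_h49.Cut

/-!
Ridges lie in two facets, faces of a cube through a vertex, Euler's relation at a vertex, and the
bipartition of the vertices.
-/

set_option autoImplicit false
set_option linter.unusedSectionVars false
set_option linter.deprecated false

namespace Pool.F620bf

open Set

variable {E : Type*} [NormedAddCommGroup E] [NormedSpace ℝ E] [FiniteDimensional ℝ E]
  {P F : Set E} {v : E}

theorem ncard_ext_of_dim_one (h : Poly P) (hd : fdim P = 1) : (P.extremePoints ℝ).ncard = 2 := by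
  have hne : P.Nonempty := by
    rw [nonempty_iff_ne_empty]
    rintro rfl
    unfold fdim at hd
    rw [vectorSpan_empty, finrank_bot] at hd
    omega
  have hge := fdim_lt_ncard h hne
  obtain ⟨v, hv, _⟩ := (IsFace.refl h.convex).exists_ext h hne
  obtain ⟨c⟩ := exists_fig h hv
  have hPv : P ≠ {v} := by
    rintro rfl
    rw [fdim_singleton] at hd
    omega
  obtain ⟨hQne, hQd⟩ := c.fdim_Q h hv hPv
  obtain ⟨q, hq⟩ := fdim_eq_zero hQne (by omega)
  obtain ⟨u, hu, huv, hr, _⟩ := c.exists_edge h hv (q := q) (by rw [hq, extremePoints_singleton]; rfl)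
  have hsub : P.extremePoints ℝ ⊆ {v, u} := by
    intro w hw
    by_cases hwv : w = v
    · left; exact hwv
    · right
      have h1 := c.r_mem h hv hw.1 hwv
      rw [hq, mem_singleton_iff] at h1
      exact c.eq_of_r_eq h hv hw hwv hu huv (by rw [h1, hr])
  have hle := Set.ncard_le_ncard hsub (Set.toFinite _)
  have h2 : ({v, u} : Set E).ncard = 2 := Set.ncard_pair (Ne.symm huv)
  omega

/-- a face of codimension two is contained in exactly two facets -/
theorem ridge_two : ∀ (j : ℕ) (P F : Set E), Poly P → IsFace P F → F.Nonempty → fdim F = j →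
    fdim P = j + 2 → {H | IsFace P H ∧ F ⊆ H ∧ fdim H = j + 1}.ncard = 2 := by
  intro j
  induction j with
  | zero =>
    intro P F h hF hne h0 hd
    obtain ⟨v, rfl⟩ := fdim_eq_zero hne h0
    have hv := isFace_singleton.mp hF
    obtain ⟨c⟩ := exists_fig h hv
    have hPv : P ≠ {v} := by
      rintro rfl
      rw [fdim_singleton] at hd
      omega
    obtain ⟨hQne, hQd⟩ := c.fdim_Q h hv hPv
    have h1 := ncard_ext_of_dim_one (c.poly_Q h hv) (by omega)
    rw [← faceNumber_zero, c.faceNumber_Q h hv 0] at h1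
    have e : {H | IsFace P H ∧ {v} ⊆ H ∧ fdim H = 0 + 1} = {F | IsFace P F ∧ v ∈ F ∧ fdim F = 0 + 1} := by
      ext H; simp only [singleton_subset_iff]
    rw [e]
    exact h1
  | succ j ih =>
    intro P F h hF hne hj hd
    obtain ⟨v, hv, hvF⟩ := hF.exists_ext h hne
    obtain ⟨c⟩ := exists_fig h hv
    have hFv : F ≠ {v} := by
      rintro rfl
      rw [fdim_singleton] at hj
      omega
    have hPv : P ≠ {v} := by
      rintro rfl
      rw [fdim_singleton] at hd
      omega
    obtain ⟨hF'ne, hF'd⟩ := c.fdim_section h hv hF hvF hFv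
    obtain ⟨hQne, hQd⟩ := c.fdim_Q h hv hPv
    have h1 := ih c.Q (F ∩ c.Q) (c.poly_Q h hv) (c.isFace_section hF) hF'ne (by omega) (by omega)
    rw [← h1]
    have e : {H | IsFace P H ∧ F ⊆ H ∧ fdim H = j + 1 + 1} =
        c.G '' {H | IsFace c.Q H ∧ F ∩ c.Q ⊆ H ∧ fdim H = j + 1} := by
      ext H
      constructor
      · rintro ⟨hH, hFH, hHd⟩
        have hHv : H ≠ {v} := by
          rintro rfl
          rw [fdim_singleton] at hHd
          omega
        obtain ⟨a1, a2⟩ := c.fdim_section h hv hH (hFH hvF) hHv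
        exact ⟨H ∩ c.Q, ⟨c.isFace_section hH, inter_subset_inter_left _ hFH, by omega⟩,
          c.G_section h hv hH (hFH hvF)⟩
      · rintro ⟨H', ⟨hH, hFH, hHd⟩, rfl⟩
        have hHne : H'.Nonempty := hF'ne.mono hFH
        refine ⟨c.isFace_G h hv hH, ?_, by rw [c.fdim_G' h hv hH.subset hHne, hHd]⟩
        rw [← c.G_section h hv hF hvF]
        exact (c.G_subset_iff inter_subset_right hH.subset).mpr hFH
    rw [e, Set.ncard_image_of_injOn]
    intro H1 hH1 H2 hH2 he
    exact c.G_inj hH1.1.subset hH2.1.subset he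

theorem Cubing.φ_inj {k : ℕ} (c : Cubing F k) {σ τ : Fin k → Option Bool} (he : c.φ σ = c.φ τ) :
    σ = τ := by
  have h1 := (c.le_iff σ τ).mp he.subset
  have h2 := (c.le_iff τ σ).mp he.symm.subset
  funext i
  cases hs : σ i with
  | some b => rw [h2 i b hs]
  | none =>
    cases ht : τ i with
    | none => rfl
    | some b =>
      have := h1 i b ht
      rw [hs] at this
      exact this

/-- a proper face of dimension `j + 1` has exactly `j + 1` facets through a given vertex -/
theorem down_eq (h : IsCubical P) (hv : v ∈ P.extremePoints ℝ) {j : ℕ} (hF : IsFace P F)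
    (hvF : v ∈ F) (hj : fdim F = j + 1) (hlt : j + 1 < fdim P) :
    {H | H ∈ fAt P v j ∧ H ⊆ F}.ncard = j + 1 := by
  classical
  have hFP : F ≠ P := by rintro rfl; omega
  apply le_antisymm (few_down h hv hF hvF hj hlt)
  obtain ⟨c⟩ := h.cubing hF ⟨v, hvF⟩ hFP
  obtain ⟨f, hf⟩ := c.vx_surj h.poly hF hv hvF
  set g : Fin (fdim F) → Set E := fun i => c.φ (fun l => if l = i then some (f i) else none) with hg
  have hginj : Function.Injective g := by
    intro i i' he
    have h1 := c.φ_inj he
    by_contra hne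
    have h2 := congrFun h1 i
    simp only [if_true, if_neg hne] at h2
    exact absurd h2 (by simp)
  have hsub : g '' univ ⊆ {H | H ∈ fAt P v j ∧ H ⊆ F} := by
    rintro _ ⟨i, _, rfl⟩
    refine ⟨⟨hF.trans (c.face _), ?_, ?_⟩, (c.face _).subset⟩
    · rw [← hf]
      show c.vx h.poly hF f ∈ c.φ _
      rw [c.vx_mem_iff]
      intro l b hl
      split_ifs at hl with h1
      rw [h1]; simpa using hl
    · show fdim (c.φ _) = j
      rw [c.fdim_eq h hF hFP]
      unfold free
      have : (Finset.univ.filter fun l => (if l = i then some (f i) else none) = none) =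
          Finset.univ.erase i := by
        ext l
        by_cases hl : l = i <;> simp [hl]
      rw [this, Finset.card_erase_of_mem (Finset.mem_univ _), Finset.card_univ, Fintype.card_fin, hj]
      rfl
  calc j + 1 = (univ : Set (Fin (fdim F))).ncard := by
        rw [Set.ncard_univ, Nat.card_eq_fintype_card, Fintype.card_fin, hj]
    _ = (g '' univ).ncard := (Set.ncard_image_of_injective _ hginj).symm
    _ ≤ _ := Set.ncard_le_ncard hsub ((fAt_finite h.poly v j).subset fun H hH => hH.1)

/-- ridges and facets through a vertex: `2 f_{j+1}(v) = (j + 2) f_{j+2}(v)` if `dim P = j + 3` -/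
theorem ridge_facet_at (h : IsCubical P) (hv : v ∈ P.extremePoints ℝ) {j : ℕ}
    (hd : fdim P = j + 3) :
    (fAt P v (j + 1)).ncard * 2 = (fAt P v (j + 2)).ncard * (j + 2) := by
  classical
  have h1 := Finset.card_mul_eq_card_mul (s := (fAt_finite h.poly v (j + 1)).toFinset)
    (t := (fAt_finite h.poly v (j + 2)).toFinset) (m := 2) (n := j + 2)
    (fun A B : Set E => A ⊆ B) ?_ ?_
  · rwa [← Set.ncard_eq_toFinset_card _ (fAt_finite h.poly v (j + 1)),
      ← Set.ncard_eq_toFinset_card _ (fAt_finite h.poly v (j + 2))] at h1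
  · intro A hA
    rw [Set.Finite.mem_toFinset] at hA
    have h2 := ridge_two (j + 1) P A h.poly hA.1 ⟨v, hA.2.1⟩ hA.2.2 (by omega)
    refine Eq.trans ?_ h2
    rw [← Set.ncard_coe_finset]
    congr 1
    ext H
    simp only [Finset.bipartiteAbove, Finset.coe_filter, Set.Finite.mem_toFinset, mem_setOf_eq]
    constructor
    · rintro ⟨⟨hH, _, hd⟩, hAH⟩; exact ⟨hH, hAH, hd⟩
    · rintro ⟨hH, hAH, hd⟩; exact ⟨⟨hH, hAH hA.2.1, hd⟩, hAH⟩
  · intro B hB
    rw [Set.Finite.mem_toFinset] at hB
    have h3 := down_eq h hv hB.1 hB.2.1 hB.2.2 (by omega)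
    refine Eq.trans ?_ h3
    rw [← Set.ncard_coe_finset]
    congr 1
    ext H
    simp only [Finset.bipartiteBelow, Finset.coe_filter, Set.Finite.mem_toFinset, mem_setOf_eq]

/-- Euler's relation at a vertex -/
theorem euler_at (h : Poly P) (hv : v ∈ P.extremePoints ℝ) {n : ℕ} (hd : fdim P = n + 1) :
    ∑ i ∈ Finset.range n, (-1 : ℤ) ^ i * ((fAt P v (i + 1)).ncard : ℤ) = 1 - (-1) ^ n := by
  obtain ⟨c⟩ := exists_fig h hv
  have hPv : P ≠ {v} := by
    rintro rfl
    rw [fdim_singleton] at hd
    omega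
  obtain ⟨hQne, hQd⟩ := c.fdim_Q h hv hPv
  have h1 := euler (c.poly_Q h hv) hQne
  have h2 : fdim c.Q = n := by omega
  rw [h2] at h1
  rw [← h1]
  refine Finset.sum_congr rfl fun i _ => ?_
  rw [c.faceNumber_Q h hv i]
  rfl

theorem fAt_zero (hv : v ∈ P.extremePoints ℝ) : (fAt P v 0).ncard = 1 := by
  have : fAt P v 0 = {{v}} := by
    ext F
    rw [mem_singleton_iff]
    constructor
    · rintro ⟨_, hvF, h0⟩
      obtain ⟨w, rfl⟩ := fdim_eq_zero ⟨v, hvF⟩ h0
      rw [mem_singleton_iff.mp hvF]
    · rintro rfl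
      exact ⟨isFace_singleton.mpr hv, rfl, fdim_singleton v⟩
  rw [this, Set.ncard_singleton]

/-- the two colour classes of the vertices: sum of `f_i(v)` over one class is `2^(i-1) f_i` -/
theorem sum_class (h : IsCubical P) (s : E → Bool)
    (hs : ∀ u w, Nb P u w → s u ≠ s w) (b : Bool) {i : ℕ} (hi : i + 1 < fdim P) :
    ∑ v ∈ h.poly.finite_ext.toFinset.filter (fun v => s v = b), (fAt P v (i + 1)).ncard =
      2 ^ i * faceNumber P (i + 1) := by
  classical
  have hfin : {F : Set E | IsFace P F ∧ F.Nonempty ∧ fdim F = i + 1}.Finite :=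
    (finite_faces h.poly).subset fun F hF => hF.1
  have h1 : ∀ v ∈ h.poly.finite_ext.toFinset.filter (fun v => s v = b), (fAt P v (i + 1)).ncard =
      (hfin.toFinset.bipartiteAbove (fun (v : E) (F : Set E) => v ∈ F) v).card := by
    intro v _
    rw [← Set.ncard_coe_finset]
    congr 1
    ext F
    simp only [Finset.bipartiteAbove, Finset.coe_filter, Set.Finite.mem_toFinset, mem_setOf_eq, fAt]
    constructor
    · rintro ⟨a, b, c⟩; exact ⟨⟨a, ⟨v, b⟩, c⟩, b⟩
    · rintro ⟨⟨a, _, c⟩, b⟩; exact ⟨a, b, c⟩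
  rw [Finset.sum_congr rfl h1, Finset.sum_card_bipartiteAbove_eq_sum_card_bipartiteBelow]
  have h2 : ∀ F ∈ hfin.toFinset,
      ((h.poly.finite_ext.toFinset.filter (fun v => s v = b)).bipartiteBelow
        (fun (v : E) (F : Set E) => v ∈ F) F).card = 2 ^ i := by
    intro F hF
    rw [Set.Finite.mem_toFinset] at hF
    obtain ⟨hF1, hF2, hF3⟩ := hF
    have hFP : F ≠ P := by rintro rfl; omega
    obtain ⟨c⟩ := h.cubing hF1 hF2 hFP
    have hk : 0 < fdim F := by omega
    set i₀ : Fin (fdim F) := ⟨0, hk⟩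
    set A : Bool → Set E := fun b => {v | v ∈ P.extremePoints ℝ ∧ v ∈ F ∧ s v = b} with hA
    have hAfin : ∀ b, (A b).Finite := fun b => h.poly.finite_ext.subset fun v hv => hv.1
    have hsum : (A true).ncard + (A false).ncard = 2 ^ (i + 1) := by
      rw [← hF3, ← h.ncard hF1 hF2 hFP, ← Set.ncard_union_eq _ (hAfin _) (hAfin _)]
      · congr 1
        ext x
        constructor
        · rintro (hx | hx) <;> exact ⟨hx.1, hx.2.1⟩
        · intro hx
          cases hsx : s x
          · right; exact ⟨hx.1, hx.2, hsx⟩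
          · left; exact ⟨hx.1, hx.2, hsx⟩
      · rw [Set.disjoint_left]
        rintro x ⟨_, _, h1⟩ ⟨_, _, h2⟩
        rw [h1] at h2; exact absurd h2 (by decide)
    have hle : ∀ b b', b ≠ b' → (A b).ncard ≤ (A b').ncard := by
      intro b b' hbb
      have hex : ∀ x ∈ A b, ∃ f, c.vx h.poly hF1 f = x :=
        fun x hx => c.vx_surj h.poly hF1 hx.1 hx.2.1
      choose! g hg using hex
      refine Set.ncard_le_ncard_of_injOn (fun x => c.vx h.poly hF1 (flip (g x) i₀)) ?_ ?_ (hAfin b')
      · intro x hx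
        refine ⟨c.vx_mem h.poly hF1 _, c.vx_mem_F h.poly hF1 _, ?_⟩
        have h3 := hs _ _ (c.nb h.poly hF1 (g x) i₀)
        rw [hg x hx, hx.2.2] at h3
        cases h4 : s (c.vx h.poly hF1 (flip (g x) i₀)) <;> cases b <;> cases b' <;> simp_all
      · intro x hx y hy he
        have h3 := c.vx_inj h.poly hF1 he
        have h4 : g x = g y := by rw [← flip_flip (g x) i₀, h3, flip_flip]
        rw [← hg x hx, ← hg y hy, h4]
    have h5 := hle true false (by decide)
    have h6 := hle false true (by decide)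
    have h7 : (A b).ncard = 2 ^ i := by
      rw [pow_succ] at hsum
      cases b <;> omega
    rw [← h7, ← Set.ncard_coe_finset]
    congr 1
    ext v
    simp only [Finset.bipartiteBelow, Finset.coe_filter, Finset.mem_filter, Set.Finite.mem_toFinset,
      mem_setOf_eq, hA]
    tauto
  rw [Finset.sum_congr rfl h2, Finset.sum_const, smul_eq_mul, mul_comm]
  congr 1
  rw [← Set.ncard_eq_toFinset_card _ hfin]
  rfl

end Pool.F620bf
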