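import Pool.Agent.W_f620bf_h49.Defs

/-!
The faces of the unit cube, and the labelling of the faces of a combinatorial cube.
-/

set_option autoImplicit false

namespace Pool.F620bf

open Set

section cube

variable {k : ℕ}

/-- `0` or `1` -/
def bit (b : Bool) : ℝ := if b then 1 else 0

theorem bit_inj {a b : Bool} (h : bit a = bit b) : a = b := by
  cases a <;> cases b <;> simp_all [bit]

theorem bit_nonneg (b : Bool) : 0 ≤ bit b := by cases b <;> simp [bit]

theorem bit_le_one (b : Bool) : bit b ≤ 1 := by cases b <;> simp [bit]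

/-- the face of the cube with fixed coordinates given by `σ` -/
def cubeFace (σ : Fin k → Option Bool) : Set (Fin k → ℝ) :=
  {x | x ∈ unitCube k ∧ ∀ i b, σ i = some b → x i = bit b}

theorem mem_unitCube {x : Fin k → ℝ} : x ∈ unitCube k ↔ ∀ i, 0 ≤ x i ∧ x i ≤ 1 := by
  unfold unitCube
  rw [Set.mem_Icc, Pi.le_def, Pi.le_def]
  exact ⟨fun h i => ⟨h.1 i, h.2 i⟩, fun h => ⟨fun i => (h i).1, fun i => (h i).2⟩⟩

theorem cubeFace_isFace (σ : Fin k → Option Bool) : IsFace (unitCube k) (cubeFace σ) := by
  constructor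
  · intro x hx y hy a b ha hb hab
    refine ⟨(convex_Icc _ _) hx.1 hy.1 ha hb hab, fun i c hc => ?_⟩
    have h1 := hx.2 i c hc
    have h2 := hy.2 i c hc
    simp only [Pi.add_apply, Pi.smul_apply, smul_eq_mul, h1, h2]
    rw [← add_mul, hab, one_mul]
  · refine ⟨fun x hx => hx.1, ?_⟩
    rintro x hx y hy z hz ⟨a, b, ha, hb, hab, rfl⟩
    refine ⟨hx, fun i c hc => ?_⟩
    have h := hz.2 i c hc
    simp only [Pi.add_apply, Pi.smul_apply, smul_eq_mul] at h
    have hxi := mem_unitCube.mp hx i
    have hyi := mem_unitCube.mp hy i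
    cases c
    · simp only [bit] at h ⊢
      simp at h ⊢
      nlinarith [mul_nonneg ha.le hxi.1, mul_nonneg hb.le hyi.1, hxi.1]
    · simp only [bit] at h ⊢
      simp at h ⊢
      have h1 : a * (1 - x i) + b * (1 - y i) = 0 := by nlinarith
      have h2 : 0 ≤ a * (1 - x i) := mul_nonneg ha.le (by linarith)
      have h3 : 0 ≤ b * (1 - y i) := mul_nonneg hb.le (by linarith)
      have h4 : a * (1 - x i) = 0 := by linarith
      rcases mul_eq_zero.mp h4 with h5 | h5
      · exact absurd h5 ha.ne'
      · linarith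

/-- a point of `cubeFace σ` with value `bit c` on the free coordinates -/
def corner (σ : Fin k → Option Bool) (c : ℝ) : Fin k → ℝ := fun i => (σ i).elim c bit

theorem corner_mem (σ : Fin k → Option Bool) {c : ℝ} (h0 : 0 ≤ c) (h1 : c ≤ 1) :
    corner σ c ∈ cubeFace σ := by
  refine ⟨mem_unitCube.mpr fun i => ?_, fun i b hb => ?_⟩
  · unfold corner
    cases h : σ i with
    | none => exact ⟨h0, h1⟩
    | some b => exact ⟨bit_nonneg b, bit_le_one b⟩
  · unfold corner; rw [hb]; rfl

theorem cubeFace_subset_iff (σ τ : Fin k → Option Bool) :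
    cubeFace σ ⊆ cubeFace τ ↔ ∀ i b, τ i = some b → σ i = some b := by
  constructor
  · intro h i b hb
    have h1 := (h (corner_mem σ (c := 0) le_rfl zero_le_one)).2 i b hb
    have h2 := (h (corner_mem σ (c := 1) zero_le_one le_rfl)).2 i b hb
    unfold corner at h1 h2
    cases hs : σ i with
    | none =>
      rw [hs] at h1 h2
      simp only [Option.elim] at h1 h2
      rw [← h2] at h1
      norm_num at h1
    | some c =>
      rw [hs] at h1
      simp only [Option.elim] at h1
      rw [bit_inj h1]
  · intro h x hx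
    exact ⟨hx.1, fun i b hb => hx.2 i b (h i b hb)⟩

theorem exists_interior_point {G : Set (Fin k → ℝ)} (hG : IsFace (unitCube k) G)
    {σ : Fin k → Option Bool} (hne : G.Nonempty)
    (h0 : ∀ i, σ i = none → ∃ x ∈ G, 0 < x i) (h1 : ∀ i, σ i = none → ∃ x ∈ G, x i < 1)
    (s : Finset (Fin k)) : ∃ x ∈ G, ∀ i ∈ s, σ i = none → 0 < x i ∧ x i < 1 := by
  induction s using Finset.induction_on with
  | empty => obtain ⟨x, hx⟩ := hne; exact ⟨x, hx, by simp⟩
  | insert i s hi ih =>
    obtain ⟨x, hx, hxs⟩ := ih
    by_cases hσ : σ i = none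
    · obtain ⟨y, hy, hy0⟩ := h0 i hσ
      obtain ⟨z, hz, hz1⟩ := h1 i hσ
      refine ⟨(1 / 2 : ℝ) • x + (1 / 2 : ℝ) • ((1 / 2 : ℝ) • y + (1 / 2 : ℝ) • z), ?_, ?_⟩
      · exact hG.1 hx (hG.1 hy hz (by norm_num) (by norm_num) (by norm_num))
          (by norm_num) (by norm_num) (by norm_num)
      · intro j hj hjn
        have ex := mem_unitCube.mp (hG.2.1 hx) j
        have ey := mem_unitCube.mp (hG.2.1 hy) j
        have ez := mem_unitCube.mp (hG.2.1 hz) j
        simp only [Pi.add_apply, Pi.smul_apply, smul_eq_mul]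
        rcases Finset.mem_insert.mp hj with rfl | hj
        · constructor <;> linarith
        · have := hxs j hj hjn
          constructor <;> linarith
    · refine ⟨x, hx, fun j hj hjn => ?_⟩
      rcases Finset.mem_insert.mp hj with rfl | hj
      · exact absurd hjn hσ
      · exact hxs j hj hjn

theorem exists_cubeFace {G : Set (Fin k → ℝ)} (hG : IsFace (unitCube k) G) (hne : G.Nonempty) :
    ∃ σ : Fin k → Option Bool, G = cubeFace σ := by
  classical
  let σ : Fin k → Option Bool := fun i =>
    if ∀ x ∈ G, x i = 0 then some false else if ∀ x ∈ G, x i = 1 then some true else none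
  refine ⟨σ, Subset.antisymm ?_ ?_⟩
  · intro x hx
    refine ⟨hG.2.1 hx, fun i b hb => ?_⟩
    simp only [σ] at hb
    split_ifs at hb with h1 h2
    · rw [h1 x hx]; simp at hb; subst hb; simp [bit]
    · rw [h2 x hx]; simp at hb; subst hb; simp [bit]
  · obtain ⟨x, hx, hx'⟩ := exists_interior_point hG (σ := σ) hne
      (by
        intro i hi
        simp only [σ] at hi
        split_ifs at hi with h1 h2
        push Not at h1
        obtain ⟨x, hx, hx0⟩ := h1
        exact ⟨x, hx, lt_of_le_of_ne (mem_unitCube.mp (hG.2.1 hx) i).1 (Ne.symm hx0)⟩)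
      (by
        intro i hi
        simp only [σ] at hi
        split_ifs at hi with h1 h2
        push Not at h2
        obtain ⟨x, hx, hx0⟩ := h2
        exact ⟨x, hx, lt_of_le_of_ne (mem_unitCube.mp (hG.2.1 hx) i).2 hx0⟩)
      Finset.univ
    have hxσ : ∀ i b, σ i = some b → x i = bit b := by
      intro i b hb
      simp only [σ] at hb
      split_ifs at hb with h1 h2
      · rw [h1 x hx]; simp at hb; subst hb; simp [bit]
      · rw [h2 x hx]; simp at hb; subst hb; simp [bit]
    have ht : ∀ s : Finset (Fin k), ∃ t : ℝ, 0 < t ∧ ∀ i ∈ s, σ i = none → t ≤ x i ∧ t ≤ 1 - x i := by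
      intro s
      induction s using Finset.induction_on with
      | empty => exact ⟨1, one_pos, by simp⟩
      | insert i s hi ih =>
        obtain ⟨t, ht, hts⟩ := ih
        by_cases hσ : σ i = none
        · have := hx' i (Finset.mem_univ i) hσ
          refine ⟨min t (min (x i) (1 - x i)), ?_, ?_⟩
          · exact lt_min ht (lt_min this.1 (by linarith))
          · intro j hj hjn
            rcases Finset.mem_insert.mp hj with rfl | hj
            · exact ⟨(min_le_right _ _).trans (min_le_left _ _),
                (min_le_right _ _).trans (min_le_right _ _)⟩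
            · exact ⟨(min_le_left _ _).trans (hts j hj hjn).1,
                (min_le_left _ _).trans (hts j hj hjn).2⟩
        · refine ⟨t, ht, fun j hj hjn => ?_⟩
          rcases Finset.mem_insert.mp hj with rfl | hj
          · exact absurd hjn hσ
          · exact hts j hj hjn
    obtain ⟨t, ht, htx⟩ := ht Finset.univ
    intro y hy
    have hyc := mem_unitCube.mp hy.1
    have hxc := mem_unitCube.mp (hG.2.1 hx)
    have hz : x + t • (x - y) ∈ unitCube k := by
      rw [mem_unitCube]
      intro i
      simp only [Pi.add_apply, Pi.smul_apply, Pi.sub_apply, smul_eq_mul]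
      cases hσ : σ i with
      | none =>
        have h1 := htx i (Finset.mem_univ i) hσ
        constructor
        · nlinarith [(hyc i).2, (hxc i).1, (hyc i).1, (hxc i).2]
        · nlinarith [(hyc i).2, (hxc i).1, (hyc i).1, (hxc i).2]
      | some b =>
        have h1 := hxσ i b hσ
        have h2 := hy.2 i b hσ
        rw [h1, h2]
        simp [bit_nonneg, bit_le_one]
    refine hG.2.2 hy.1 hz hx ⟨t / (1 + t), 1 / (1 + t), by positivity, by positivity, ?_, ?_⟩
    · field_simp; ring
    · ext i
      simp only [Pi.add_apply, Pi.smul_apply, Pi.sub_apply, smul_eq_mul]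
      field_simp
      ring

end cube

section cubing

variable {E : Type*} [AddCommGroup E] [Module ℝ E]

/-- labelling of the nonempty faces of `F` by assignments of `none`, `some true` or `some false`
to the coordinates -/
structure Cubing (F : Set E) (k : ℕ) where
  φ : (Fin k → Option Bool) → Set E
  face : ∀ σ, IsFace F (φ σ)
  nonempty : ∀ σ, (φ σ).Nonempty
  le_iff : ∀ σ τ, φ σ ⊆ φ τ ↔ ∀ i b, τ i = some b → σ i = some b
  surj : ∀ A, IsFace F A → A.Nonempty → ∃ σ, A = φ σ

theorem isFace_empty (F : Set E) : IsFace F ∅ := by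
  refine ⟨convex_empty, empty_subset _, ?_⟩
  intro x _ y _ z hz
  exact absurd hz (notMem_empty z)

theorem CombEquiv.cubing {F : Set E} {k : ℕ} (h : CombEquiv F (unitCube k)) :
    Nonempty (Cubing F k) := by
  obtain ⟨e⟩ := h
  have hbot : ∀ A : {A : Set E // IsFace F A}, (e A).1 = ∅ → A.1 = ∅ := by
    intro A hA
    have h1 : e A ≤ e ⟨∅, isFace_empty F⟩ := by
      show (e A).1 ⊆ _
      rw [hA]; exact empty_subset _
    have h2 : A ≤ ⟨∅, isFace_empty F⟩ := e.le_iff_le.mp h1
    exact subset_empty_iff.mp h2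
  have hbot' : ∀ B : {B : Set (Fin k → ℝ) // IsFace (unitCube k) B}, (e.symm B).1 = ∅ → B.1 = ∅ := by
    intro B hB
    have h1 : e.symm B ≤ e.symm ⟨∅, isFace_empty _⟩ := by
      show (e.symm B).1 ⊆ _
      rw [hB]; exact empty_subset _
    have h2 : B ≤ ⟨∅, isFace_empty _⟩ := e.symm.le_iff_le.mp h1
    exact subset_empty_iff.mp h2
  refine ⟨⟨fun σ => (e.symm ⟨cubeFace σ, cubeFace_isFace σ⟩).1, fun σ => (e.symm _).2, ?_, ?_, ?_⟩⟩
  · intro σ
    rw [nonempty_iff_ne_empty]
    intro h0
    have := hbot' _ h0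
    have h1 := corner_mem σ (c := 0) le_rfl zero_le_one
    rw [show cubeFace σ = ∅ from this] at h1
    exact h1
  · intro σ τ
    rw [← cubeFace_subset_iff]
    exact e.symm.le_iff_le (x := ⟨cubeFace σ, cubeFace_isFace σ⟩) (y := ⟨cubeFace τ, cubeFace_isFace τ⟩)
  · intro A hA hne
    have h1 : (e ⟨A, hA⟩).1.Nonempty := by
      rw [nonempty_iff_ne_empty]
      intro h0
      have := hbot _ h0
      simp only at this
      rw [this] at hne
      exact not_nonempty_empty hne
    obtain ⟨σ, hσ⟩ := exists_cubeFace (e ⟨A, hA⟩).2 h1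
    refine ⟨σ, ?_⟩
    have : (⟨cubeFace σ, cubeFace_isFace σ⟩ : {B : Set (Fin k → ℝ) // IsFace (unitCube k) B}) =
        e ⟨A, hA⟩ := Subtype.ext hσ.symm
    rw [this, OrderIso.symm_apply_apply]

end cubing

end Pool.F620bf
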