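import Mathlib

/-!
Faces of convex sets, combinatorial equivalence, the unit cube, cubical polytopes.
-/

set_option autoImplicit false

namespace Pool.F620bf

variable {E : Type*} [AddCommGroup E] [Module ℝ E] {E' : Type*} [AddCommGroup E'] [Module ℝ E']

/-- `F` is a face of the convex set `P`: a convex extreme subset of `P`. (For a polytope these are
exactly the empty set, `P` and the intersections of `P` with supporting hyperplanes.) -/
def IsFace (P F : Set E) : Prop := Convex ℝ F ∧ IsExtreme ℝ P F

/-- dimension of a nonempty convex set: dimension of its affine hull -/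
noncomputable def fdim (F : Set E) : ℕ := Module.finrank ℝ (vectorSpan ℝ F)

/-- the face posets (ordered by inclusion) of `P` and `Q` are isomorphic -/
def CombEquiv (P : Set E) (Q : Set E') : Prop :=
  Nonempty ({F : Set E // IsFace P F} ≃o {G : Set E' // IsFace Q G})

/-- the `k`-dimensional cube `[0,1]^k` -/
def unitCube (k : ℕ) : Set (Fin k → ℝ) := Set.Icc 0 1

/-- `P` is a polytope all of whose proper nonempty faces `F` are combinatorially cubes of
dimension `dim F` -/
structure IsCubical (P : Set E) : Prop where
  polytope : ∃ V : Set E, V.Finite ∧ P = convexHull ℝ V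
  cube : ∀ F : Set E, IsFace P F → F.Nonempty → F ≠ P → CombEquiv F (unitCube (fdim F))

/-- number of `i`-dimensional faces of `P` -/
noncomputable def faceNumber (P : Set E) (i : ℕ) : ℕ :=
  {F : Set E | IsFace P F ∧ F.Nonempty ∧ fdim F = i}.ncard

end Pool.F620bf
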