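import Mathlib

/-!
The number of `i`-dimensional subcubes of the initial segment `{0, ..., n-1}` of the hypercube,
`cubes i n = ∑ j < n, C(s j, i)` with `s j` the sum of binary digits, and its superadditivity.
-/

set_option autoImplicit false

namespace Pool.F620bf

open Finset

/-- sum of the binary digits of `j` -/
def bs (j : ℕ) : ℕ := (Nat.digits 2 j).sum

/-- number of `i`-dimensional subcubes of `{0, ..., n-1}` (binary expansions) -/
def cubes (i n : ℕ) : ℕ := ∑ j ∈ range n, (bs j).choose i

theorem bs_two_mul (m : ℕ) : bs (2 * m) = bs m := by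
  unfold bs
  rcases Nat.eq_zero_or_pos m with rfl | h
  · simp
  · have := Nat.digits_add 2 (by norm_num) 0 m (by norm_num) (Or.inr h.ne')
    rw [zero_add] at this
    rw [this]; simp

theorem bs_two_mul_add_one (m : ℕ) : bs (2 * m + 1) = bs m + 1 := by
  unfold bs
  have := Nat.digits_add 2 (by norm_num) 1 m (by norm_num) (Or.inl one_ne_zero)
  rw [add_comm, this]
  simp [add_comm]

/-- shifted version: `H 0 = 0`, `H (i+1) = cubes i` -/
def H : ℕ → ℕ → ℕ
  | 0, _ => 0
  | (i + 1), n => cubes i n

theorem cubes_zero_left (n : ℕ) : cubes 0 n = n := by simp [cubes]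

theorem cubes_zero_right (i : ℕ) : cubes i 0 = 0 := by simp [cubes]

theorem cubes_succ (i n : ℕ) : cubes i (n + 1) = cubes i n + (bs n).choose i := by
  simp [cubes, sum_range_succ]

theorem cubes_mono (i : ℕ) : Monotone (cubes i) := by
  refine monotone_nat_of_le_succ fun n => ?_
  rw [cubes_succ]; omega

theorem H_mono (i : ℕ) : Monotone (H i) := by
  cases i with
  | zero => exact monotone_const
  | succ i => exact cubes_mono i

theorem H_succ_succ (i n : ℕ) : H (i + 1) (n + 1) = H (i + 1) n + (bs n).choose i := cubes_succ i n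

theorem H_even (i n : ℕ) : H (i + 1) (2 * n) = 2 * H (i + 1) n + H i n := by
  induction n with
  | zero => cases i <;> simp [H, cubes]
  | succ n ih =>
    have h1 : 2 * (n + 1) = 2 * n + 1 + 1 := by ring
    rw [h1, H_succ_succ, H_succ_succ, ih, bs_two_mul, bs_two_mul_add_one, H_succ_succ]
    cases i with
    | zero => simp [H]; ring
    | succ i => rw [H_succ_succ, Nat.choose_succ_succ]; ring

theorem H_odd (i n : ℕ) : H (i + 1) (2 * n + 1) = H (i + 1) (n + 1) + H (i + 1) n + H i n := by
  rw [H_succ_succ, H_even, bs_two_mul, H_succ_succ]; ring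

theorem H_zero_right (i : ℕ) : H i 0 = 0 := by
  cases i <;> simp [H, cubes]

theorem H_superadd : ∀ (N a b : ℕ), a + b ≤ N → b ≤ a → ∀ i,
    H (i + 1) a + H (i + 1) b + H i b ≤ H (i + 1) (a + b) := by
  intro N
  induction N using Nat.strong_induction_on with
  | _ N ih =>
    intro a b hN hab i
    rcases Nat.eq_zero_or_pos b with rfl | hb
    · simp [H_zero_right]
    rcases i with _ | k
    · simp [H, cubes_zero_left]
    have IH : ∀ x y, x + y < N → y ≤ x → ∀ j, H (j + 1) x + H (j + 1) y + H j y ≤ H (j + 1) (x + y) :=
      fun x y h1 h2 j => ih (x + y) h1 x y le_rfl h2 j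
    obtain ⟨p, rfl | rfl⟩ := Nat.even_or_odd' a <;> obtain ⟨q, rfl | rfl⟩ := Nat.even_or_odd' b
    · have e : 2 * p + 2 * q = 2 * (p + q) := by ring
      rw [e]
      simp only [H_even]
      have h1 := IH p q (by omega) (by omega) (k + 1)
      have h2 := IH p q (by omega) (by omega) k
      omega
    · have e : 2 * p + (2 * q + 1) = 2 * (p + q) + 1 := by ring
      rw [e]
      simp only [H_even, H_odd]
      have h1 := IH p (q + 1) (by omega) (by omega) (k + 1)
      have h2 := IH p q (by omega) (by omega) (k + 1)
      have h3 := IH p q (by omega) (by omega) k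
      rw [← add_assoc] at h1
      omega
    · have e : 2 * p + 1 + 2 * q = 2 * (p + q) + 1 := by ring
      rw [e]
      simp only [H_even, H_odd]
      have h1 := IH (p + 1) q (by omega) (by omega) (k + 1)
      have h2 := IH p q (by omega) (by omega) (k + 1)
      have h3 := IH p q (by omega) (by omega) k
      have e2 : p + 1 + q = p + q + 1 := by ring
      rw [e2] at h1
      omega
    · have e : 2 * p + 1 + (2 * q + 1) = 2 * (p + q + 1) := by ring
      rw [e]
      simp only [H_even, H_odd]
      rcases Nat.lt_or_ge q p with hqp | hqp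
      · have h1 := IH (p + 1) q (by omega) (by omega) (k + 1)
        have h2 := IH p (q + 1) (by omega) (by omega) (k + 1)
        have h3 := IH p q (by omega) (by omega) k
        have e2 : p + 1 + q = p + q + 1 := by ring
        rw [e2] at h1
        rw [← add_assoc] at h2
        have h4 := H_mono (k + 1) (show p + q ≤ p + q + 1 by omega)
        omega
      · obtain rfl : p = q := by omega
        have h1 := IH (p + 1) p (by omega) (by omega) (k + 1)
        have h3 := IH (p + 1) p (by omega) (by omega) k
        have e2 : p + 1 + p = p + p + 1 := by ring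
        rw [e2] at h1 h3
        omega

theorem cubes_superadd {a b : ℕ} (hab : b ≤ a) (i : ℕ) :
    cubes (i + 1) a + cubes (i + 1) b + cubes i b ≤ cubes (i + 1) (a + b) :=
  H_superadd (a + b) a b le_rfl hab (i + 1)

/-- values at powers of two -/
theorem cubes_two_pow (i m : ℕ) : cubes i (2 ^ m) * 2 ^ i = m.choose i * 2 ^ m := by
  induction m generalizing i with
  | zero =>
    cases i with
    | zero => simp [cubes, bs]
    | succ i => simp [cubes, bs]
  | succ m ih =>
    have h := H_even i (2 ^ m)
    rw [← pow_succ'] at h
    cases i with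
    | zero =>
      rw [cubes_zero_left]; simp
    | succ i =>
      have h' : cubes (i + 1) (2 ^ (m + 1)) = 2 * cubes (i + 1) (2 ^ m) + cubes i (2 ^ m) := h
      rw [h', add_mul, mul_assoc, ih (i + 1), Nat.choose_succ_succ]
      have := ih i
      have e : cubes i (2 ^ m) * 2 ^ (i + 1) = 2 * (m.choose i * 2 ^ m) := by
        rw [← this]; ring
      rw [e]; ring

end Pool.F620bf
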