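import Pool.Agent.W_f620bf_h49.Digits

/-!
`2 * cubes 1 n ≤ n * log₂ n`.
-/

set_option autoImplicit false

namespace Pool.F620bf

open Finset

theorem le_logb_one_add {t : ℝ} (h0 : 0 ≤ t) (h1 : t ≤ 1) : t ≤ Real.logb 2 (1 + t) := by
  rw [Real.le_logb_iff_rpow_le (by norm_num) (by linarith)]
  have := rpow_one_add_le_one_add_mul_self (s := 1) (by norm_num) h0 h1
  norm_num at this
  linarith

theorem log_split {x y : ℝ} (hy : 0 < y) (hxy : y ≤ x) :
    x * Real.logb 2 x + y * Real.logb 2 y + 2 * y ≤ (x + y) * Real.logb 2 (x + y) := by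
  have hx : 0 < x := lt_of_lt_of_le hy hxy
  have h1 : y / x ≤ Real.logb 2 (1 + y / x) :=
    le_logb_one_add (by positivity) ((div_le_one hx).mpr hxy)
  have h2 : (1 : ℝ) ≤ Real.logb 2 (1 + x / y) := by
    rw [Real.le_logb_iff_rpow_le (by norm_num) (by positivity)]
    have : 1 ≤ x / y := (one_le_div hy).mpr hxy
    norm_num; linarith
  have e1 : Real.logb 2 (1 + y / x) = Real.logb 2 (x + y) - Real.logb 2 x := by
    rw [← Real.logb_div (by positivity) (by positivity)]
    congr 1; field_simp
  have e2 : Real.logb 2 (1 + x / y) = Real.logb 2 (x + y) - Real.logb 2 y := by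
    rw [← Real.logb_div (by positivity) (by positivity)]
    congr 1; field_simp; ring
  rw [e1] at h1
  rw [e2] at h2
  have h3 : y ≤ x * (Real.logb 2 (x + y) - Real.logb 2 x) := by
    have := mul_le_mul_of_nonneg_left h1 hx.le
    rwa [mul_div_cancel₀ _ hx.ne'] at this
  have h4 : y ≤ y * (Real.logb 2 (x + y) - Real.logb 2 y) := by
    have := mul_le_mul_of_nonneg_left h2 hy.le
    linarith
  nlinarith

theorem two_mul_cubes_one_le (n : ℕ) : 2 * (cubes 1 n : ℝ) ≤ n * Real.logb 2 n := by
  induction n using Nat.strong_induction_on with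
  | _ n ih =>
    obtain ⟨m, rfl | rfl⟩ := Nat.even_or_odd' n
    · rcases Nat.eq_zero_or_pos m with rfl | hm
      · simp [cubes]
      · have h : cubes 1 (2 * m) = 2 * cubes 1 m + m := by
          have := H_even 1 m
          simpa [H, cubes_zero_left] using this
        have h1 := ih m (by omega)
        rw [h]
        push_cast
        have hm' : (0 : ℝ) < m := by exact_mod_cast hm
        rw [Real.logb_mul (by norm_num) hm'.ne', Real.logb_self_eq_one (by norm_num)]
        nlinarith
    · rcases Nat.eq_zero_or_pos m with rfl | hm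
      · simp [cubes, bs]
      · have h : cubes 1 (2 * m + 1) = cubes 1 (m + 1) + cubes 1 m + m := by
          have := H_odd 1 m
          simpa [H, cubes_zero_left] using this
        have h1 := ih m (by omega)
        have h2 := ih (m + 1) (by omega)
        rw [h]
        have hm' : (0 : ℝ) < m := by exact_mod_cast hm
        have h3 := log_split (x := (m : ℝ) + 1) (y := m) hm' (by linarith)
        push_cast at h2 ⊢
        have e : (m : ℝ) + 1 + m = 2 * m + 1 := by ring
        rw [e] at h3
        linarith

end Pool.F620bf
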