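import Pool.Agent.W_f620bf_h49.Lab

/-!
The quadratic bound `∑_{i < d} 2^i f_i ≤ n^2`.
-/

set_option autoImplicit false
set_option linter.unusedSectionVars false
set_option linter.deprecated false

namespace Pool.F620bf

open Set

variable {E : Type*} [NormedAddCommGroup E] [NormedSpace ℝ E] [FiniteDimensional ℝ E]
  {P F : Set E} {v : E}

theorem finite_faces (h : Poly P) : {F : Set E | IsFace P F}.Finite := by
  refine Set.Finite.of_finite_image (f := fun F => P.extremePoints ℝ ∩ F) ?_ ?_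
  · refine (h.finite_ext.powerset).subset ?_
    rintro _ ⟨F, _, rfl⟩
    exact inter_subset_left
  · intro F hF G hG hFG
    simp only at hFG
    rw [hF.eq_hull h, hG.eq_hull h, hFG]

theorem exists_antipode (h : IsCubical P) (hF : IsFace P F) (hP : F ≠ P) {v : E}
    (hv : v ∈ P.extremePoints ℝ) (hvF : v ∈ F) :
    ∃ a ∈ P.extremePoints ℝ, a ∈ F ∧ ∀ G, IsFace P G → v ∈ G → a ∈ G → F ⊆ G := by
  obtain ⟨c⟩ := h.cubing hF ⟨v, hvF⟩ hP
  obtain ⟨f, hf⟩ := c.vx_surj h.poly hF hv hvF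
  refine ⟨c.vx h.poly hF (fun i => !(f i)), c.vx_mem h.poly hF _, c.vx_mem_F h.poly hF _,
    fun G hG hvG haG => ?_⟩
  have hFG : IsFace F (F ∩ G) := (hF.inter hG).mono hF.subset inter_subset_left
  obtain ⟨σ, hσ⟩ := c.surj _ hFG ⟨v, hvF, hvG⟩
  have h1 : c.vx h.poly hF f ∈ c.φ σ := by rw [← hσ, hf]; exact ⟨hvF, hvG⟩
  have h2 : c.vx h.poly hF (fun i => !(f i)) ∈ c.φ σ := by
    rw [← hσ]; exact ⟨c.vx_mem_F h.poly hF _, haG⟩
  rw [c.vx_mem_iff] at h1 h2
  have h3 : σ = fun _ => none := by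
    funext i
    cases hi : σ i with
    | none => rfl
    | some b =>
      have e1 := h1 i b hi
      have e2 := h2 i b hi
      rw [← e1] at e2
      cases hfi : f i <;> rw [hfi] at e2 <;> simp at e2
  rw [h3, c.top hF.1 ⟨v, hvF⟩] at hσ
  rw [← hσ]; exact inter_subset_right

theorem quad_bound (h : IsCubical P) :
    ∑ i ∈ Finset.range (fdim P), 2 ^ i * faceNumber P i ≤ (P.extremePoints ℝ).ncard ^ 2 := by
  classical
  set X : Finset E := h.poly.finite_ext.toFinset with hX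
  have hXc : (P.extremePoints ℝ).ncard = X.card := Set.ncard_eq_toFinset_card _ h.poly.finite_ext
  have hfin : {F : Set E | IsFace P F ∧ F.Nonempty ∧ fdim F < fdim P}.Finite :=
    (finite_faces h.poly).subset fun F hF => hF.1
  set FF : Finset (Set E) := hfin.toFinset with hFF
  have hmem : ∀ F, F ∈ FF ↔ IsFace P F ∧ F.Nonempty ∧ fdim F < fdim P := by
    intro F; rw [hFF, Set.Finite.mem_toFinset]; rfl
  have hne : ∀ F ∈ FF, F ≠ P := by
    rintro F hF rfl
    exact lt_irrefl _ ((hmem F).mp hF).2.2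
  have h1 : ∑ i ∈ Finset.range (fdim P), 2 ^ i * faceNumber P i =
      ∑ F ∈ FF, (P.extremePoints ℝ ∩ F).ncard := by
    rw [← Finset.sum_fiberwise_of_maps_to (s := FF) (t := Finset.range (fdim P))
      (g := fun F => fdim F) (fun F hF => Finset.mem_range.mpr ((hmem F).mp hF).2.2)]
    refine Finset.sum_congr rfl fun i hi => ?_
    have h2 : ∀ F ∈ FF.filter (fun F => fdim F = i), (P.extremePoints ℝ ∩ F).ncard = 2 ^ i := by
      intro F hF
      rw [Finset.mem_filter] at hF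
      obtain ⟨hF1, hF2⟩ := hF
      rw [h.ncard ((hmem F).mp hF1).1 ((hmem F).mp hF1).2.1 (hne F hF1), hF2]
    rw [Finset.sum_congr rfl h2, Finset.sum_const, smul_eq_mul, mul_comm]
    congr 1
    unfold faceNumber
    rw [← Set.ncard_coe_finset]
    congr 1
    ext F
    simp only [mem_setOf_eq, Finset.coe_filter, hmem]
    constructor
    · rintro ⟨a, b, c⟩
      exact ⟨⟨a, b, by rw [c]; exact Finset.mem_range.mp hi⟩, c⟩
    · rintro ⟨⟨a, b, _⟩, c⟩
      exact ⟨a, b, c⟩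
  have hex : ∀ (F : Set E) (v : E), F ∈ FF → v ∈ P.extremePoints ℝ → v ∈ F →
      ∃ a ∈ P.extremePoints ℝ, a ∈ F ∧ ∀ G, IsFace P G → v ∈ G → a ∈ G → F ⊆ G :=
    fun F v hF hv hvF => exists_antipode h ((hmem F).mp hF).1 (hne F hF) hv hvF
  have hcard : ∑ F ∈ FF, (P.extremePoints ℝ ∩ F).ncard =
      (FF.sigma fun F => X.filter fun v => v ∈ F).card := by
    rw [Finset.card_sigma]
    refine Finset.sum_congr rfl fun F _ => ?_
    rw [← Set.ncard_coe_finset]
    congr 1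
    ext v
    simp [hX]
  rw [h1, hcard, hXc, sq, ← Finset.card_product]
  refine Finset.card_le_card_of_injOn
    (fun p => (p.2, if hp : p.1 ∈ FF ∧ p.2 ∈ P.extremePoints ℝ ∧ p.2 ∈ p.1 then
      (hex p.1 p.2 hp.1 hp.2.1 hp.2.2).choose else p.2)) ?_ ?_
  · rintro ⟨F, v⟩ hp
    simp only [Finset.coe_sigma, Set.mem_sigma_iff, Finset.mem_coe, Finset.mem_filter, hX,
      Set.Finite.mem_toFinset] at hp
    have hp' : F ∈ FF ∧ v ∈ P.extremePoints ℝ ∧ v ∈ F := ⟨hp.1, hp.2.1, hp.2.2⟩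
    simp only [hp', and_self, dif_pos, Finset.coe_product, Set.mem_prod, Finset.mem_coe, hX,
      Set.Finite.mem_toFinset]
    exact ⟨trivial, (hex F v hp.1 hp.2.1 hp.2.2).choose_spec.1⟩
  · rintro ⟨F, v⟩ hp ⟨G, w⟩ hq hpq
    simp only [Finset.coe_sigma, Set.mem_sigma_iff, Finset.mem_coe, Finset.mem_filter, hX,
      Set.Finite.mem_toFinset] at hp hq
    have hp' : F ∈ FF ∧ v ∈ P.extremePoints ℝ ∧ v ∈ F := ⟨hp.1, hp.2.1, hp.2.2⟩
    have hq' : G ∈ FF ∧ w ∈ P.extremePoints ℝ ∧ w ∈ G := ⟨hq.1, hq.2.1, hq.2.2⟩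
    simp only [hp', hq', and_self, dif_pos, Prod.mk.injEq] at hpq
    obtain ⟨hvw, ha⟩ := hpq
    subst hvw
    have s1 := (hex F v hp'.1 hp'.2.1 hp'.2.2).choose_spec.2
    have s2 := (hex G v hq'.1 hq'.2.1 hq'.2.2).choose_spec.2
    rw [ha] at s1
    have e1 := s1.2 G ((hmem G).mp hq'.1).1 hq'.2.2 s2.1
    have e2 := s2.2 F ((hmem F).mp hp'.1).1 hp'.2.2 s1.1
    rw [Subset.antisymm e1 e2]

end Pool.F620bf
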