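import Pool.Agent.W_f620bf_h49.Cut
import Pool.Agent.W_f620bf_h49.Quad
import Pool.Agent.W_f620bf_h49.LogB

/-!
Sets of edges with bounded multiplicity in each parallel class: at most `μ * cubes 1 n` edges.
-/

set_option autoImplicit false
set_option linter.unusedSectionVars false
set_option linter.deprecated false

namespace Pool.F620bf

open Set

variable {E : Type*} [NormedAddCommGroup E] [NormedSpace ℝ E] [FiniteDimensional ℝ E]
  {P F : Set E} {v : E}

theorem IsEdge.exists_nb (h : IsCubical P) {e : Set E} (he : IsEdge P e) (hP : e ≠ P) :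
    ∃ u w, Nb P u w ∧ e = segment ℝ u w := by
  obtain ⟨c⟩ := h.cubing he.1 he.2.1 hP
  have hk := he.2.2
  have hi : 0 < fdim e := by omega
  refine ⟨_, _, c.nb h.poly he.1 (fun _ => false) ⟨0, hi⟩, ?_⟩
  rw [← c.edg_eq h.poly he.1]
  have : lab1 (fun _ : Fin (fdim e) => false) ⟨0, hi⟩ = fun _ => none := by
    funext j
    unfold lab1
    rw [if_pos]
    apply Fin.ext
    have := j.2
    simp only
    omega
  show e = c.φ _
  rw [this, c.top he.1.1 he.2.1]

theorem ext_segment (_ : Poly P) {u w : E} (hn : Nb P u w) :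
    P.extremePoints ℝ ∩ segment ℝ u w = {u, w} := by
  ext x
  constructor
  · rintro ⟨hx, hxs⟩
    rw [← insert_endpoints_openSegment] at hxs
    rcases hxs with rfl | rfl | hxs
    · left; rfl
    · right; rfl
    · left
      exact (hx.2 hn.1.1 hn.2.1.1 hxs).symm
  · rintro (rfl | rfl)
    · exact ⟨hn.1, left_mem_segment ℝ _ _⟩
    · exact ⟨hn.2.1, right_mem_segment ℝ _ _⟩

theorem edge_bound_aux (h : IsCubical P) (hd : 3 ≤ fdim P) {μ : ℕ} (S : Set (Set E))
    (hS : ∀ e ∈ S, IsEdge P e)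
    (hμ : ∀ v ∈ P.extremePoints ℝ, ∀ e₀ ∈ S, {e | e ∈ S ∧ v ∈ e ∧ Parallel P e₀ e}.ncard ≤ μ) :
    ∀ n : ℕ, ∀ A : Set E, A ⊆ P.extremePoints ℝ → A.ncard = n →
      {e | e ∈ S ∧ P.extremePoints ℝ ∩ e ⊆ A}.ncard ≤ μ * cubes 1 n := by
  classical
  have hSfin : S.Finite := (finite_faces h.poly).subset fun e he => (hS e he).1
  have heP : ∀ e ∈ S, e ≠ P := by
    rintro e he rfl
    have := (hS _ he).2.2
    omega
  intro n
  induction n using Nat.strong_induction_on with
  | _ n ih =>
    intro A hA hn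
    have hAfin : A.Finite := h.poly.finite_ext.subset hA
    rcases {e | e ∈ S ∧ P.extremePoints ℝ ∩ e ⊆ A}.eq_empty_or_nonempty with h0 | ⟨e₀, he₀, he₀A⟩
    · rw [h0, Set.ncard_empty]; exact Nat.zero_le _
    obtain ⟨u₀, w₀, hn₀, rfl⟩ := (hS e₀ he₀).exists_nb h (heP e₀ he₀)
    obtain ⟨s, hs⟩ := exists_cut_parallel h hd (segment ℝ u₀ w₀)
    have hsne : s u₀ ≠ s w₀ := (hs u₀ w₀ hn₀).mpr (Relation.EqvGen.refl _)
    rw [ext_segment h.poly hn₀] at he₀A
    have hu₀ : u₀ ∈ A := he₀A (by simp)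
    have hw₀ : w₀ ∈ A := he₀A (by simp)
    let A' : Bool → Set E := fun b => {x | x ∈ A ∧ s x = b}
    have hA'fin : ∀ b, (A' b).Finite := fun b => hAfin.subset fun x hx => hx.1
    have hsum : (A' true).ncard + (A' false).ncard = n := by
      rw [← hn, ← Set.ncard_union_eq _ (hA'fin _) (hA'fin _)]
      · congr 1
        ext x
        constructor
        · rintro (hx | hx) <;> exact hx.1
        · intro hx
          cases hsx : s x
          · right; exact ⟨hx, hsx⟩
          · left; exact ⟨hx, hsx⟩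
      · rw [Set.disjoint_left]
        rintro x ⟨_, h1⟩ ⟨_, h2⟩
        rw [h1] at h2; exact absurd h2 (by decide)
    have hpos : ∀ b, 0 < (A' b).ncard := by
      intro b
      rw [Set.ncard_pos (hA'fin b)]
      cases hsu : s u₀ <;> cases hsw : s w₀ <;> cases b <;> simp_all
      · exact ⟨u₀, hu₀, hsu⟩
      · exact ⟨w₀, hw₀, hsw⟩
      · exact ⟨w₀, hw₀, hsw⟩
      · exact ⟨u₀, hu₀, hsu⟩
    -- crossing edges
    have hcross : ∀ b, {e | e ∈ S ∧ P.extremePoints ℝ ∩ e ⊆ A ∧ ¬ P.extremePoints ℝ ∩ e ⊆ A' true ∧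
        ¬ P.extremePoints ℝ ∩ e ⊆ A' false}.ncard ≤ μ * (A' b).ncard := by
      intro b
      have hex : ∀ e ∈ {e | e ∈ S ∧ P.extremePoints ℝ ∩ e ⊆ A ∧ ¬ P.extremePoints ℝ ∩ e ⊆ A' true ∧
          ¬ P.extremePoints ℝ ∩ e ⊆ A' false}, ∃ x ∈ A' b, x ∈ e ∧
            Parallel P (segment ℝ u₀ w₀) e := by
        rintro e ⟨he, heA, h1, h2⟩
        obtain ⟨u, w, hnb, rfl⟩ := (hS e he).exists_nb h (heP e he)
        rw [ext_segment h.poly hnb] at heA h1 h2
        have hu : u ∈ A := heA (by simp)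
        have hw : w ∈ A := heA (by simp)
        have hne : s u ≠ s w := by
          intro heq
          cases hsu : s u
          · apply h2
            rintro x (rfl | rfl)
            · exact ⟨hu, hsu⟩
            · exact ⟨hw, by rw [← heq, hsu]⟩
          · apply h1
            rintro x (rfl | rfl)
            · exact ⟨hu, hsu⟩
            · exact ⟨hw, by rw [← heq, hsu]⟩
        have hpar := (hs u w hnb).mp hne
        by_cases hub : s u = b
        · exact ⟨u, ⟨hu, hub⟩, left_mem_segment ℝ u w, hpar⟩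
        · refine ⟨w, ⟨hw, ?_⟩, right_mem_segment ℝ u w, hpar⟩
          cases hsu : s u <;> cases hsw : s w <;> cases b <;> simp_all
      choose! φ hφ1 hφ2 hφ3 using hex
      set K := {e | e ∈ S ∧ P.extremePoints ℝ ∩ e ⊆ A ∧ ¬ P.extremePoints ℝ ∩ e ⊆ A' true ∧
        ¬ P.extremePoints ℝ ∩ e ⊆ A' false} with hK
      have hKfin : K.Finite := hSfin.subset fun e he => he.1
      have := Finset.card_le_mul_card_image_of_maps_to (s := hKfin.toFinset)
        (t := (hA'fin b).toFinset) (f := φ)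
        (fun e he => by
          rw [Set.Finite.mem_toFinset] at he ⊢
          exact hφ1 e he) μ
        (fun x hx => by
          rw [Set.Finite.mem_toFinset] at hx
          rw [← Set.ncard_coe_finset]
          refine le_trans (Set.ncard_le_ncard ?_ ?_) (hμ x (hA hx.1) _ he₀)
          · intro e he
            rw [Finset.mem_coe, Finset.mem_filter, Set.Finite.mem_toFinset] at he
            refine ⟨he.1.1, ?_, hφ3 e he.1⟩
            rw [← he.2]; exact hφ2 e he.1
          · exact hSfin.subset fun e he => he.1)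
      rwa [← Set.ncard_eq_toFinset_card K hKfin, ← Set.ncard_eq_toFinset_card (A' b) (hA'fin b)] at this
    -- total
    have htot : {e | e ∈ S ∧ P.extremePoints ℝ ∩ e ⊆ A}.ncard ≤
        {e | e ∈ S ∧ P.extremePoints ℝ ∩ e ⊆ A' true}.ncard +
        {e | e ∈ S ∧ P.extremePoints ℝ ∩ e ⊆ A' false}.ncard +
        {e | e ∈ S ∧ P.extremePoints ℝ ∩ e ⊆ A ∧ ¬ P.extremePoints ℝ ∩ e ⊆ A' true ∧
          ¬ P.extremePoints ℝ ∩ e ⊆ A' false}.ncard := by
      refine le_trans (Set.ncard_le_ncard (t := ({e | e ∈ S ∧ P.extremePoints ℝ ∩ e ⊆ A' true} ∪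
        {e | e ∈ S ∧ P.extremePoints ℝ ∩ e ⊆ A' false}) ∪
        {e | e ∈ S ∧ P.extremePoints ℝ ∩ e ⊆ A ∧ ¬ P.extremePoints ℝ ∩ e ⊆ A' true ∧
          ¬ P.extremePoints ℝ ∩ e ⊆ A' false}) ?_ ?_) ?_
      · rintro e ⟨he, heA⟩
        by_cases h1 : P.extremePoints ℝ ∩ e ⊆ A' true
        · exact Or.inl (Or.inl ⟨he, h1⟩)
        by_cases h2 : P.extremePoints ℝ ∩ e ⊆ A' false
        · exact Or.inl (Or.inr ⟨he, h2⟩)
        exact Or.inr ⟨he, heA, h1, h2⟩
      · refine hSfin.subset ?_
        rintro e ((he | he) | he) <;> exact he.1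
      · refine (Set.ncard_union_le _ _).trans ?_
        exact Nat.add_le_add_right (Set.ncard_union_le _ _) _
    have hT := hpos true
    have hF := hpos false
    have i1 := ih (A' true).ncard (by omega) (A' true) (fun x hx => hA hx.1) rfl
    have i2 := ih (A' false).ncard (by omega) (A' false) (fun x hx => hA hx.1) rfl
    rcases Nat.le_total (A' true).ncard (A' false).ncard with hle | hle
    · have h3 := hcross true
      have h4 := cubes_superadd hle 0
      rw [cubes_zero_left] at h4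
      have h5 : (A' false).ncard + (A' true).ncard = n := by omega
      rw [h5] at h4
      calc _ ≤ _ := htot
        _ ≤ μ * cubes 1 (A' true).ncard + μ * cubes 1 (A' false).ncard + μ * (A' true).ncard := by
          omega
        _ = μ * (cubes 1 (A' false).ncard + cubes 1 (A' true).ncard + (A' true).ncard) := by ring
        _ ≤ μ * cubes 1 n := Nat.mul_le_mul_left μ h4
    · have h3 := hcross false
      have h4 := cubes_superadd hle 0
      rw [cubes_zero_left, hsum] at h4
      calc _ ≤ _ := htot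
        _ ≤ μ * cubes 1 (A' true).ncard + μ * cubes 1 (A' false).ncard + μ * (A' false).ncard := by
          omega
        _ = μ * (cubes 1 (A' true).ncard + cubes 1 (A' false).ncard + (A' false).ncard) := by ring
        _ ≤ μ * cubes 1 n := Nat.mul_le_mul_left μ h4

/-- Let `S` be a set of edges such that every vertex is on at most `μ` edges of `S` from each
parallel class. Then `S` has at most `μ * cubes 1 n` elements, `n` the number of vertices. -/
theorem edge_bound (h : IsCubical P) (hd : 3 ≤ fdim P) {μ : ℕ} (S : Set (Set E))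
    (hS : ∀ e ∈ S, IsEdge P e)
    (hμ : ∀ v ∈ P.extremePoints ℝ, ∀ e₀ ∈ S, {e | e ∈ S ∧ v ∈ e ∧ Parallel P e₀ e}.ncard ≤ μ) :
    S.ncard ≤ μ * cubes 1 (P.extremePoints ℝ).ncard := by
  have := edge_bound_aux h hd S hS hμ _ (P.extremePoints ℝ) Subset.rfl rfl
  have e : {e | e ∈ S ∧ P.extremePoints ℝ ∩ e ⊆ P.extremePoints ℝ} = S := by
    ext e; exact ⟨fun he => he.1, fun he => ⟨he, inter_subset_left⟩⟩
  rwa [e] at this

end Pool.F620bf
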