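import Pool.Agent.W_f620bf_h49.Half

/-!
The bound for faces of all dimensions when no dual hypersurface crosses itself.
-/

set_option autoImplicit false
set_option linter.unusedSectionVars false
set_option linter.deprecated false

namespace Pool.F620bf

open Set

variable {E : Type*} [NormedAddCommGroup E] [NormedSpace ℝ E] [FiniteDimensional ℝ E]
  {P F : Set E} {v : E}

/-- `i`-dimensional faces with all vertices in `A` -/
def facesIn (P : Set E) (i : ℕ) (A : Set E) : Set (Set E) :=
  {F | (IsFace P F ∧ F.Nonempty ∧ fdim F = i) ∧ P.extremePoints ℝ ∩ F ⊆ A}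

theorem facesIn_finite (h : Poly P) (i : ℕ) (A : Set E) : (facesIn P i A).Finite :=
  (finite_faces h).subset fun _ hF => hF.1.1

theorem facesIn_zero (h : Poly P) {A : Set E} (hA : A ⊆ P.extremePoints ℝ) :
    (facesIn P 0 A).ncard ≤ A.ncard := by
  have hAfin : A.Finite := h.finite_ext.subset hA
  have : facesIn P 0 A ⊆ (fun v => ({v} : Set E)) '' A := by
    rintro F ⟨⟨hF, hne, h0⟩, hFA⟩
    obtain ⟨v, rfl⟩ := fdim_eq_zero hne h0
    exact ⟨v, hFA ⟨isFace_singleton.mp hF, rfl⟩, rfl⟩
  exact (Set.ncard_le_ncard this (hAfin.image _)).trans (Set.ncard_image_le hAfin)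

theorem exists_edge_of_face (h : IsCubical P) (hF : IsFace P F) (hne : F.Nonempty) (hP : F ≠ P)
    {j : ℕ} (hj : fdim F = j + 1) : ∃ e, IsEdge P e ∧ e ⊆ F := by
  obtain ⟨c⟩ := h.cubing hF hne hP
  refine ⟨c.edg (fun _ => false) ⟨0, by omega⟩, c.isEdge_edg h.poly hF _ _, (c.face _).subset⟩

theorem face_bound_aux (h : IsCubical P) (hd : 3 ≤ fdim P) (hsq : NoSelfCrossing P) {μ : ℕ}
    (hμ1 : 1 ≤ μ)
    (hμ : ∀ v ∈ P.extremePoints ℝ, ∀ e₀, IsEdge P e₀ →
      {e | IsEdge P e ∧ v ∈ e ∧ Parallel P e₀ e}.ncard ≤ μ) :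
    ∀ n : ℕ, ∀ A : Set E, A ⊆ P.extremePoints ℝ → A.ncard = n → ∀ i, i < fdim P →
      (facesIn P i A).ncard ≤ μ ^ i * cubes i n := by
  classical
  have heP : ∀ e, IsEdge P e → e ≠ P := by
    rintro e he rfl
    have := he.2.2
    omega
  have hedgefin : {e | IsEdge P e}.Finite := (finite_faces h.poly).subset fun e he => he.1
  intro n
  induction n using Nat.strong_induction_on with
  | _ n ih =>
    intro A hA hn i hi
    have hAfin : A.Finite := h.poly.finite_ext.subset hA
    rcases i with _ | j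
    · rw [pow_zero, one_mul, cubes_zero_left, ← hn]
      exact facesIn_zero h.poly hA
    by_cases hex : ∃ e, IsEdge P e ∧ P.extremePoints ℝ ∩ e ⊆ A
    swap
    · have h0 : facesIn P (j + 1) A = ∅ := by
        rw [eq_empty_iff_forall_notMem]
        rintro F ⟨⟨hF, hne, hj⟩, hFA⟩
        obtain ⟨e, he, heF⟩ := exists_edge_of_face h hF hne (by rintro rfl; omega) hj
        exact hex ⟨e, he, fun x hx => hFA ⟨hx.1, heF hx.2⟩⟩
      rw [h0, Set.ncard_empty]; exact Nat.zero_le _
    obtain ⟨e₀, he₀, he₀A⟩ := hex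
    obtain ⟨u₀, w₀, hn₀, rfl⟩ := he₀.exists_nb h (heP e₀ he₀)
    obtain ⟨s, hs⟩ := exists_cut_parallel h hd (segment ℝ u₀ w₀)
    have hsne : s u₀ ≠ s w₀ := (hs u₀ w₀ hn₀).mpr (Relation.EqvGen.refl _)
    rw [ext_segment h.poly hn₀] at he₀A
    have hu₀ : u₀ ∈ A := he₀A (by simp)
    have hw₀ : w₀ ∈ A := he₀A (by simp)
    let A' : Bool → Set E := fun b => {x | x ∈ A ∧ s x = b}
    have hA'sub : ∀ b, A' b ⊆ P.extremePoints ℝ := fun b x hx => hA hx.1
    have hA'fin : ∀ b, (A' b).Finite := fun b => hAfin.subset fun x hx => hx.1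
    have hsum : (A' true).ncard + (A' false).ncard = n := by
      rw [← hn, ← Set.ncard_union_eq _ (hA'fin _) (hA'fin _)]
      · congr 1
        ext x
        constructor
        · rintro (hx | hx) <;> exact hx.1
        · intro hx
          cases hsx : s x
          · right; exact ⟨hx, hsx⟩
          · left; exact ⟨hx, hsx⟩
      · rw [Set.disjoint_left]
        rintro x ⟨_, h1⟩ ⟨_, h2⟩
        rw [h1] at h2; exact absurd h2 (by decide)
    have hpos : ∀ b, 0 < (A' b).ncard := by
      intro b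
      rw [Set.ncard_pos (hA'fin b)]
      cases hsu : s u₀ <;> cases hsw : s w₀ <;> cases b <;> simp_all
      · exact ⟨u₀, hu₀, hsu⟩
      · exact ⟨w₀, hw₀, hsw⟩
      · exact ⟨w₀, hw₀, hsw⟩
      · exact ⟨u₀, hu₀, hsu⟩
    set K : Set (Set E) := {F | F ∈ facesIn P (j + 1) A ∧ F ∉ facesIn P (j + 1) (A' true) ∧
      F ∉ facesIn P (j + 1) (A' false)} with hK
    have hKfin : K.Finite := (facesIn_finite h.poly (j + 1) A).subset fun F hF => hF.1
    have hcross : ∀ b, K.ncard ≤ μ * (facesIn P j (A' b)).ncard := by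
      intro b
      have hcr : ∀ F ∈ K, ∃ F', F' ∈ facesIn P j (A' b) ∧ F' ⊆ F ∧
          ∀ v' ∈ P.extremePoints ℝ, v' ∈ F' → ∃ e, IsEdge P e ∧ v' ∈ e ∧
            Parallel P (segment ℝ u₀ w₀) e ∧ e ⊆ F ∧
            ∀ G, IsFace P G → F' ⊆ G → e ⊆ G → F ⊆ G := by
        rintro F ⟨⟨⟨hF, hne, hj⟩, hFA⟩, hT, hFf⟩
        have hxy : ∃ x ∈ P.extremePoints ℝ, x ∈ F ∧ ∃ y ∈ P.extremePoints ℝ, y ∈ F ∧ s x ≠ s y := by
          have h1 : ¬ P.extremePoints ℝ ∩ F ⊆ A' true := fun hc => hT ⟨⟨hF, hne, hj⟩, hc⟩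
          have h2 : ¬ P.extremePoints ℝ ∩ F ⊆ A' false := fun hc => hFf ⟨⟨hF, hne, hj⟩, hc⟩
          rw [not_subset] at h1 h2
          obtain ⟨x, hx, hx'⟩ := h1
          obtain ⟨y, hy, hy'⟩ := h2
          refine ⟨x, hx.1, hx.2, y, hy.1, hy.2, ?_⟩
          intro heq
          have hxA := hFA hx
          have hyA := hFA hy
          have h3 : s x ≠ true := fun hc => hx' ⟨hxA, hc⟩
          have h4 : s y ≠ false := fun hc => hy' ⟨hyA, hc⟩
          cases h5 : s x <;> cases h6 : s y <;> simp_all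
        obtain ⟨F', h1, h2, h3, h4, h5, h6⟩ := exists_half h hsq hF (by rintro rfl; omega) hne hj hs b hxy
        exact ⟨F', ⟨⟨h1, h2, h3⟩, fun x hx => ⟨hFA ⟨hx.1, h4 hx.2⟩, h5 x hx.1 hx.2⟩⟩, h4, h6⟩
      choose! φ hφ1 hφ2 hφ3 using hcr
      have hfib : ∀ F' ∈ facesIn P j (A' b), {F | F ∈ K ∧ φ F = F'}.ncard ≤ μ := by
        rintro F' ⟨⟨hF', hne', hj'⟩, hFA'⟩
        obtain ⟨v', hv', hv'F⟩ := hF'.exists_ext h.poly hne'
        have hed : ∀ F ∈ {F | F ∈ K ∧ φ F = F'}, ∃ e, e ∈ {e | IsEdge P e ∧ v' ∈ e ∧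
            Parallel P (segment ℝ u₀ w₀) e} ∧ e ⊆ F ∧
            ∀ G, IsFace P G → F' ⊆ G → e ⊆ G → F ⊆ G := by
          rintro F ⟨hFK, rfl⟩
          obtain ⟨e, h1, h2, h3, h4, h5⟩ := hφ3 F hFK v' hv' hv'F
          exact ⟨e, ⟨h1, h2, h3⟩, h4, h5⟩
        choose! ψ hψ1 hψ2 hψ3 using hed
        refine le_trans (Set.ncard_le_ncard_of_injOn ψ (fun F hF => hψ1 F hF) ?_ ?_)
          (hμ v' hv' _ hn₀.isEdge)
        · intro F1 hF1 F2 hF2 heq
          have a1 : F1 ⊆ F2 := hψ3 F1 hF1 F2 hF2.1.1.1.1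
            (by rw [← hF2.2]; exact hφ2 F2 hF2.1) (by rw [heq]; exact hψ2 F2 hF2)
          have a2 : F2 ⊆ F1 := hψ3 F2 hF2 F1 hF1.1.1.1.1
            (by rw [← hF1.2]; exact hφ2 F1 hF1.1) (by rw [← heq]; exact hψ2 F1 hF1)
          exact Subset.antisymm a1 a2
        · exact hedgefin.subset fun e he => he.1
      have := Finset.card_le_mul_card_image_of_maps_to (s := hKfin.toFinset)
        (t := (facesIn_finite h.poly j (A' b)).toFinset) (f := φ)
        (fun F hF => by
          rw [Set.Finite.mem_toFinset] at hF ⊢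
          exact hφ1 F hF) μ
        (fun F' hF' => by
          rw [Set.Finite.mem_toFinset] at hF'
          rw [← Set.ncard_coe_finset]
          refine le_trans (Set.ncard_le_ncard ?_ ?_) (hfib F' hF')
          · intro F hF
            rw [Finset.mem_coe, Finset.mem_filter, Set.Finite.mem_toFinset] at hF
            exact hF
          · exact hKfin.subset fun F hF => hF.1)
      rwa [← Set.ncard_eq_toFinset_card K hKfin,
        ← Set.ncard_eq_toFinset_card (facesIn P j (A' b)) (facesIn_finite h.poly j (A' b))] at this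
    have htot : (facesIn P (j + 1) A).ncard ≤ (facesIn P (j + 1) (A' true)).ncard +
        (facesIn P (j + 1) (A' false)).ncard + K.ncard := by
      refine le_trans (Set.ncard_le_ncard (t := (facesIn P (j + 1) (A' true) ∪
        facesIn P (j + 1) (A' false)) ∪ K) ?_ ?_) ?_
      · intro F hF
        by_cases h1 : F ∈ facesIn P (j + 1) (A' true)
        · exact Or.inl (Or.inl h1)
        by_cases h2 : F ∈ facesIn P (j + 1) (A' false)
        · exact Or.inl (Or.inr h2)
        exact Or.inr ⟨hF, h1, h2⟩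
      · exact ((facesIn_finite h.poly _ _).union (facesIn_finite h.poly _ _)).union hKfin
      · refine (Set.ncard_union_le _ _).trans ?_
        exact Nat.add_le_add_right (Set.ncard_union_le _ _) _
    have hT := hpos true
    have hFf := hpos false
    have i1 := ih (A' true).ncard (by omega) (A' true) (hA'sub true) rfl (j + 1) hi
    have i2 := ih (A' false).ncard (by omega) (A' false) (hA'sub false) rfl (j + 1) hi
    have j1 := ih (A' true).ncard (by omega) (A' true) (hA'sub true) rfl j (by omega)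
    have j2 := ih (A' false).ncard (by omega) (A' false) (hA'sub false) rfl j (by omega)
    rcases Nat.le_total (A' true).ncard (A' false).ncard with hle | hle
    · have h3 := (hcross true).trans (Nat.mul_le_mul_left μ j1)
      have h4 := cubes_superadd hle j
      have h5 : (A' false).ncard + (A' true).ncard = n := by omega
      rw [h5] at h4
      calc _ ≤ _ := htot
        _ ≤ μ ^ (j + 1) * cubes (j + 1) (A' true).ncard +
            μ ^ (j + 1) * cubes (j + 1) (A' false).ncard +
            μ * (μ ^ j * cubes j (A' true).ncard) := by omega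
        _ = μ ^ (j + 1) * (cubes (j + 1) (A' false).ncard + cubes (j + 1) (A' true).ncard +
            cubes j (A' true).ncard) := by ring
        _ ≤ μ ^ (j + 1) * cubes (j + 1) n := Nat.mul_le_mul_left _ h4
    · have h3 := (hcross false).trans (Nat.mul_le_mul_left μ j2)
      have h4 := cubes_superadd hle j
      rw [hsum] at h4
      calc _ ≤ _ := htot
        _ ≤ μ ^ (j + 1) * cubes (j + 1) (A' true).ncard +
            μ ^ (j + 1) * cubes (j + 1) (A' false).ncard +
            μ * (μ ^ j * cubes j (A' false).ncard) := by omega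
        _ = μ ^ (j + 1) * (cubes (j + 1) (A' true).ncard + cubes (j + 1) (A' false).ncard +
            cubes j (A' false).ncard) := by ring
        _ ≤ μ ^ (j + 1) * cubes (j + 1) n := Nat.mul_le_mul_left _ h4

end Pool.F620bf
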