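import Pool.Agent.W_f620bf_h49.Cube

/-!
Basic facts on faces of polytopes.
-/

set_option autoImplicit false
set_option linter.unusedSectionVars false
set_option linter.deprecated false

namespace Pool.F620bf

open Set

section alg

variable {E : Type*} [AddCommGroup E] [Module ℝ E] {P F G A : Set E}

theorem IsFace.refl (h : Convex ℝ P) : IsFace P P := ⟨h, IsExtreme.refl ℝ P⟩

theorem IsFace.trans (h : IsFace P F) (h' : IsFace F G) : IsFace P G := ⟨h'.1, h.2.trans h'.2⟩

theorem IsFace.mono (h : IsFace P G) (hF : F ⊆ P) (hG : G ⊆ F) : IsFace F G :=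
  ⟨h.1, h.2.mono hF hG⟩

theorem IsFace.inter (h : IsFace P F) (h' : IsFace P G) : IsFace P (F ∩ G) :=
  ⟨h.1.inter h'.1, h.2.inter h'.2⟩

theorem IsFace.subset (h : IsFace P F) : F ⊆ P := h.2.1

theorem isFace_singleton {v : E} : IsFace P {v} ↔ v ∈ P.extremePoints ℝ := by
  unfold IsFace
  rw [isExtreme_singleton]
  exact ⟨fun h => h.2, fun h => ⟨convex_singleton v, h⟩⟩

theorem fdim_singleton (v : E) : fdim ({v} : Set E) = 0 := by
  unfold fdim
  rw [vectorSpan_singleton, finrank_bot]

end alg

section top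

variable {E : Type*} [NormedAddCommGroup E] [NormedSpace ℝ E] [FiniteDimensional ℝ E]
  {P F G A : Set E}

/-- `P` is a polytope -/
def Poly (P : Set E) : Prop := ∃ V : Set E, V.Finite ∧ P = convexHull ℝ V

theorem Poly.convex (h : Poly P) : Convex ℝ P := by
  obtain ⟨V, _, rfl⟩ := h; exact convex_convexHull ℝ V

theorem Poly.isCompact (h : Poly P) : IsCompact P := by
  obtain ⟨V, hV, rfl⟩ := h; exact hV.isCompact_convexHull ℝ

theorem Poly.finite_ext (h : Poly P) : (P.extremePoints ℝ).Finite := by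
  obtain ⟨V, hV, rfl⟩ := h; exact hV.subset extremePoints_convexHull_subset

theorem Poly.hull_ext (h : Poly P) : convexHull ℝ (P.extremePoints ℝ) = P := by
  have h1 := closure_convexHull_extremePoints h.isCompact h.convex
  rwa [(h.finite_ext.isClosed_convexHull ℝ).closure_eq] at h1

theorem IsFace.eq_hull (h : Poly P) (hF : IsFace P F) :
    F = convexHull ℝ (P.extremePoints ℝ ∩ F) := by
  apply Subset.antisymm
  · intro x hx
    have hxP : x ∈ convexHull ℝ (P.extremePoints ℝ) := by rw [h.hull_ext]; exact hF.subset hx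
    have hsplit : P.extremePoints ℝ = (P.extremePoints ℝ ∩ F) ∪ (P.extremePoints ℝ \ F) :=
      (inter_union_diff _ _).symm
    have hT : convexHull ℝ (P.extremePoints ℝ \ F) ⊆ P \ F :=
      convexHull_min (fun y hy => ⟨hy.1.1, hy.2⟩) (hF.2.convex_sdiff h.convex)
    rcases (P.extremePoints ℝ \ F).eq_empty_or_nonempty with h0 | h0
    · rw [h0, union_empty] at hsplit
      rwa [← hsplit]
    rcases (P.extremePoints ℝ ∩ F).eq_empty_or_nonempty with h1 | h1
    · rw [h1, empty_union] at hsplit
      rw [hsplit] at hxP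
      exact absurd hx (hT hxP).2
    rw [hsplit, convexHull_union h1 h0, mem_convexJoin] at hxP
    obtain ⟨a, ha, b, hb, hxab⟩ := hxP
    have haF : a ∈ F := convexHull_min inter_subset_right hF.1 ha
    rw [← insert_endpoints_openSegment] at hxab
    rcases hxab with rfl | rfl | hx'
    · exact ha
    · exact absurd hx (hT hb).2
    · exact absurd (hF.2.right_mem_of_mem_openSegment (hF.subset haF) (hT hb).1 hx hx') (hT hb).2
  · exact convexHull_min inter_subset_right hF.1

theorem IsFace.poly (h : Poly P) (hF : IsFace P F) : Poly F :=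
  ⟨_, h.finite_ext.subset inter_subset_left, hF.eq_hull h⟩

theorem IsFace.exists_ext (h : Poly P) (hF : IsFace P F) (hne : F.Nonempty) :
    ∃ v ∈ P.extremePoints ℝ, v ∈ F := by
  by_contra hcon
  push Not at hcon
  have h0 : P.extremePoints ℝ ∩ F = ∅ := by
    ext v; simp only [mem_inter_iff, mem_empty_iff_false, iff_false, not_and]
    exact hcon v
  have := hF.eq_hull h
  rw [h0, convexHull_empty] at this
  rw [this] at hne
  exact not_nonempty_empty hne

theorem IsFace.ext_iff_subset (h : Poly P) (hF : IsFace P F) (hG : IsFace P G) :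
    F ⊆ G ↔ P.extremePoints ℝ ∩ F ⊆ P.extremePoints ℝ ∩ G := by
  constructor
  · intro h1 v hv; exact ⟨hv.1, h1 hv.2⟩
  · intro h1
    rw [hF.eq_hull h, hG.eq_hull h]
    exact convexHull_mono h1

theorem fdim_mono (h : F ⊆ G) : fdim F ≤ fdim G :=
  Submodule.finrank_mono (vectorSpan_mono ℝ h)

theorem fdim_eq_zero (hne : F.Nonempty) (h : fdim F = 0) : ∃ v, F = {v} := by
  obtain ⟨v, hv⟩ := hne
  refine ⟨v, ?_⟩
  have h1 : vectorSpan ℝ F = ⊥ := Submodule.finrank_eq_zero.mp h
  ext w
  rw [mem_singleton_iff]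
  constructor
  · intro hw
    have := vsub_mem_vectorSpan ℝ hw hv
    rw [h1, Submodule.mem_bot, vsub_eq_sub, sub_eq_zero] at this
    exact this
  · rintro rfl; exact hv

end top

section cubing

variable {E : Type*} [NormedAddCommGroup E] [NormedSpace ℝ E] [FiniteDimensional ℝ E]
  {P F G A : Set E} {k : ℕ}

/-- number of free coordinates -/
def free (σ : Fin k → Option Bool) : ℕ := (Finset.univ.filter fun i => σ i = none).card

theorem Cubing.top (c : Cubing F k) (hF : Convex ℝ F) (hne : F.Nonempty) :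
    c.φ (fun _ => none) = F := by
  obtain ⟨σ, hσ⟩ := c.surj F (IsFace.refl hF) hne
  apply Subset.antisymm (c.face _).subset
  have : c.φ σ ⊆ c.φ (fun _ => none) := (c.le_iff _ _).mpr (by simp)
  rwa [← hσ] at this

theorem Cubing.exists_vertex (c : Cubing F k) (h : Poly P) (hF : IsFace P F) (f : Fin k → Bool) :
    ∃ v ∈ P.extremePoints ℝ, c.φ (fun i => some (f i)) = {v} := by
  obtain ⟨v, hv, hvA⟩ := (hF.trans (c.face fun i => some (f i))).exists_ext h (c.nonempty _)
  refine ⟨v, hv, ?_⟩
  have hvF : IsFace F {v} :=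
    (isFace_singleton.mpr hv).mono hF.subset (singleton_subset_iff.mpr ((c.face _).subset hvA))
  obtain ⟨τ, hτ⟩ := c.surj _ hvF (singleton_nonempty v)
  have h1 : c.φ τ ⊆ c.φ (fun i => some (f i)) := by
    rw [← hτ]; exact singleton_subset_iff.mpr hvA
  have h2 : τ = fun i => some (f i) := by
    funext i
    exact (c.le_iff _ _).mp h1 i (f i) rfl
  rw [hτ, h2]

/-- the vertex of `F` with label `f` -/
noncomputable def Cubing.vx (c : Cubing F k) (h : Poly P) (hF : IsFace P F) (f : Fin k → Bool) : E :=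
  (c.exists_vertex h hF f).choose

theorem Cubing.vx_mem (c : Cubing F k) (h : Poly P) (hF : IsFace P F) (f : Fin k → Bool) :
    c.vx h hF f ∈ P.extremePoints ℝ := (c.exists_vertex h hF f).choose_spec.1

theorem Cubing.φ_some (c : Cubing F k) (h : Poly P) (hF : IsFace P F) (f : Fin k → Bool) :
    c.φ (fun i => some (f i)) = {c.vx h hF f} := (c.exists_vertex h hF f).choose_spec.2

theorem Cubing.vx_mem_iff (c : Cubing F k) (h : Poly P) (hF : IsFace P F) (f : Fin k → Bool)
    (σ : Fin k → Option Bool) :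
    c.vx h hF f ∈ c.φ σ ↔ ∀ i b, σ i = some b → f i = b := by
  rw [← singleton_subset_iff, ← c.φ_some h hF f, c.le_iff]
  simp

theorem Cubing.vx_mem_F (c : Cubing F k) (h : Poly P) (hF : IsFace P F) (f : Fin k → Bool) :
    c.vx h hF f ∈ F := by
  have := (c.face (fun i => some (f i))).subset
  rw [c.φ_some h hF f] at this
  exact this rfl

theorem Cubing.vx_inj (c : Cubing F k) (h : Poly P) (hF : IsFace P F) {f g : Fin k → Bool}
    (hfg : c.vx h hF f = c.vx h hF g) : f = g := by
  have h1 : c.vx h hF f ∈ c.φ (fun i => some (g i)) := by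
    rw [hfg, c.φ_some h hF g]; rfl
  rw [c.vx_mem_iff] at h1
  funext i
  exact h1 i (g i) rfl

theorem Cubing.vx_surj (c : Cubing F k) (h : Poly P) (hF : IsFace P F) {v : E}
    (hv : v ∈ P.extremePoints ℝ) (hvF : v ∈ F) : ∃ f, c.vx h hF f = v := by
  have hvF' : IsFace F {v} :=
    (isFace_singleton.mpr hv).mono hF.subset (singleton_subset_iff.mpr hvF)
  obtain ⟨τ, hτ⟩ := c.surj _ hvF' (singleton_nonempty v)
  have h1 : c.vx h hF (fun i => (τ i).getD false) ∈ c.φ τ := by
    rw [c.vx_mem_iff]
    intro i b hb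
    rw [hb]; rfl
  rw [← hτ] at h1
  exact ⟨_, h1⟩

theorem Cubing.ext_eq (c : Cubing F k) (h : Poly P) (hF : IsFace P F) (σ : Fin k → Option Bool) :
    P.extremePoints ℝ ∩ c.φ σ = c.vx h hF '' {f | ∀ i b, σ i = some b → f i = b} := by
  ext v
  constructor
  · rintro ⟨hv, hvσ⟩
    obtain ⟨f, rfl⟩ := c.vx_surj h hF hv ((c.face σ).subset hvσ)
    exact ⟨f, (c.vx_mem_iff h hF f σ).mp hvσ, rfl⟩
  · rintro ⟨f, hf, rfl⟩
    exact ⟨c.vx_mem h hF f, (c.vx_mem_iff h hF f σ).mpr hf⟩

theorem ncard_labels (σ : Fin k → Option Bool) :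
    {f : Fin k → Bool | ∀ i b, σ i = some b → f i = b}.ncard = 2 ^ free σ := by
  classical
  let s : Finset (Fin k → Bool) :=
    Fintype.piFinset fun i => (σ i).elim (Finset.univ : Finset Bool) (fun b => {b})
  have hs : {f : Fin k → Bool | ∀ i b, σ i = some b → f i = b} = s := by
    ext f
    simp only [mem_setOf_eq, s, Finset.mem_coe, Fintype.mem_piFinset]
    refine forall_congr' fun i => ?_
    cases h : σ i with
    | none => simp
    | some b => simp
  rw [hs, Set.ncard_coe_finset, Fintype.card_piFinset]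
  have : ∀ i, ((σ i).elim (Finset.univ : Finset Bool) (fun b => {b})).card =
      if σ i = none then 2 else 1 := by
    intro i
    cases h : σ i with
    | none => simp
    | some b => simp
  simp only [this]
  rw [Finset.prod_ite]
  simp [free]

theorem Cubing.ncard_ext (c : Cubing F k) (h : Poly P) (hF : IsFace P F)
    (σ : Fin k → Option Bool) : (P.extremePoints ℝ ∩ c.φ σ).ncard = 2 ^ free σ := by
  rw [c.ext_eq h hF σ, Set.ncard_image_of_injective _ (fun f g hfg => c.vx_inj h hF hfg),
    ncard_labels]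

theorem free_none : free (fun _ : Fin k => (none : Option Bool)) = k := by simp [free]

theorem Cubing.ncard_ext_F (c : Cubing F k) (h : Poly P) (hF : IsFace P F) (hne : F.Nonempty) :
    (P.extremePoints ℝ ∩ F).ncard = 2 ^ k := by
  have := c.ncard_ext h hF (fun _ => none)
  rwa [c.top hF.1 hne, free_none] at this

end cubing

section cubical

variable {E : Type*} [NormedAddCommGroup E] [NormedSpace ℝ E] [FiniteDimensional ℝ E]
  {P F G A : Set E} {k : ℕ}

theorem IsCubical.poly (h : IsCubical P) : Poly P := h.polytope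

theorem IsCubical.cubing (h : IsCubical P) (hF : IsFace P F) (hne : F.Nonempty) (hP : F ≠ P) :
    Nonempty (Cubing F (fdim F)) := (h.cube F hF hne hP).cubing

theorem IsCubical.ncard (h : IsCubical P) (hF : IsFace P F) (hne : F.Nonempty) (hP : F ≠ P) :
    (P.extremePoints ℝ ∩ F).ncard = 2 ^ fdim F := by
  obtain ⟨c⟩ := h.cubing hF hne hP
  exact c.ncard_ext_F h.poly hF hne

theorem Cubing.fdim_eq (c : Cubing F k) (h : IsCubical P) (hF : IsFace P F) (hP : F ≠ P)
    (σ : Fin k → Option Bool) : fdim (c.φ σ) = free σ := by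
  have h1 := c.ncard_ext h.poly hF σ
  have h2 : c.φ σ ≠ P := by
    rintro h3
    apply hP
    apply Subset.antisymm hF.subset
    rw [← h3]
    exact (c.face σ).subset
  have h3 := h.ncard (hF.trans (c.face σ)) (c.nonempty σ) h2
  rw [h1] at h3
  exact (Nat.pow_right_injective le_rfl h3).symm

end cubical

end Pool.F620bf
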