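import Pool.Agent.W_f620bf_h49.Faces

/-!
The vertex figure of a polytope at a vertex `v`: section `Q` by a hyperplane close to `v`.
-/

set_option autoImplicit false
set_option linter.unusedSectionVars false
set_option linter.deprecated false

namespace Pool.F620bf

open Set

variable {E : Type*} [NormedAddCommGroup E] [NormedSpace ℝ E] [FiniteDimensional ℝ E]
  {P F : Set E} {v : E}

/-- a functional `g` that separates the vertex `v` from the other vertices -/
structure Fig (P : Set E) (v : E) where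
  g : E →L[ℝ] ℝ
  ε : ℝ
  pos : 0 < ε
  lt : ∀ u ∈ P.extremePoints ℝ, u ≠ v → ε < g u - g v

theorem exists_fig (h : Poly P) (hv : v ∈ P.extremePoints ℝ) : Nonempty (Fig P v) := by
  have hC : convexHull ℝ (P.extremePoints ℝ \ {v}) ⊆ P \ {v} :=
    convexHull_min (fun y hy => ⟨hy.1.1, hy.2⟩)
      (h.convex.mem_extremePoints_iff_convex_sdiff.mp hv).2
  have hv' : v ∉ convexHull ℝ (P.extremePoints ℝ \ {v}) := fun hv' => (hC hv').2 rfl
  obtain ⟨f, s, hs1, hs2⟩ := geometric_hahn_banach_point_closed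
    (convex_convexHull ℝ (P.extremePoints ℝ \ {v}))
    ((h.finite_ext.subset diff_subset).isClosed_convexHull ℝ) hv'
  refine ⟨⟨f, s - f v, by linarith, fun u hu huv => ?_⟩⟩
  have := hs2 u (subset_convexHull ℝ _ ⟨hu, huv⟩)
  linarith

namespace Fig

variable (c : Fig P v)

/-- height above `v` -/
def ht (p : E) : ℝ := c.g p - c.g v

/-- the section -/
def Q : Set E := {p | p ∈ P ∧ c.ht p = c.ε}

/-- radial projection to the section -/
noncomputable def r (p : E) : E := v + (c.ε / c.ht p) • (p - v)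

theorem ht_r {p : E} (hp : c.ht p ≠ 0) : c.ht (c.r p) = c.ε := by
  unfold r ht at *
  simp only [map_add, map_smul, map_sub, smul_eq_mul]
  field_simp
  ring

theorem r_sub (p : E) : c.r p - v = (c.ε / c.ht p) • (p - v) := by unfold r; abel

theorem r_eq_of_mem {p : E} (hp : p ∈ c.Q) : c.r p = p := by
  unfold r
  rw [hp.2, div_self c.pos.ne', one_smul]; abel

theorem ht_v : c.ht v = 0 := by unfold ht; ring

theorem ne_of_mem_Q {p : E} (hp : p ∈ c.Q) : p ≠ v := by
  rintro rfl
  have := hp.2
  rw [c.ht_v] at this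
  exact c.pos.ne this

theorem main (h : Poly P) (hv : v ∈ P.extremePoints ℝ) {p : E} (hp : p ∈ P) (hpv : p ≠ v) :
    0 < c.ht p ∧ c.r p ∈ P := by
  have hins : P.extremePoints ℝ = insert v (P.extremePoints ℝ \ {v}) := by
    rw [insert_diff_singleton, insert_eq_of_mem hv]
  have hpP : p ∈ convexHull ℝ (P.extremePoints ℝ) := by rw [h.hull_ext]; exact hp
  rw [hins] at hpP
  rcases (P.extremePoints ℝ \ {v}).eq_empty_or_nonempty with h0 | h0
  · rw [h0] at hpP
    simp at hpP
    exact absurd hpP hpv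
  rw [convexHull_insert h0, mem_convexJoin] at hpP
  obtain ⟨a, rfl, b, hb, a', b', ha', hb', hab, rfl⟩ := hpP
  have hbP : b ∈ P := by
    have := convexHull_mono (𝕜 := ℝ) (diff_subset (s := P.extremePoints ℝ) (t := {a})) hb
    rwa [h.hull_ext] at this
  have hbht : c.ε < c.ht b := by
    have hsub : convexHull ℝ (P.extremePoints ℝ \ {a}) ⊆ {x | c.ε < c.ht x} := by
      refine convexHull_min (fun u hu => c.lt u hu.1 hu.2) ?_
      have : {x | c.ε < c.ht x} = {x | c.ε + c.g a < c.g x} := by
        ext x; simp only [mem_setOf_eq, ht]; constructor <;> intro h <;> linarith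
      rw [this]
      exact convex_halfSpace_gt c.g.isLinear _
    exact hsub hb
  have hb0 : 0 < b' := by
    rcases hb'.eq_or_lt with h1 | h1
    · exfalso; apply hpv
      rw [← h1, add_zero] at hab
      rw [← h1, hab]; simp
    · exact h1
  have ea : a' = 1 - b' := by linarith
  have hht : c.ht (a' • a + b' • b) = b' * c.ht b := by
    unfold ht
    simp only [map_add, map_smul, smul_eq_mul, ea]; ring
  have hbpos : 0 < c.ht b := c.pos.trans hbht
  refine ⟨by rw [hht]; positivity, ?_⟩
  have er : c.r (a' • a + b' • b) = (1 - c.ε / c.ht b) • a + (c.ε / c.ht b) • b := by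
    unfold r
    rw [hht, ea]
    have e1 : (1 - b') • a + b' • b - a = b' • (b - a) := by
      rw [sub_smul, one_smul, smul_sub]; abel
    rw [e1, smul_smul]
    have e2 : c.ε / (b' * c.ht b) * b' = c.ε / c.ht b := by field_simp
    rw [e2, smul_sub, sub_smul, one_smul]; abel
  rw [er]
  have h1 : c.ε / c.ht b ≤ 1 := (div_le_one hbpos).mpr hbht.le
  exact h.convex hv.1 hbP (by linarith) (div_nonneg c.pos.le hbpos.le) (by ring)

theorem ht_pos (h : Poly P) (hv : v ∈ P.extremePoints ℝ) {p : E} (hp : p ∈ P) (hpv : p ≠ v) :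
    0 < c.ht p := (c.main h hv hp hpv).1

theorem r_mem (h : Poly P) (hv : v ∈ P.extremePoints ℝ) {p : E} (hp : p ∈ P) (hpv : p ≠ v) :
    c.r p ∈ c.Q := ⟨(c.main h hv hp hpv).2, c.ht_r (c.ht_pos h hv hp hpv).ne'⟩

theorem r_openSegment {p x y : E} (hx : 0 < c.ht x) (hy : 0 < c.ht y)
    (hp : p ∈ openSegment ℝ x y) : c.r p ∈ openSegment ℝ (c.r x) (c.r y) := by
  obtain ⟨a, b, ha, hb, hab, rfl⟩ := hp
  have ea : a = 1 - b := by linarith
  have hht : c.ht (a • x + b • y) = a * c.ht x + b * c.ht y := by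
    unfold ht
    simp only [map_add, map_smul, smul_eq_mul, ea]; ring
  have hpos : 0 < c.ht (a • x + b • y) := by rw [hht]; positivity
  refine ⟨a * c.ht x / c.ht (a • x + b • y), b * c.ht y / c.ht (a • x + b • y),
    by positivity, by positivity, ?_, ?_⟩
  · rw [← add_div, ← hht, div_self hpos.ne']
  · have e1 : a • x + b • y - v = a • (x - v) + b • (y - v) := by
      rw [ea, smul_sub, smul_sub, sub_smul, sub_smul, one_smul, one_smul]; abel
    have e2 : c.r (a • x + b • y) = v + (c.ε / c.ht (a • x + b • y)) • (a • (x - v) + b • (y - v)) := by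
      rw [r, e1]
    rw [e2]
    unfold r
    set w := c.ht (a • x + b • y)
    have e3 : a * c.ht x / w + b * c.ht y / w = 1 := by
      rw [← add_div, ← hht, div_self hpos.ne']
    have e4 : (a * c.ht x / w) • (v + (c.ε / c.ht x) • (x - v)) +
        (b * c.ht y / w) • (v + (c.ε / c.ht y) • (y - v)) =
        (a * c.ht x / w + b * c.ht y / w) • v + ((a * c.ht x / w * (c.ε / c.ht x)) • (x - v) +
          (b * c.ht y / w * (c.ε / c.ht y)) • (y - v)) := by
      rw [smul_add, smul_add, smul_smul, smul_smul, add_smul]; abel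
    rw [e4, e3, one_smul, smul_add, smul_smul, smul_smul]
    congr 2
    · congr 1; field_simp
    · congr 1; field_simp

theorem r_eq_of_v {x z : E} (hz : z ∈ openSegment ℝ v x) : c.r z = c.r x := by
  obtain ⟨a, b, ha, hb, hab, rfl⟩ := hz
  have ea : a = 1 - b := by linarith
  have e1 : a • v + b • x - v = b • (x - v) := by
    rw [ea, sub_smul, one_smul, smul_sub]; abel
  have hht : c.ht (a • v + b • x) = b * c.ht x := by
    unfold ht
    simp only [map_add, map_smul, smul_eq_mul, ea]; ring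
  unfold r
  rw [e1, hht, smul_smul]
  congr 2
  field_simp

/-- the face of `P` generated by a face of the section -/
def G (F' : Set E) : Set E := {p | p ∈ P ∧ (p = v ∨ c.r p ∈ F')}

theorem isFace_G (h : Poly P) (hv : v ∈ P.extremePoints ℝ) {F' : Set E} (hF : IsFace c.Q F') :
    IsFace P (c.G F') := by
  constructor
  · rw [convex_iff_openSegment_subset]
    rintro x ⟨hxP, hx⟩ y ⟨hyP, hy⟩ z hz
    refine ⟨h.convex.openSegment_subset hxP hyP hz, ?_⟩
    by_cases hxv : x = v
    · subst hxv
      by_cases hyv : y = x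
      · subst hyv; left
        rw [openSegment_same] at hz; exact hz
      · right
        rw [c.r_eq_of_v hz]
        exact hy.resolve_left hyv
    · by_cases hyv : y = v
      · subst hyv
        right
        rw [openSegment_symm] at hz
        rw [c.r_eq_of_v hz]
        exact hx.resolve_left hxv
      · right
        exact hF.1.openSegment_subset (hx.resolve_left hxv) (hy.resolve_left hyv)
          (c.r_openSegment (c.ht_pos h hv hxP hxv) (c.ht_pos h hv hyP hyv) hz)
  · refine ⟨fun x hx => hx.1, fun x hx y hy z hz hzxy => ⟨hx, ?_⟩⟩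
    by_cases hxv : x = v
    · left; exact hxv
    right
    have hzv : z ≠ v := by
      rintro rfl
      exact hxv (hv.2 hx hy hzxy)
    have hzF := hz.2.resolve_left hzv
    by_cases hyv : y = v
    · subst hyv
      rw [openSegment_symm] at hzxy
      rwa [c.r_eq_of_v hzxy] at hzF
    · exact hF.2.left_mem_of_mem_openSegment (c.r_mem h hv hx hxv) (c.r_mem h hv hy hyv) hzF
        (c.r_openSegment (c.ht_pos h hv hx hxv) (c.ht_pos h hv hy hyv) hzxy)

theorem isFace_section {F : Set E} (hF : IsFace P F) : IsFace c.Q (F ∩ c.Q) := by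
  have hQ : Convex ℝ {p | c.ht p = c.ε} := by
    have : {p | c.ht p = c.ε} = {p | c.g p = c.ε + c.g v} := by
      ext x; simp only [mem_setOf_eq, ht]; constructor <;> intro h <;> linarith
    rw [this]
    exact convex_hyperplane c.g.isLinear _
  constructor
  · intro x hx y hy a b ha hb hab
    refine ⟨hF.1 hx.1 hy.1 ha hb hab, hF.subset (hF.1 hx.1 hy.1 ha hb hab), ?_⟩
    exact hQ hx.2.2 hy.2.2 ha hb hab
  · refine ⟨inter_subset_right, fun x hx y hy z hz hzxy => ⟨?_, hx⟩⟩
    exact hF.2.left_mem_of_mem_openSegment hx.1 hy.1 hz.1 hzxy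

theorem convex_Q (h : Poly P) : Convex ℝ c.Q := by
  have := (c.isFace_section (IsFace.refl h.convex)).1
  rwa [inter_eq_right.mpr (fun p hp => hp.1)] at this

theorem isCompact_Q (h : Poly P) : IsCompact c.Q := by
  have : c.Q = P ∩ {p | c.ht p = c.ε} := rfl
  rw [this]
  apply h.isCompact.inter_right
  have : {p | c.ht p = c.ε} = {p | c.g p - c.g v = c.ε} := rfl
  rw [this]
  exact isClosed_eq (by fun_prop) continuous_const

theorem openSegment_of_ratio {x y : E} {ρ : ℝ} (h0 : 0 < ρ) (h1 : ρ < 1)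
    (h : x - v = ρ • (y - v)) : x ∈ openSegment ℝ v y := by
  refine ⟨1 - ρ, ρ, by linarith, h0, by ring, ?_⟩
  have : x = v + ρ • (y - v) := by rw [← h]; abel
  rw [this, sub_smul, one_smul, smul_sub]; abel

theorem eq_of_r_eq (h : Poly P) (hv : v ∈ P.extremePoints ℝ) {x y : E}
    (hx : x ∈ P.extremePoints ℝ) (hxv : x ≠ v) (hy : y ∈ P.extremePoints ℝ) (hyv : y ≠ v)
    (hr : c.r x = c.r y) : x = y := by
  have hhx := c.ht_pos h hv hx.1 hxv
  have hhy := c.ht_pos h hv hy.1 hyv
  have h1 : (c.ε / c.ht x) • (x - v) = (c.ε / c.ht y) • (y - v) := by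
    rw [← c.r_sub, ← c.r_sub, hr]
  have h2 : x - v = (c.ht x / c.ht y) • (y - v) := by
    have := congrArg (fun w => (c.ht x / c.ε) • w) h1
    simp only [smul_smul] at this
    have e1 : c.ht x / c.ε * (c.ε / c.ht x) = 1 := by
      have := c.pos.ne'; field_simp
    have e2 : c.ht x / c.ε * (c.ε / c.ht y) = c.ht x / c.ht y := by
      have := c.pos.ne'; field_simp
    rwa [e1, e2, one_smul] at this
  rcases lt_trichotomy (c.ht x / c.ht y) 1 with h3 | h3 | h3
  · have := openSegment_of_ratio (by positivity) h3 h2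
    exact absurd (hx.2 hv.1 hy.1 this).symm hxv
  · rw [h3, one_smul] at h2
    exact sub_left_injective h2
  · have h4 : y - v = (c.ht x / c.ht y)⁻¹ • (x - v) := by
      rw [h2, smul_smul, inv_mul_cancel₀ (by positivity), one_smul]
    have := openSegment_of_ratio (by positivity) (inv_lt_one_of_one_lt₀ h3) h4
    exact absurd (hy.2 hv.1 hx.1 this).symm hyv

/-- extreme points of the section lie on edges -/
theorem exists_edge (h : Poly P) (hv : v ∈ P.extremePoints ℝ) {q : E}
    (hq : q ∈ c.Q.extremePoints ℝ) :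
    ∃ u ∈ P.extremePoints ℝ, u ≠ v ∧ c.r u = q ∧ IsFace P (segment ℝ v u) := by
  have hG := c.isFace_G h hv (isFace_singleton.mpr hq)
  have hqQ : q ∈ c.Q := hq.1
  have hqG : q ∈ c.G {q} := ⟨hqQ.1, Or.inr (c.r_eq_of_mem hqQ)⟩
  have hvG : v ∈ c.G {q} := ⟨hv.1, Or.inl rfl⟩
  have hex : ∃ u ∈ P.extremePoints ℝ ∩ c.G {q}, u ≠ v := by
    by_contra hcon
    push Not at hcon
    have h1 : P.extremePoints ℝ ∩ c.G {q} ⊆ {v} := hcon
    have h2 := hG.eq_hull h
    have h3 : c.G {q} ⊆ {v} := by
      rw [h2]; exact convexHull_min h1 (convex_singleton v)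
    exact c.ne_of_mem_Q hqQ (h3 hqG)
  obtain ⟨u, ⟨hu, huG⟩, huv⟩ := hex
  have hru : c.r u = q := huG.2.resolve_left huv
  refine ⟨u, hu, huv, hru, ?_⟩
  have h1 : P.extremePoints ℝ ∩ c.G {q} = {v, u} := by
    ext w
    constructor
    · rintro ⟨hw, hwG⟩
      by_cases hwv : w = v
      · left; exact hwv
      · right
        have : c.r w = q := hwG.2.resolve_left hwv
        exact c.eq_of_r_eq h hv hw hwv hu huv (by rw [this, hru])
    · rintro (rfl | rfl)
      · exact ⟨hv, hvG⟩
      · exact ⟨hu, huG⟩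
  have h2 := hG.eq_hull h
  rw [h1, convexHull_pair] at h2
  rwa [h2] at hG

theorem finite_ext_Q (h : Poly P) (hv : v ∈ P.extremePoints ℝ) :
    (c.Q.extremePoints ℝ).Finite := by
  refine (h.finite_ext.image c.r).subset ?_
  intro q hq
  obtain ⟨u, hu, _, hr, _⟩ := c.exists_edge h hv hq
  exact ⟨u, hu, hr⟩

theorem poly_Q (h : Poly P) (hv : v ∈ P.extremePoints ℝ) : Poly c.Q := by
  refine ⟨_, c.finite_ext_Q h hv, ?_⟩
  have h1 := closure_convexHull_extremePoints (c.isCompact_Q h) (c.convex_Q h)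
  rw [((c.finite_ext_Q h hv).isClosed_convexHull ℝ).closure_eq] at h1
  exact h1.symm

theorem l_r (l : E →L[ℝ] ℝ) (p : E) : l (c.r p) - l v = (c.ε / c.ht p) * (l p - l v) := by
  unfold r
  simp only [map_add, map_smul, map_sub, smul_eq_mul]; ring

theorem l_r_lt (l : E →L[ℝ] ℝ) {p : E} (hp : 0 < c.ht p) : l (c.r p) < l v ↔ l p < l v := by
  have h1 := c.l_r l p
  have h2 : 0 < c.ε / c.ht p := div_pos c.pos hp
  constructor
  · intro h
    by_contra h3
    push Not at h3
    have : 0 ≤ c.ε / c.ht p * (l p - l v) := mul_nonneg h2.le (by linarith)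
    linarith
  · intro h
    have : c.ε / c.ht p * (l p - l v) < 0 := mul_neg_of_pos_of_neg h2 (by linarith)
    linarith

end Fig

/-- a vertex that is not a minimum of `l` has a neighbour with a smaller value -/
theorem exists_lower (h : Poly P) (hv : v ∈ P.extremePoints ℝ) (l : E →L[ℝ] ℝ) {p : E}
    (hp : p ∈ P) (hlp : l p < l v) :
    ∃ u ∈ P.extremePoints ℝ, u ≠ v ∧ IsFace P (segment ℝ v u) ∧ l u < l v := by
  obtain ⟨c⟩ := exists_fig h hv
  have hpv : p ≠ v := by rintro rfl; exact lt_irrefl _ hlp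
  have hrp := c.r_mem h hv hp hpv
  have hlr : l (c.r p) < l v := (c.l_r_lt l (c.ht_pos h hv hp hpv)).mpr hlp
  have hex : ∃ q ∈ c.Q.extremePoints ℝ, l q < l v := by
    by_contra hcon
    push Not at hcon
    have h1 : convexHull ℝ (c.Q.extremePoints ℝ) ⊆ {x | l v ≤ l x} :=
      convexHull_min hcon (convex_halfSpace_ge l.isLinear _)
    rw [(c.poly_Q h hv).hull_ext] at h1
    have := h1 hrp
    simp only [mem_setOf_eq] at this
    linarith
  obtain ⟨q, hq, hlq⟩ := hex
  obtain ⟨u, hu, huv, hr, hface⟩ := c.exists_edge h hv hq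
  refine ⟨u, hu, huv, hface, ?_⟩
  rw [← hr] at hlq
  exact (c.l_r_lt l (c.ht_pos h hv hu.1 huv)).mp hlq

end Pool.F620bf
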