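import Pool.Agent.W_f620bf_h49.Link
import Pool.Agent.W_f620bf_h49.Quad

/-!
Faces of `P` through `v` correspond to faces of the vertex figure.
-/

set_option autoImplicit false
set_option linter.unusedSectionVars false
set_option linter.deprecated false

namespace Pool.F620bf

open Set

variable {E : Type*} [NormedAddCommGroup E] [NormedSpace ℝ E] [FiniteDimensional ℝ E]
  {P F : Set E} {v : E}

namespace Fig

variable (c : Fig P v)

theorem G_inter_Q {F' : Set E} (hF' : F' ⊆ c.Q) : c.G F' ∩ c.Q = F' := by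
  ext q
  constructor
  · rintro ⟨hq, hqQ⟩
    have := hq.2.resolve_left (c.ne_of_mem_Q hqQ)
    rwa [c.r_eq_of_mem hqQ] at this
  · intro hq
    exact ⟨⟨(hF' hq).1, Or.inr (by rw [c.r_eq_of_mem (hF' hq)]; exact hq)⟩, hF' hq⟩

theorem G_section (h : Poly P) (hv : v ∈ P.extremePoints ℝ) (hF : IsFace P F) (hvF : v ∈ F) :
    c.G (F ∩ c.Q) = F := by
  have key : ∀ p ∈ P, p ≠ v → (c.r p ∈ F ↔ p ∈ F) := by
    intro p hp hpv
    have hht := c.ht_pos h hv hp hpv
    have hrP := (c.r_mem h hv hp hpv).1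
    rcases lt_trichotomy (c.ht p) c.ε with h1 | h1 | h1
    · have hseg : p ∈ openSegment ℝ v (c.r p) := by
        refine openSegment_of_ratio (ρ := c.ht p / c.ε) (div_pos hht c.pos)
          ((div_lt_one c.pos).mpr h1) ?_
        rw [c.r_sub, smul_smul]
        have : c.ht p / c.ε * (c.ε / c.ht p) = 1 := by
          have := c.pos.ne'; field_simp
        rw [this, one_smul]
      constructor
      · intro h2; exact hF.1.openSegment_subset hvF h2 hseg
      · intro h2; exact hF.2.right_mem_of_mem_openSegment (hF.subset hvF) hrP h2 hseg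
    · have : c.r p = p := c.r_eq_of_mem ⟨hp, h1⟩
      rw [this]
    · have hseg : c.r p ∈ openSegment ℝ v p :=
        openSegment_of_ratio (ρ := c.ε / c.ht p) (div_pos c.pos hht)
          ((div_lt_one hht).mpr h1) (c.r_sub p)
      constructor
      · intro h2; exact hF.2.right_mem_of_mem_openSegment (hF.subset hvF) hp h2 hseg
      · intro h2; exact hF.1.openSegment_subset hvF h2 hseg
  ext p
  constructor
  · rintro ⟨hp, hpv | hr⟩
    · rw [hpv]; exact hvF
    · by_cases hpv : p = v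
      · rw [hpv]; exact hvF
      · exact (key p hp hpv).mp hr.1
  · intro hp
    refine ⟨hF.subset hp, ?_⟩
    by_cases hpv : p = v
    · left; exact hpv
    · right
      exact ⟨(key p (hF.subset hp) hpv).mpr hp, c.r_mem h hv (hF.subset hp) hpv⟩

theorem G_empty (hv : v ∈ P.extremePoints ℝ) : c.G ∅ = {v} := by
  ext p
  constructor
  · rintro ⟨_, h1 | h1⟩
    · exact h1
    · exact absurd h1 (notMem_empty _)
  · rintro rfl
    exact ⟨hv.1, Or.inl rfl⟩

theorem v_mem_G (hv : v ∈ P.extremePoints ℝ) (F' : Set E) : v ∈ c.G F' := ⟨hv.1, Or.inl rfl⟩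

theorem subset_G {F' : Set E} (hF' : F' ⊆ c.Q) : F' ⊆ c.G F' := fun q hq =>
  ⟨(hF' hq).1, Or.inr (by rw [c.r_eq_of_mem (hF' hq)]; exact hq)⟩

theorem G_subset_iff {F' F'' : Set E} (hF' : F' ⊆ c.Q) (hF'' : F'' ⊆ c.Q) :
    c.G F' ⊆ c.G F'' ↔ F' ⊆ F'' := by
  constructor
  · intro h1
    rw [← c.G_inter_Q hF', ← c.G_inter_Q hF'']
    exact inter_subset_inter_left _ h1
  · rintro h1 p ⟨hp, hp'⟩
    exact ⟨hp, hp'.imp id fun h => h1 h⟩

theorem G_inj {F' F'' : Set E} (hF' : F' ⊆ c.Q) (hF'' : F'' ⊆ c.Q) (he : c.G F' = c.G F'') :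
    F' = F'' :=
  Subset.antisymm ((c.G_subset_iff hF' hF'').mp he.subset)
    ((c.G_subset_iff hF'' hF').mp he.symm.subset)

theorem vectorSpan_G (h : Poly P) (hv : v ∈ P.extremePoints ℝ) {F' : Set E} (hF' : F' ⊆ c.Q)
    {q₀ : E} (hq₀ : q₀ ∈ F') :
    vectorSpan ℝ (c.G F') = Submodule.span ℝ {q₀ - v} ⊔ vectorSpan ℝ F' := by
  apply le_antisymm
  · rw [vectorSpan_def, Submodule.span_le]
    have key : ∀ p ∈ c.G F', p - v ∈ Submodule.span ℝ {q₀ - v} ⊔ vectorSpan ℝ F' := by
      rintro p ⟨hpP, hp⟩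
      by_cases hpv : p = v
      · rw [hpv, sub_self]; exact Submodule.zero_mem _
      have hr := hp.resolve_left hpv
      have hpos := c.ht_pos h hv hpP hpv
      have h2 : p - v = (c.ht p / c.ε) • ((q₀ - v) + (c.r p - q₀)) := by
        have : (q₀ - v) + (c.r p - q₀) = c.r p - v := by abel
        rw [this, c.r_sub, smul_smul]
        have e1 : c.ht p / c.ε * (c.ε / c.ht p) = 1 := by
          have := c.pos.ne'; field_simp
        rw [e1, one_smul]
      rw [h2]
      apply Submodule.smul_mem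
      exact Submodule.add_mem_sup (Submodule.mem_span_singleton_self _)
        (vsub_mem_vectorSpan ℝ hr hq₀)
    rintro _ ⟨x, hx, y, hy, rfl⟩
    have := Submodule.sub_mem _ (key x hx) (key y hy)
    rwa [sub_sub_sub_cancel_right] at this
  · apply sup_le
    · rw [Submodule.span_singleton_le_iff_mem]
      exact vsub_mem_vectorSpan ℝ (c.subset_G hF' hq₀) (c.v_mem_G hv F')
    · exact vectorSpan_mono ℝ (c.subset_G hF')

theorem fdim_G' (h : Poly P) (hv : v ∈ P.extremePoints ℝ) {F' : Set E} (hF' : F' ⊆ c.Q)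
    (hne : F'.Nonempty) : fdim (c.G F') = fdim F' + 1 := by
  obtain ⟨q₀, hq₀⟩ := hne
  unfold fdim
  rw [c.vectorSpan_G h hv hF' hq₀]
  have hker : vectorSpan ℝ F' ≤ LinearMap.ker (c.g : E →ₗ[ℝ] ℝ) := by
    rw [vectorSpan_def, Submodule.span_le]
    rintro _ ⟨x, hx, y, hy, rfl⟩
    rw [SetLike.mem_coe, LinearMap.mem_ker]
    have h1 : c.g x - c.g v = c.ε := (hF' hx).2
    have h2 : c.g y - c.g v = c.ε := (hF' hy).2
    show c.g (x - y) = 0
    rw [map_sub]; linarith
  have h1 : c.g (q₀ - v) = c.ε := by rw [map_sub]; exact (hF' hq₀).2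
  have hne0 : q₀ - v ≠ 0 := by
    intro h0
    rw [h0, map_zero] at h1
    exact c.pos.ne h1
  have hinf : Submodule.span ℝ {q₀ - v} ⊓ vectorSpan ℝ F' = ⊥ := by
    rw [Submodule.eq_bot_iff]
    rintro x ⟨hx1, hx2⟩
    obtain ⟨a, rfl⟩ := Submodule.mem_span_singleton.mp hx1
    have h2 : c.g (a • (q₀ - v)) = 0 := hker hx2
    rw [map_smul, h1, smul_eq_mul] at h2
    rcases mul_eq_zero.mp h2 with h3 | h3
    · rw [h3, zero_smul]
    · exact absurd h3 c.pos.ne'
  have h2 := Submodule.finrank_sup_add_finrank_inf_eq (Submodule.span ℝ {q₀ - v})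
    (vectorSpan ℝ F')
  rw [hinf, finrank_bot, add_zero, finrank_span_singleton hne0] at h2
  omega

theorem fdim_section (h : Poly P) (hv : v ∈ P.extremePoints ℝ) (hF : IsFace P F) (hvF : v ∈ F)
    (hne : F ≠ {v}) : (F ∩ c.Q).Nonempty ∧ fdim F = fdim (F ∩ c.Q) + 1 := by
  have h1 : (F ∩ c.Q).Nonempty := by
    rw [nonempty_iff_ne_empty]
    intro h0
    have := c.G_section h hv hF hvF
    rw [h0, c.G_empty hv] at this
    exact hne this.symm
  refine ⟨h1, ?_⟩
  have h2 := c.fdim_G' h hv (F' := F ∩ c.Q) inter_subset_right h1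
  rwa [c.G_section h hv hF hvF] at h2

theorem fdim_Q (h : Poly P) (hv : v ∈ P.extremePoints ℝ) (hne : P ≠ {v}) :
    c.Q.Nonempty ∧ fdim P = fdim c.Q + 1 := by
  have := c.fdim_section h hv (IsFace.refl h.convex) hv.1 hne
  rwa [inter_eq_right.mpr (fun p hp => hp.1)] at this

/-- faces through `v` and faces of the figure -/
theorem faceNumber_Q (h : Poly P) (hv : v ∈ P.extremePoints ℝ) (i : ℕ) :
    faceNumber c.Q i = {F | IsFace P F ∧ v ∈ F ∧ fdim F = i + 1}.ncard := by
  unfold faceNumber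
  have : {F | IsFace P F ∧ v ∈ F ∧ fdim F = i + 1} =
      c.G '' {F : Set E | IsFace c.Q F ∧ F.Nonempty ∧ fdim F = i} := by
    ext F
    constructor
    · rintro ⟨hF, hvF, hi⟩
      have hne : F ≠ {v} := by
        rintro rfl
        rw [fdim_singleton] at hi
        omega
      obtain ⟨h1, h2⟩ := c.fdim_section h hv hF hvF hne
      exact ⟨F ∩ c.Q, ⟨c.isFace_section hF, h1, by omega⟩, c.G_section h hv hF hvF⟩
    · rintro ⟨F', ⟨h1, h2, h3⟩, rfl⟩
      exact ⟨c.isFace_G h hv h1, c.v_mem_G hv F', by rw [c.fdim_G' h hv h1.subset h2, h3]⟩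
  rw [this, Set.ncard_image_of_injOn]
  intro F1 hF1 F2 hF2 he
  exact c.G_inj hF1.1.subset hF2.1.subset he

end Fig

theorem faceNumber_zero (P : Set E) : faceNumber P 0 = (P.extremePoints ℝ).ncard := by
  unfold faceNumber
  have : {F : Set E | IsFace P F ∧ F.Nonempty ∧ fdim F = 0} =
      (fun v => ({v} : Set E)) '' P.extremePoints ℝ := by
    ext F
    constructor
    · rintro ⟨hF, hne, h0⟩
      obtain ⟨v, rfl⟩ := fdim_eq_zero hne h0
      exact ⟨v, isFace_singleton.mp hF, rfl⟩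
    · rintro ⟨v, hv, rfl⟩
      exact ⟨isFace_singleton.mpr hv, singleton_nonempty v, fdim_singleton v⟩
  rw [this, Set.ncard_image_of_injective _ Set.singleton_injective]

/-- a polytope of dimension `d` has at least `d + 1` vertices -/
theorem fdim_lt_ncard (h : Poly P) (hne : P.Nonempty) : fdim P < (P.extremePoints ℝ).ncard := by
  classical
  have hfin := h.finite_ext
  have hpos : 0 < (P.extremePoints ℝ).ncard := by
    rw [Set.ncard_pos hfin]
    obtain ⟨v, hv, _⟩ := (IsFace.refl h.convex).exists_ext h hne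
    exact ⟨v, hv⟩
  obtain ⟨m, hm⟩ : ∃ m, (P.extremePoints ℝ).ncard = m + 1 := ⟨_, (Nat.succ_pred_eq_of_pos hpos).symm⟩
  have h1 : fdim P = Module.finrank ℝ (vectorSpan ℝ (P.extremePoints ℝ)) := by
    unfold fdim
    conv_lhs => rw [← h.hull_ext]
    rw [← direction_affineSpan, affineSpan_convexHull, direction_affineSpan]
  have h2 := finrank_vectorSpan_image_finset_le ℝ (id : E → E) hfin.toFinset (n := m)
    (by rw [← hm, Set.ncard_eq_toFinset_card _ hfin])
  rw [Finset.image_id, Set.Finite.coe_toFinset] at h2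
  omega

end Pool.F620bf
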