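import Pool.Agent.W_f620bf_h49.Star

set_option autoImplicit false

namespace Pool.F620bf

theorem fdim_of_interior {d : ℕ} {P : Set (EuclideanSpace ℝ (Fin d))}
    (hint : (interior P).Nonempty) : fdim P = d := by
  have h1 : affineSpan ℝ P = ⊤ := by
    rw [eq_top_iff, ← isOpen_interior.affineSpan_eq_top hint]
    exact affineSpan_mono ℝ interior_subset
  unfold fdim
  rw [← direction_affineSpan, h1, AffineSubspace.direction_top, finrank_top,
    finrank_euclideanSpace_fin]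

theorem sum_choose_eq {d i : ℕ} (hi : i < d) :
    ((∑ j ∈ Finset.Ico i d, d.choose j : ℕ) : ℝ) =
      2 ^ d - 1 - ((∑ j ∈ Finset.range i, d.choose j : ℕ) : ℝ) := by
  have h1 := Finset.sum_range_add_sum_Ico (fun j => d.choose j) hi.le
  have h2 := Nat.sum_range_choose d
  rw [Finset.sum_range_succ, Nat.choose_self, ← h1] at h2
  have h3 : ((∑ j ∈ Finset.range i, d.choose j : ℕ) : ℝ) +
      ((∑ j ∈ Finset.Ico i d, d.choose j : ℕ) : ℝ) + 1 = 2 ^ d := by
    exact_mod_cast h2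
  linarith

/-- Upper bounds for the face numbers of a cubical `d`-polytope, `d ≥ 3`, with `n` vertices. -/
theorem final (d : ℕ) (hd : 3 ≤ d) (P : Set (EuclideanSpace ℝ (Fin d))) (hP : IsCubical P)
    (hint : (interior P).Nonempty) (n : ℝ) (hn : ((P.extremePoints ℝ).ncard : ℝ) = n) :
    (∑ i ∈ Finset.Ico 1 d, 2 ^ i * (faceNumber P i : ℝ) ≤ n * (n - 2)) ∧
    (∀ i, 1 ≤ i → i < d → ∀ A : ℝ, A = ∑ j ∈ Finset.range i, (d.choose j : ℝ) →
      (faceNumber P i : ℝ) ≤ d.choose i * n * (n - 1 - A) / (2 ^ i * (2 ^ d - 1 - A))) ∧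
    ((faceNumber P (d - 1) : ℝ) ≤
      n * (n - 2 ^ d + d * (d + 1) / 2) / (2 ^ (d - 2) * (d + 1))) ∧
    (d = 4 → (faceNumber P 1 : ℝ) ≤ n * (n + 8) / 12 ∧ (faceNumber P 2 : ℝ) ≤ n * (n - 4) / 8 ∧
      (faceNumber P 3 : ℝ) ≤ n * (n - 4) / 24) ∧
    (d = 5 → (faceNumber P 1 : ℝ) ≤ (n - 2) * (n + 64) / 36 ∧
      (faceNumber P 2 : ℝ) ≤ (n - 2) * (5 * n + 32) / 72 ∧
      (faceNumber P 3 : ℝ) ≤ (n - 2) * (n - 8) / 18 ∧
      (faceNumber P 4 : ℝ) ≤ (n - 2) * (n - 8) / 72) := by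
  have hdim := fdim_of_interior hint
  subst hn
  refine ⟨?_, ?_, ?_, ?_, ?_⟩
  · have h1 := total_bound hP (by omega)
    rw [hdim] at h1
    have h2 : ∑ i ∈ Finset.Ico 1 d, 2 ^ i * (faceNumber P i : ℝ) =
        ∑ i ∈ Finset.range (d - 1), 2 ^ (i + 1) * (faceNumber P (i + 1) : ℝ) := by
      rw [Finset.sum_Ico_eq_sum_range]
      refine Finset.sum_congr rfl fun i _ => by rw [add_comm 1 i]
    rw [h2]
    have h3 : (∑ i ∈ Finset.range (d - 1), 2 ^ (i + 1) * (faceNumber P (i + 1) : ℝ)) +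
      2 * ((P.extremePoints ℝ).ncard : ℝ) ≤ ((P.extremePoints ℝ).ncard : ℝ) ^ 2 := by
      exact_mod_cast h1
    nlinarith
  · rintro i hi0 hi A rfl
    have h1 := face_bound hP (by omega) hi0 (by omega : i < fdim P)
    rw [hdim] at h1
    have h2 := sum_choose_eq hi
    have h3 : (2 : ℝ) ^ i * faceNumber P i * ((∑ j ∈ Finset.Ico i d, d.choose j : ℕ) : ℝ) +
        d.choose i * (1 + ((∑ j ∈ Finset.range i, d.choose j : ℕ) : ℝ)) *
        ((P.extremePoints ℝ).ncard : ℝ) ≤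
        d.choose i * ((P.extremePoints ℝ).ncard : ℝ) ^ 2 := by
      exact_mod_cast h1
    have hpos : (0 : ℝ) < ((∑ j ∈ Finset.Ico i d, d.choose j : ℕ) : ℝ) := by
      have : 0 < ∑ j ∈ Finset.Ico i d, d.choose j := by
        refine Finset.sum_pos (fun j hj => ?_) ⟨i, Finset.mem_Ico.mpr ⟨le_refl _, hi⟩⟩
        rw [Finset.mem_Ico] at hj
        exact Nat.choose_pos hj.2.le
      exact_mod_cast this
    rw [h2] at h3 hpos
    push_cast at h3 hpos
    rw [le_div_iff₀ (by positivity)]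
    nlinarith
  · obtain ⟨m, rfl⟩ : ∃ m, d = m + 3 := ⟨d - 3, by omega⟩
    have h1 := facet_bound hP hdim
    rw [hdim] at h1
    have h2 := sum_choose_eq (d := m + 3) (i := m + 1) (by omega)
    have h4 : ∑ j ∈ Finset.Ico (m + 1) (m + 3), (m + 3).choose j =
        (m + 3).choose 2 + (m + 3).choose 1 := by
      rw [Finset.sum_Ico_succ_top (by omega), Finset.sum_Ico_succ_top (by omega), Finset.Ico_self,
        Finset.sum_empty, zero_add]
      congr 1
      · rw [← Nat.choose_symm (by omega : m + 1 ≤ m + 3)]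
        congr 1
        omega
      · rw [← Nat.choose_symm (by omega : m + 2 ≤ m + 3)]
        congr 1
        omega
    have h5 : ((m + 3).choose 2 : ℝ) = (m + 3) * (m + 2) / 2 := by
      rw [Nat.cast_choose_two]
      push_cast
      ring
    rw [h4, Nat.choose_one_right] at h2
    push_cast at h2
    rw [h5] at h2
    have h3 : (2 : ℝ) ^ (m + 1) * (m + 4) * faceNumber P (m + 2) +
        (1 + ∑ j ∈ Finset.range (m + 1), ((m + 3).choose j : ℝ)) *
          ((P.extremePoints ℝ).ncard : ℝ) ≤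
        ((P.extremePoints ℝ).ncard : ℝ) ^ 2 := by
      exact_mod_cast h1
    have h6 : ∑ j ∈ Finset.range (m + 1), ((m + 3).choose j : ℝ) =
        2 ^ (m + 3) - 1 - ((m + 3) * (m + 2) / 2 + (m + 3)) := by linarith
    rw [h6] at h3
    have e1 : m + 3 - 1 = m + 2 := rfl
    have e2 : m + 3 - 2 = m + 1 := rfl
    rw [e1, e2, le_div_iff₀ (by positivity)]
    push_cast
    nlinarith
  · rintro rfl
    obtain ⟨h1, h2, h3⟩ := four hP hdim
    have g1 : (faceNumber P 1 : ℝ) = (P.extremePoints ℝ).ncard + 2 * faceNumber P 3 := by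
      exact_mod_cast h1
    have g2 : (faceNumber P 2 : ℝ) = 3 * faceNumber P 3 := by exact_mod_cast h2
    have g3 : 24 * (faceNumber P 3 : ℝ) + 4 * (P.extremePoints ℝ).ncard ≤
        ((P.extremePoints ℝ).ncard : ℝ) ^ 2 := by exact_mod_cast h3
    refine ⟨?_, ?_, ?_⟩ <;> nlinarith
  · rintro rfl
    obtain ⟨h1, h2, h3⟩ := five hP hdim
    have h4 := five_bound hP hdim
    have g1 : (faceNumber P 1 : ℝ) + 4 = 2 * (P.extremePoints ℝ).ncard + 2 * faceNumber P 4 := by
      exact_mod_cast h1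
    have g2 : (faceNumber P 2 : ℝ) + 2 = (P.extremePoints ℝ).ncard + 5 * faceNumber P 4 := by
      exact_mod_cast h2
    have g3 : (faceNumber P 3 : ℝ) = 4 * faceNumber P 4 := by exact_mod_cast h3
    have g4 : 72 * (faceNumber P 4 : ℝ) + 10 * (P.extremePoints ℝ).ncard ≤
        ((P.extremePoints ℝ).ncard : ℝ) ^ 2 + 16 := by exact_mod_cast h4
    refine ⟨?_, ?_, ?_, ?_⟩ <;> nlinarith

end Pool.F620bf
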