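import Pool.Agent.W_f620bf_h49.Count

/-!
Even dimension: the number of vertices is even and `∑ 2^i f_i ≤ n (n - 1)`; dimensions four and
five.
-/

set_option autoImplicit false
set_option linter.unusedSectionVars false
set_option linter.deprecated false

namespace Pool.F620bf

open Set

variable {E : Type*} [NormedAddCommGroup E] [NormedSpace ℝ E] [FiniteDimensional ℝ E]
  {P F : Set E} {v : E} {k : ℕ}

/-- the number of proper faces at a vertex (the vertex included) is odd -/
theorem star_odd (h : Poly P) (hv : v ∈ P.extremePoints ℝ) {n : ℕ} (hd : fdim P = n + 1) :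
    Odd (∑ i ∈ Finset.range (fdim P), (fAt P v i).ncard) := by
  rw [hd, Finset.sum_range_succ', fAt_zero hv, Nat.odd_add_one, Nat.not_odd_iff_even]
  have h1 := euler_at h hv hd
  have h2 : Even (∑ i ∈ Finset.range n, (-1 : ℤ) ^ i * ((fAt P v (i + 1)).ncard : ℤ)) := by
    rw [h1]
    rcases Nat.even_or_odd n with hn | hn
    · rw [hn.neg_one_pow]; decide
    · rw [hn.neg_one_pow]; decide
  have h3 : ∑ i ∈ Finset.range n, (((fAt P v (i + 1)).ncard : ℕ) : ℤ) -
      ∑ i ∈ Finset.range n, (-1 : ℤ) ^ i * ((fAt P v (i + 1)).ncard : ℤ) =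
      ∑ i ∈ Finset.range n, (1 - (-1 : ℤ) ^ i) * ((fAt P v (i + 1)).ncard : ℤ) := by
    rw [← Finset.sum_sub_distrib]
    exact Finset.sum_congr rfl fun i _ => by ring
  have h4 : Even (∑ i ∈ Finset.range n, (1 - (-1 : ℤ) ^ i) * ((fAt P v (i + 1)).ncard : ℤ)) := by
    refine Finset.even_sum _ fun i _ => ?_
    refine Even.mul_right ?_ _
    rcases Nat.even_or_odd i with hn | hn
    · rw [hn.neg_one_pow]; decide
    · rw [hn.neg_one_pow]; decide
  rw [← h3, Int.even_sub] at h4
  have h5 := h4.mpr h2
  rw [← Nat.cast_sum] at h5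
  exact (Int.even_coe_nat _).mp h5

/-- two-colouring of the vertices -/
theorem exists_colouring (h : IsCubical P) (hd : 3 ≤ fdim P) :
    ∃ s : E → Bool, ∀ u w, Nb P u w → s u ≠ s w := by
  obtain ⟨s, hs⟩ := exists_cut h hd (fun _ => True) (fun _ _ _ => Iff.rfl)
  exact ⟨s, fun u w hn => (hs u w hn).mpr trivial⟩

/-- in even dimension the two colour classes of the vertices have the same size -/
theorem classes_eq (h : IsCubical P) {m : ℕ} (hd : fdim P = 2 * m) (hm : 2 ≤ m)
    {s : E → Bool} (hs : ∀ u w, Nb P u w → s u ≠ s w) :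
    (h.poly.finite_ext.toFinset.filter (fun v => s v = true)).card =
      (h.poly.finite_ext.toFinset.filter (fun v => s v = false)).card := by
  classical
  have hd' : fdim P = (2 * m - 1) + 1 := by omega
  have key : ∀ b, (∑ i ∈ Finset.range (2 * m - 1), (-1 : ℤ) ^ i *
      (2 ^ i * (faceNumber P (i + 1) : ℤ))) =
      2 * ((h.poly.finite_ext.toFinset.filter (fun v => s v = b)).card : ℤ) := by
    intro b
    have h1 : ∀ v ∈ h.poly.finite_ext.toFinset.filter (fun v => s v = b),
        ∑ i ∈ Finset.range (2 * m - 1), (-1 : ℤ) ^ i * ((fAt P v (i + 1)).ncard : ℤ) = 2 := by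
      intro v hv
      rw [Finset.mem_filter, Set.Finite.mem_toFinset] at hv
      rw [euler_at h.poly hv.1 hd']
      have : Odd (2 * m - 1) := by
        rw [Nat.odd_iff]; omega
      rw [this.neg_one_pow]; norm_num
    have h2 := Finset.sum_congr (rfl : h.poly.finite_ext.toFinset.filter (fun v => s v = b) = _) h1
    rw [Finset.sum_comm, Finset.sum_const, nsmul_eq_mul] at h2
    refine Eq.trans ?_ (h2.trans (mul_comm _ _))
    refine Finset.sum_congr rfl fun i hi => ?_
    rw [Finset.mem_range] at hi
    rw [← Finset.mul_sum, ← Nat.cast_sum, sum_class h s hs b (by omega)]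
    push_cast
    ring
  have := (key true).symm.trans (key false)
  omega

/-- in even dimension at least four the number of vertices is even -/
theorem even_vertices (h : IsCubical P) {m : ℕ} (hd : fdim P = 2 * m) (hm : 2 ≤ m) :
    Even (P.extremePoints ℝ).ncard := by
  classical
  obtain ⟨s, hs⟩ := exists_colouring h (by omega)
  have h3 := classes_eq h hd hm hs
  have h4 : (h.poly.finite_ext.toFinset.filter (fun v => s v = true)).card +
      (h.poly.finite_ext.toFinset.filter (fun v => ¬ s v = true)).card =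
      h.poly.finite_ext.toFinset.card := Finset.card_filter_add_card_filter_not _
  have h5 : h.poly.finite_ext.toFinset.filter (fun v => ¬ s v = true) =
      h.poly.finite_ext.toFinset.filter (fun v => s v = false) := by
    refine Finset.filter_congr fun v _ => ?_
    cases s v <;> simp
  rw [h5, ← h3, ← Set.ncard_eq_toFinset_card _ h.poly.finite_ext] at h4
  exact ⟨_, h4.symm⟩

theorem star_bound_even (h : IsCubical P) {m : ℕ} (hd : fdim P = 2 * m) (hm : 2 ≤ m)
    (hv : v ∈ P.extremePoints ℝ) :
    ∑ i ∈ Finset.range (fdim P), (fAt P v i).ncard + 1 ≤ (P.extremePoints ℝ).ncard := by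
  have h1 := star_bound h hv
  have h2 := star_odd h.poly hv (n := 2 * m - 1) (by omega)
  have h3 := even_vertices h hd hm
  rw [Nat.odd_iff] at h2
  rw [Nat.even_iff] at h3
  omega

/-- in even dimension at least 4, `∑ 2^i f_i ≤ n (n - 1)`, an equality for the cube -/
theorem quad_bound_even (h : IsCubical P) {m : ℕ} (hd : fdim P = 2 * m) (hm : 2 ≤ m) :
    ∑ i ∈ Finset.range (fdim P), 2 ^ i * faceNumber P i + (P.extremePoints ℝ).ncard ≤
      (P.extremePoints ℝ).ncard ^ 2 := by
  classical
  have h1 : ∑ i ∈ Finset.range (fdim P), 2 ^ i * faceNumber P i =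
      ∑ v ∈ h.poly.finite_ext.toFinset, ∑ i ∈ Finset.range (fdim P), (fAt P v i).ncard := by
    rw [Finset.sum_comm]
    refine Finset.sum_congr rfl fun i hi => ?_
    rw [Finset.mem_range] at hi
    exact (sum_fAt h hi).symm
  have h2 : (P.extremePoints ℝ).ncard = ∑ v ∈ h.poly.finite_ext.toFinset, 1 := by
    rw [Finset.sum_const, smul_eq_mul, mul_one, ← Set.ncard_eq_toFinset_card _ h.poly.finite_ext]
  have h3 : ∑ v ∈ h.poly.finite_ext.toFinset,
      (∑ i ∈ Finset.range (fdim P), (fAt P v i).ncard + 1) ≤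
      ∑ v ∈ h.poly.finite_ext.toFinset, (P.extremePoints ℝ).ncard := by
    refine Finset.sum_le_sum fun v hv => ?_
    rw [Set.Finite.mem_toFinset] at hv
    exact star_bound_even h hd hm hv
  rw [Finset.sum_add_distrib, ← h1, ← h2, Finset.sum_const, smul_eq_mul,
    ← Set.ncard_eq_toFinset_card _ h.poly.finite_ext] at h3
  calc _ ≤ _ := h3
    _ = _ := by ring

theorem four_at (h : IsCubical P) (hd : fdim P = 4) (hv : v ∈ P.extremePoints ℝ) :
    (fAt P v 2).ncard + 6 = 3 * (fAt P v 1).ncard ∧
      (fAt P v 3).ncard + 4 = 2 * (fAt P v 1).ncard := by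
  have h1 := euler_at h.poly hv (n := 3) (by omega)
  have h2 := ridge_facet_at h hv (j := 1) (by omega)
  simp only [Finset.sum_range_succ, Finset.sum_range_zero] at h1
  norm_num at h1 h2
  omega

theorem five_at (h : IsCubical P) (hd : fdim P = 5) (hv : v ∈ P.extremePoints ℝ) :
    (fAt P v 4).ncard + (fAt P v 1).ncard = (fAt P v 2).ncard ∧
      (fAt P v 3).ncard = 2 * (fAt P v 4).ncard := by
  have h1 := euler_at h.poly hv (n := 4) (by omega)
  have h2 := ridge_facet_at h hv (j := 2) (by omega)
  simp only [Finset.sum_range_succ, Finset.sum_range_zero] at h1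
  norm_num at h1 h2
  omega

/-- dimension four -/
theorem four (h : IsCubical P) (hd : fdim P = 4) :
    faceNumber P 1 = (P.extremePoints ℝ).ncard + 2 * faceNumber P 3 ∧
    faceNumber P 2 = 3 * faceNumber P 3 ∧
    24 * faceNumber P 3 + 4 * (P.extremePoints ℝ).ncard ≤ (P.extremePoints ℝ).ncard ^ 2 := by
  classical
  have hN : ∑ v ∈ h.poly.finite_ext.toFinset, 1 = (P.extremePoints ℝ).ncard := by
    rw [Finset.sum_const, smul_eq_mul, mul_one, ← Set.ncard_eq_toFinset_card _ h.poly.finite_ext]
  have s1 := sum_fAt h (i := 1) (by omega)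
  have s2 := sum_fAt h (i := 2) (by omega)
  have s3 := sum_fAt h (i := 3) (by omega)
  have e1 : ∑ v ∈ h.poly.finite_ext.toFinset, ((fAt P v 2).ncard + 6 * 1) =
      ∑ v ∈ h.poly.finite_ext.toFinset, 3 * (fAt P v 1).ncard := by
    refine Finset.sum_congr rfl fun v hv => ?_
    rw [Set.Finite.mem_toFinset] at hv
    exact (four_at h hd hv).1
  have e2 : ∑ v ∈ h.poly.finite_ext.toFinset, ((fAt P v 3).ncard + 4 * 1) =
      ∑ v ∈ h.poly.finite_ext.toFinset, 2 * (fAt P v 1).ncard := by
    refine Finset.sum_congr rfl fun v hv => ?_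
    rw [Set.Finite.mem_toFinset] at hv
    exact (four_at h hd hv).2
  rw [Finset.sum_add_distrib, ← Finset.mul_sum, ← Finset.mul_sum, hN, s1, s2] at e1
  rw [Finset.sum_add_distrib, ← Finset.mul_sum, ← Finset.mul_sum, hN, s1, s3] at e2
  have q := quad_bound_even h (m := 2) (by omega) (by omega)
  rw [hd] at q
  simp only [Finset.sum_range_succ, Finset.sum_range_zero] at q
  have f0 : faceNumber P 0 = (P.extremePoints ℝ).ncard := faceNumber_zero P
  rw [f0] at q
  generalize (P.extremePoints ℝ).ncard ^ 2 = Q at q ⊢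
  norm_num at q e1 e2
  refine ⟨by omega, by omega, by omega⟩

/-- dimension five -/
theorem five (h : IsCubical P) (hd : fdim P = 5) :
    faceNumber P 1 + 4 = 2 * (P.extremePoints ℝ).ncard + 2 * faceNumber P 4 ∧
    faceNumber P 2 + 2 = (P.extremePoints ℝ).ncard + 5 * faceNumber P 4 ∧
    faceNumber P 3 = 4 * faceNumber P 4 := by
  classical
  have s1 := sum_fAt h (i := 1) (by omega)
  have s2 := sum_fAt h (i := 2) (by omega)
  have s3 := sum_fAt h (i := 3) (by omega)
  have s4 := sum_fAt h (i := 4) (by omega)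
  have e1 : ∑ v ∈ h.poly.finite_ext.toFinset, ((fAt P v 4).ncard + (fAt P v 1).ncard) =
      ∑ v ∈ h.poly.finite_ext.toFinset, (fAt P v 2).ncard := by
    refine Finset.sum_congr rfl fun v hv => ?_
    rw [Set.Finite.mem_toFinset] at hv
    exact (five_at h hd hv).1
  have e2 : ∑ v ∈ h.poly.finite_ext.toFinset, (fAt P v 3).ncard =
      ∑ v ∈ h.poly.finite_ext.toFinset, 2 * (fAt P v 4).ncard := by
    refine Finset.sum_congr rfl fun v hv => ?_
    rw [Set.Finite.mem_toFinset] at hv
    exact (five_at h hd hv).2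
  rw [Finset.sum_add_distrib, s1, s2, s4] at e1
  rw [← Finset.mul_sum, s3, s4] at e2
  have hne : P.Nonempty := by
    by_contra hcon
    rw [Set.not_nonempty_iff_eq_empty] at hcon
    subst hcon
    unfold fdim at hd
    rw [vectorSpan_empty, finrank_bot] at hd
    omega
  have q := euler h.poly hne
  rw [hd] at q
  simp only [Finset.sum_range_succ, Finset.sum_range_zero] at q
  have f0 : faceNumber P 0 = (P.extremePoints ℝ).ncard := faceNumber_zero P
  rw [f0] at q
  norm_num at q e1 e2
  refine ⟨by omega, by omega, by omega⟩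

end Pool.F620bf
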