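import Pool.Agent.W_f620bf_h49.EdgeB

/-!
A face that crosses the cut of a parallel class is split into two opposite halves.
-/

set_option autoImplicit false
set_option linter.unusedSectionVars false
set_option linter.deprecated false

namespace Pool.F620bf

open Set

variable {E : Type*} [NormedAddCommGroup E] [NormedSpace ℝ E] [FiniteDimensional ℝ E]
  {P F : Set E} {v : E} {k : ℕ}

/-- no 2-dimensional face has two adjacent parallel edges -/
def NoSelfCrossing (P : Set E) : Prop :=
  ∀ D, IsFace P D → fdim D = 2 → ∀ e e', IsEdge P e → IsEdge P e' → e ⊆ D → e' ⊆ D → e ≠ e' →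
    (e ∩ e').Nonempty → ¬ Parallel P e e'

theorem bool_aux {x y b : Bool} (h1 : x ≠ y) (h2 : y ≠ b) : x = b := by
  cases x <;> cases y <;> cases b <;> simp_all

theorem s_const (c : Cubing F k) (h : IsCubical P) (hF : IsFace P F)
    {s : E → Bool} (f g : Fin k → Bool)
    (hfg : ∀ i, f i ≠ g i → ∀ f', s (c.vx h.poly hF f') = s (c.vx h.poly hF (flip f' i))) :
    s (c.vx h.poly hF f) = s (c.vx h.poly hF g) := by
  classical
  have key : ∀ t : Finset (Fin k), s (c.vx h.poly hF f) = s (c.vx h.poly hF (t.piecewise g f)) := by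
    intro t
    induction t using Finset.induction_on with
    | empty => rw [Finset.piecewise_empty]
    | insert j t hj ih =>
      rw [ih, Finset.piecewise_insert]
      by_cases hgf : g j = t.piecewise g f j
      · rw [hgf, Function.update_eq_self]
      · have hfj : t.piecewise g f j = f j := Finset.piecewise_eq_of_notMem _ _ _ hj
        have : Function.update (t.piecewise g f) j (g j) = flip (t.piecewise g f) j := by
          unfold flip
          congr 1
          cases h1 : g j <;> cases h2 : t.piecewise g f j <;> simp_all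
        rw [this]
        exact hfg j (by rw [← hfj]; exact Ne.symm hgf) _
  have := key Finset.univ
  rwa [Finset.piecewise_univ] at this

theorem exists_half (h : IsCubical P) (hsq : NoSelfCrossing P) (hF : IsFace P F) (hFP : F ≠ P)
    (hne : F.Nonempty) {j : ℕ} (hj : fdim F = j + 1) {e₀ : Set E} {s : E → Bool}
    (hs : ∀ u w, Nb P u w → (s u ≠ s w ↔ Parallel P e₀ (segment ℝ u w))) (b : Bool)
    (hcross : ∃ x ∈ P.extremePoints ℝ, x ∈ F ∧ ∃ y ∈ P.extremePoints ℝ, y ∈ F ∧ s x ≠ s y) :
    ∃ F', IsFace P F' ∧ F'.Nonempty ∧ fdim F' = j ∧ F' ⊆ F ∧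
      (∀ x ∈ P.extremePoints ℝ, x ∈ F' → s x = b) ∧
      ∀ v' ∈ P.extremePoints ℝ, v' ∈ F' → ∃ e, IsEdge P e ∧ v' ∈ e ∧ Parallel P e₀ e ∧ e ⊆ F ∧
        ∀ G, IsFace P G → F' ⊆ G → e ⊆ G → F ⊆ G := by
  classical
  obtain ⟨c⟩ := h.cubing hF hne hFP
  set vx := c.vx h.poly hF with hvx
  have hstep : ∀ f i, s (vx f) ≠ s (vx (flip f i)) ↔ Parallel P e₀ (c.edg f i) := by
    intro f i
    rw [c.edg_eq h.poly hF]
    exact hs _ _ (c.nb h.poly hF f i)
  have hdir : ∀ f g i, Parallel P e₀ (c.edg f i) → Parallel P e₀ (c.edg g i) := fun f g i hp =>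
    Relation.EqvGen.trans _ _ _ hp (c.parallel_dir h hF hFP f g i)
  -- a direction in the class
  obtain ⟨i₀, hi₀⟩ : ∃ i₀, ∀ f, Parallel P e₀ (c.edg f i₀) := by
    by_contra hcon
    push Not at hcon
    obtain ⟨x, hx, hxF, y, hy, hyF, hxy⟩ := hcross
    obtain ⟨f, rfl⟩ := c.vx_surj h.poly hF hx hxF
    obtain ⟨g, rfl⟩ := c.vx_surj h.poly hF hy hyF
    apply hxy
    refine s_const c h hF f g fun i _ f' => ?_
    obtain ⟨g', hg'⟩ := hcon i
    by_contra hne'
    exact hg' (hdir _ _ _ ((hstep f' i).mp hne'))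
  have huniq : ∀ i, i ≠ i₀ → ∀ f, ¬ Parallel P e₀ (c.edg f i) := by
    intro i hi f hp
    refine hsq (c.φ (lab2 f i₀ i)) (hF.trans (c.face _)) ?_ (c.edg f i₀) (c.edg f i)
      (c.isEdge_edg h.poly hF f i₀) (c.isEdge_edg h.poly hF f i) ?_ ?_ ?_ ?_
      (Relation.EqvGen.trans _ _ _ (Relation.EqvGen.symm _ _ (hi₀ f)) hp)
    · rw [c.fdim_eq h hF hFP, free_lab2 f (Ne.symm hi)]
    · unfold Cubing.edg
      rw [c.le_iff]
      intro l b' hl
      unfold lab2 at hl
      split_ifs at hl with h1
      push Not at h1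
      simp only [lab1, h1.1, if_false]
      exact hl
    · unfold Cubing.edg
      rw [c.le_iff]
      intro l b' hl
      unfold lab2 at hl
      split_ifs at hl with h1
      push Not at h1
      simp only [lab1, h1.2, if_false]
      exact hl
    · intro he
      have h1 : vx (flip f i₀) ∈ P.extremePoints ℝ ∩ c.edg f i₀ := by
        rw [c.ext_edg h.poly hF]; simp [hvx]
      rw [he, c.ext_edg h.poly hF] at h1
      rcases h1 with h1 | h1
      · exact flip_ne_self f i₀ (c.vx_inj h.poly hF h1)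
      · have h2 := c.vx_inj h.poly hF h1
        have h3 := congrFun h2 i
        rw [flip_ne _ hi, flip_same] at h3
        cases hf : f i <;> rw [hf] at h3 <;> simp at h3
    · have h1 : vx f ∈ P.extremePoints ℝ ∩ c.edg f i₀ := by
        rw [c.ext_edg h.poly hF]; simp [hvx]
      have h2 : vx f ∈ P.extremePoints ℝ ∩ c.edg f i := by
        rw [c.ext_edg h.poly hF]; simp [hvx]
      exact ⟨_, h1.2, h2.2⟩
  have hoff : ∀ f g, f i₀ = g i₀ → s (vx f) = s (vx g) := by
    intro f g hfg
    refine s_const c h hF f g fun i hi f' => ?_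
    have : i ≠ i₀ := by rintro rfl; exact hi hfg
    by_contra hne'
    exact huniq i this _ ((hstep f' i).mp hne')
  have hon : ∀ f g, f i₀ ≠ g i₀ → s (vx f) ≠ s (vx g) := by
    intro f g hfg
    have h1 : s (vx (flip f i₀)) = s (vx g) := by
      apply hoff
      rw [flip_same]
      cases h1 : f i₀ <;> cases h2 : g i₀ <;> simp_all
    rw [← h1]
    exact (hstep f i₀).mpr (hi₀ f)
  obtain ⟨b₁, hb₁⟩ : ∃ b₁ : Bool, ∀ f, f i₀ = b₁ → s (vx f) = b := by
    by_cases h1 : s (vx fun _ => false) = b
    · exact ⟨false, fun f hf => by rw [← h1]; exact hoff _ _ hf⟩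
    · refine ⟨true, fun f hf => ?_⟩
      exact bool_aux (hon f (fun _ => false) (by rw [hf]; decide)) h1
  set σ : Fin (fdim F) → Option Bool := fun l => if l = i₀ then some b₁ else none with hσ
  have hfree : free σ = j := by
    unfold free
    have : (Finset.univ.filter fun l => σ l = none) = Finset.univ.erase i₀ := by
      ext l
      by_cases hl : l = i₀ <;> simp [hσ, hl]
    rw [this, Finset.card_erase_of_mem (Finset.mem_univ _), Finset.card_univ, Fintype.card_fin, hj]
    rfl
  have hmemσ : ∀ f, vx f ∈ c.φ σ ↔ f i₀ = b₁ := by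
    intro f
    rw [hvx, c.vx_mem_iff]
    constructor
    · intro h1; exact h1 i₀ b₁ (by simp [hσ])
    · intro h1 l b' hl
      simp only [hσ] at hl
      split_ifs at hl with h2
      rw [h2, h1]
      simpa using hl
  refine ⟨c.φ σ, hF.trans (c.face σ), c.nonempty σ, by rw [c.fdim_eq h hF hFP, hfree],
    (c.face σ).subset, ?_, ?_⟩
  · intro x hx hxσ
    obtain ⟨f, rfl⟩ := c.vx_surj h.poly hF hx ((c.face σ).subset hxσ)
    exact hb₁ f ((hmemσ f).mp hxσ)
  · intro v' hv' hv'σ
    obtain ⟨f, rfl⟩ := c.vx_surj h.poly hF hv' ((c.face σ).subset hv'σ)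
    have hfi := (hmemσ f).mp hv'σ
    have hext := c.ext_edg h.poly hF f i₀
    have hin : vx f ∈ P.extremePoints ℝ ∩ c.edg f i₀ := by rw [hext]; simp [hvx]
    have hin' : vx (flip f i₀) ∈ P.extremePoints ℝ ∩ c.edg f i₀ := by rw [hext]; simp [hvx]
    refine ⟨c.edg f i₀, c.isEdge_edg h.poly hF f i₀, hin.2, hi₀ f, (c.face _).subset, ?_⟩
    intro G hG hσG heG
    have hFG : IsFace F (F ∩ G) := (hF.inter hG).mono hF.subset inter_subset_left
    have hneFG : (F ∩ G).Nonempty := by
      obtain ⟨x, hx⟩ := c.nonempty σ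
      exact ⟨x, (c.face σ).subset hx, hσG hx⟩
    obtain ⟨τ, hτ⟩ := c.surj _ hFG hneFG
    have h1 : c.φ σ ⊆ c.φ τ := by
      rw [← hτ]; exact subset_inter (c.face σ).subset hσG
    rw [c.le_iff] at h1
    have h2 : vx (flip f i₀) ∈ c.φ τ := by
      rw [← hτ]; exact ⟨c.vx_mem_F h.poly hF _, heG hin'.2⟩
    rw [hvx, c.vx_mem_iff] at h2
    have h3 : τ = fun _ => none := by
      funext l
      cases hl : τ l with
      | none => rfl
      | some b' =>
        exfalso
        have h4 := h1 l b' hl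
        simp only [hσ] at h4
        split_ifs at h4 with h5
        subst h5
        have h6 := h2 l b' hl
        rw [flip_same, hfi] at h6
        simp only [Option.some.injEq] at h4
        rw [h4] at h6
        cases b' <;> simp at h6
    rw [h3, c.top hF.1 hne] at hτ
    rw [← hτ]; exact inter_subset_right

end Pool.F620bf
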