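import Pool.Agent.W_f620bf_h49.Faces

/-!
Edges, opposite edges, parallel classes; labelled edges and squares of a proper face.
-/

set_option autoImplicit false
set_option linter.unusedSectionVars false
set_option linter.deprecated false

namespace Pool.F620bf

open Set

variable {E : Type*} [NormedAddCommGroup E] [NormedSpace ℝ E] [FiniteDimensional ℝ E]
  {P F : Set E} {v : E} {k : ℕ}

/-- edges: faces of dimension one -/
def IsEdge (P e : Set E) : Prop := IsFace P e ∧ e.Nonempty ∧ fdim e = 1

/-- opposite edges of a 2-dimensional face: two disjoint edges of a common 2-dimensional face -/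
def Opp (P e e' : Set E) : Prop :=
  IsEdge P e ∧ IsEdge P e' ∧ e ∩ e' = ∅ ∧ ∃ D, IsFace P D ∧ fdim D = 2 ∧ e ⊆ D ∧ e' ⊆ D

/-- parallel edges: the equivalence relation generated by `Opp` -/
def Parallel (P : Set E) : Set E → Set E → Prop := Relation.EqvGen (Opp P)

/-- `u` and `v` are adjacent vertices of `P` -/
def Nb (P : Set E) (v u : E) : Prop :=
  v ∈ P.extremePoints ℝ ∧ u ∈ P.extremePoints ℝ ∧ u ≠ v ∧ IsFace P (segment ℝ v u)

theorem Nb.symm {v u : E} (h : Nb P v u) : Nb P u v :=
  ⟨h.2.1, h.1, h.2.2.1.symm, by rw [segment_symm]; exact h.2.2.2⟩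

theorem fdim_segment {u w : E} (h : u ≠ w) : fdim (segment ℝ u w) = 1 := by
  unfold fdim
  rw [← convexHull_pair, ← direction_affineSpan, affineSpan_convexHull, direction_affineSpan,
    vectorSpan_pair_rev]
  exact finrank_span_singleton (by simpa [vsub_eq_sub, sub_eq_zero] using h.symm)

theorem Nb.isEdge {u w : E} (h : Nb P u w) : IsEdge P (segment ℝ u w) :=
  ⟨h.2.2.2, ⟨u, left_mem_segment ℝ u w⟩, fdim_segment h.2.2.1.symm⟩

/-- flip one coordinate -/
def flip (f : Fin k → Bool) (i : Fin k) : Fin k → Bool := Function.update f i (!(f i))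

theorem flip_same (f : Fin k → Bool) (i : Fin k) : flip f i i = !(f i) := by simp [flip]

theorem flip_ne (f : Fin k → Bool) {i j : Fin k} (h : j ≠ i) : flip f i j = f j := by
  simp [flip, h]

theorem flip_flip (f : Fin k → Bool) (i : Fin k) : flip (flip f i) i = f := by
  funext j
  by_cases h : j = i
  · subst h; rw [flip_same, flip_same]; simp
  · rw [flip_ne _ h, flip_ne _ h]

theorem flip_comm (f : Fin k → Bool) {i j : Fin k} (h : i ≠ j) :
    flip (flip f i) j = flip (flip f j) i := by
  funext l
  by_cases h1 : l = i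
  · subst h1
    rw [flip_ne _ h, flip_same, flip_same, flip_ne _ h]
  · by_cases h2 : l = j
    · subst h2
      rw [flip_same, flip_ne _ h1, flip_ne _ h1, flip_same]
    · rw [flip_ne _ h2, flip_ne _ h1, flip_ne _ h1, flip_ne _ h2]

theorem flip_ne_self (f : Fin k → Bool) (i : Fin k) : flip f i ≠ f := by
  intro h
  have := congrFun h i
  rw [flip_same] at this
  cases hf : f i <;> rw [hf] at this <;> simp at this

/-- label of the edge at `f` in direction `i` -/
def lab1 (f : Fin k → Bool) (i : Fin k) : Fin k → Option Bool :=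
  fun j => if j = i then none else some (f j)

/-- label of the square at `f` in directions `i, j` -/
def lab2 (f : Fin k → Bool) (i j : Fin k) : Fin k → Option Bool :=
  fun l => if l = i ∨ l = j then none else some (f l)

theorem free_lab1 (f : Fin k → Bool) (i : Fin k) : free (lab1 f i) = 1 := by
  unfold free lab1
  have : (Finset.univ.filter fun j => (if j = i then none else some (f j)) = (none : Option Bool)) =
      {i} := by
    ext j; by_cases h : j = i <;> simp [h]
  rw [this]; simp

theorem free_lab2 (f : Fin k → Bool) {i j : Fin k} (h : i ≠ j) : free (lab2 f i j) = 2 := by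
  unfold free lab2
  have : (Finset.univ.filter fun l => (if l = i ∨ l = j then none else some (f l)) =
      (none : Option Bool)) = {i, j} := by
    ext l; by_cases h : l = i ∨ l = j <;> simp [h] <;> tauto
  rw [this, Finset.card_pair h]

namespace Cubing

variable (c : Cubing F k)

/-- the edge at `f` in direction `i` -/
def edg (f : Fin k → Bool) (i : Fin k) : Set E := c.φ (lab1 f i)

theorem ext_edg (h : Poly P) (hF : IsFace P F) (f : Fin k → Bool) (i : Fin k) :
    P.extremePoints ℝ ∩ c.edg f i = {c.vx h hF f, c.vx h hF (flip f i)} := by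
  unfold edg
  rw [c.ext_eq h hF]
  ext w
  constructor
  · rintro ⟨g, hg, rfl⟩
    have hg' : ∀ j, j ≠ i → g j = f j := fun j hj => hg j (f j) (by simp [lab1, hj])
    by_cases hgi : g i = f i
    · left
      congr 1
      funext j
      by_cases hj : j = i
      · rw [hj, hgi]
      · exact hg' j hj
    · right
      rw [mem_singleton_iff]
      congr 1
      funext j
      by_cases hj : j = i
      · subst hj; rw [flip_same]
        cases h1 : g j <;> cases h2 : f j <;> simp_all
      · rw [flip_ne _ hj]; exact hg' j hj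
  · rintro (rfl | rfl)
    · refine ⟨f, fun j b hb => ?_, rfl⟩
      unfold lab1 at hb
      split_ifs at hb with h1
      simpa using hb
    · refine ⟨flip f i, fun j b hb => ?_, rfl⟩
      unfold lab1 at hb
      split_ifs at hb with h1
      rw [flip_ne _ h1]
      simpa using hb

theorem edg_eq (h : Poly P) (hF : IsFace P F) (f : Fin k → Bool) (i : Fin k) :
    c.edg f i = segment ℝ (c.vx h hF f) (c.vx h hF (flip f i)) := by
  have h1 := (hF.trans (c.face (lab1 f i))).eq_hull h
  rw [show c.φ (lab1 f i) = c.edg f i from rfl, c.ext_edg h hF, convexHull_pair] at h1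
  exact h1

theorem nb (h : Poly P) (hF : IsFace P F) (f : Fin k → Bool) (i : Fin k) :
    Nb P (c.vx h hF f) (c.vx h hF (flip f i)) := by
  refine ⟨c.vx_mem h hF f, c.vx_mem h hF _, ?_, ?_⟩
  · intro he
    exact flip_ne_self f i (c.vx_inj h hF he)
  · rw [← c.edg_eq h hF]
    exact hF.trans (c.face _)

theorem isEdge_edg (h : Poly P) (hF : IsFace P F) (f : Fin k → Bool) (i : Fin k) :
    IsEdge P (c.edg f i) := by
  rw [c.edg_eq h hF]; exact (c.nb h hF f i).isEdge

theorem edg_congr {f g : Fin k → Bool} {i : Fin k} (hfg : ∀ j, j ≠ i → f j = g j) :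
    c.edg f i = c.edg g i := by
  unfold edg
  congr 1
  funext j
  unfold lab1
  split_ifs with h1
  · rfl
  · rw [hfg j h1]

theorem opp (h : IsCubical P) (hF : IsFace P F) (hP : F ≠ P) (f : Fin k → Bool) {i j : Fin k}
    (hij : i ≠ j) : Opp P (c.edg f i) (c.edg (flip f j) i) := by
  refine ⟨c.isEdge_edg h.poly hF f i, c.isEdge_edg h.poly hF _ i, ?_, c.φ (lab2 f i j),
    hF.trans (c.face _), ?_, ?_, ?_⟩
  · by_contra hne
    have hne' : (c.edg f i ∩ c.edg (flip f j) i).Nonempty := nonempty_iff_ne_empty.mpr hne
    obtain ⟨w, hw, hw1, hw2⟩ := ((hF.trans (c.face (lab1 f i))).inter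
      (hF.trans (c.face (lab1 (flip f j) i)))).exists_ext h.poly hne'
    obtain ⟨g, rfl⟩ := c.vx_surj h.poly hF hw ((c.face _).subset hw1)
    rw [c.vx_mem_iff] at hw1 hw2
    have e1 := hw1 j (f j) (by simp [lab1, hij.symm])
    have e2 := hw2 j (flip f j j) (by simp [lab1, hij.symm])
    rw [e1, flip_same] at e2
    cases hf : f j <;> rw [hf] at e2 <;> simp at e2
  · rw [c.fdim_eq h hF hP, free_lab2 f hij]
  · unfold edg
    rw [c.le_iff]
    intro l b hl
    unfold lab2 at hl
    split_ifs at hl with h1
    push Not at h1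
    simp only [lab1, h1.1, if_false]
    exact hl
  · unfold edg
    rw [c.le_iff]
    intro l b hl
    unfold lab2 at hl
    split_ifs at hl with h1
    push Not at h1
    simp only [lab1, h1.1, if_false]
    rw [flip_ne _ h1.2]
    exact hl

/-- all edges of a proper face in one direction are parallel -/
theorem parallel_dir (h : IsCubical P) (hF : IsFace P F) (hP : F ≠ P) (f g : Fin k → Bool)
    (i : Fin k) : Parallel P (c.edg f i) (c.edg g i) := by
  classical
  have key : ∀ s : Finset (Fin k), Parallel P (c.edg f i) (c.edg (s.piecewise g f) i) := by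
    intro s
    induction s using Finset.induction_on with
    | empty => rw [Finset.piecewise_empty]; exact Relation.EqvGen.refl _
    | insert j s hj ih =>
      refine Relation.EqvGen.trans _ _ _ ih ?_
      rw [Finset.piecewise_insert]
      by_cases hji : j = i
      · rw [c.edg_congr (g := Function.update (s.piecewise g f) j (g j)) (fun l hl => by
          rw [Function.update_of_ne (by rw [hji]; exact hl)])]
        exact Relation.EqvGen.refl _
      · by_cases hgf : g j = s.piecewise g f j
        · rw [hgf, Function.update_eq_self]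
          exact Relation.EqvGen.refl _
        · have : Function.update (s.piecewise g f) j (g j) = flip (s.piecewise g f) j := by
            unfold flip
            congr 1
            cases h1 : g j <;> cases h2 : s.piecewise g f j <;> simp_all
          rw [this]
          exact Relation.EqvGen.rel _ _ (c.opp h hF hP _ (Ne.symm hji))
  have := key Finset.univ
  rwa [Finset.piecewise_univ] at this

/-- edges of `P` inside a proper face -/
theorem exists_label (h : IsCubical P) (hF : IsFace P F) (hP : F ≠ P) {v u : E} (hn : Nb P v u)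
    (hv : v ∈ F) (hu : u ∈ F) :
    ∃ (f : Fin k → Bool) (i : Fin k), c.vx h.poly hF f = v ∧ c.vx h.poly hF (flip f i) = u := by
  obtain ⟨f, hf⟩ := c.vx_surj h.poly hF hn.1 hv
  obtain ⟨g, hg⟩ := c.vx_surj h.poly hF hn.2.1 hu
  have hseg : IsFace F (segment ℝ v u) := hn.2.2.2.mono hF.subset (hF.1.segment_subset hv hu)
  obtain ⟨σ, hσ⟩ := c.surj _ hseg ⟨v, left_mem_segment ℝ v u⟩
  have h1 : free σ = 1 := by
    rw [← c.fdim_eq h hF hP σ, ← hσ]
    exact fdim_segment hn.2.2.1.symm
  unfold free at h1
  rw [Finset.card_eq_one] at h1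
  obtain ⟨i, hi⟩ := h1
  have hi' : ∀ j, σ j = none ↔ j = i := by
    intro j
    have := Finset.ext_iff.mp hi j
    simpa using this
  have hfσ : ∀ j b, σ j = some b → f j = b := by
    rw [← c.vx_mem_iff h.poly hF, hf, ← hσ]; exact left_mem_segment ℝ v u
  have hgσ : ∀ j b, σ j = some b → g j = b := by
    rw [← c.vx_mem_iff h.poly hF, hg, ← hσ]; exact right_mem_segment ℝ v u
  refine ⟨f, i, hf, ?_⟩
  rw [← hg]
  congr 1
  funext j
  by_cases hj : j = i
  · subst hj
    rw [flip_same]
    have hne : g j ≠ f j := by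
      intro he
      apply hn.2.2.1
      rw [← hf, ← hg]
      congr 1
      funext l
      by_cases hl : l = j
      · rw [hl, he]
      · have : σ l ≠ none := fun h => hl ((hi' l).mp h)
        obtain ⟨b, hb⟩ := Option.ne_none_iff_exists'.mp this
        rw [hfσ l b hb, hgσ l b hb]
    cases h1 : g j <;> cases h2 : f j <;> simp_all
  · rw [flip_ne _ hj]
    have : σ j ≠ none := fun h => hj ((hi' j).mp h)
    obtain ⟨b, hb⟩ := Option.ne_none_iff_exists'.mp this
    rw [hfσ j b hb, hgσ j b hb]

end Cubing

/-- square lemma -/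
theorem exists_square (h : IsCubical P) {D : Set E} (hD : IsFace P D) (hDP : D ≠ P) {v u u' : E}
    (hn : Nb P v u) (hn' : Nb P v u') (huu : u ≠ u') (hv : v ∈ D) (hu : u ∈ D) (hu' : u' ∈ D) :
    ∃ x ∈ D, x ≠ v ∧ Nb P u x ∧ Nb P u' x ∧ Opp P (segment ℝ v u) (segment ℝ u' x) ∧
      Opp P (segment ℝ v u') (segment ℝ u x) := by
  obtain ⟨c⟩ := h.cubing hD ⟨v, hv⟩ hDP
  obtain ⟨f, i, hf, hi⟩ := c.exists_label h hD hDP hn hv hu
  obtain ⟨f', j, hf', hj⟩ := c.exists_label h hD hDP hn' hv hu'
  have hff : f' = f := c.vx_inj h.poly hD (by rw [hf, hf'])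
  subst hff
  have hij : i ≠ j := by
    rintro rfl
    exact huu (by rw [← hi, ← hj])
  refine ⟨c.vx h.poly hD (flip (flip f' i) j), c.vx_mem_F h.poly hD _, ?_, ?_, ?_, ?_, ?_⟩
  · rw [← hf]
    intro he
    have h1 := c.vx_inj h.poly hD he
    have h2 := congrFun h1 i
    rw [flip_ne _ hij, flip_same] at h2
    cases hfi : f' i <;> rw [hfi] at h2 <;> simp at h2
  · rw [← hi]; exact c.nb h.poly hD _ _
  · rw [← hj, flip_comm _ hij]; exact c.nb h.poly hD _ _
  · have := c.opp h hD hDP f' hij
    rw [c.edg_eq h.poly hD, c.edg_eq h.poly hD, hf, hi, hj] at this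
    rwa [flip_comm _ hij]
  · have := c.opp h hD hDP f' hij.symm
    rwa [c.edg_eq h.poly hD, c.edg_eq h.poly hD, hf, hi, hj] at this

end Pool.F620bf
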