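import Pool.Agent.W_f620bf_h49.Fig
import Pool.Agent.W_f620bf_h49.Lab

/-!
Connectivity of the lower link of a vertex through 2-dimensional faces.
-/

set_option autoImplicit false
set_option linter.unusedSectionVars false
set_option linter.deprecated false

namespace Pool.F620bf

open Set

variable {E : Type*} [NormedAddCommGroup E] [NormedSpace ℝ E] [FiniteDimensional ℝ E]
  {P F : Set E} {v : E}

namespace Fig

variable (c : Fig P v)

theorem r_mem_ext (h : Poly P) {u : E} (hu : Nb P v u) : c.r u ∈ c.Q.extremePoints ℝ := by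
  obtain ⟨hv, hu, huv, hface⟩ := hu
  have hhu : c.ε < c.ht u := c.lt u hu huv
  have hhu0 : 0 < c.ht u := c.pos.trans hhu
  have h1 := c.isFace_section hface
  have h2 : segment ℝ v u ∩ c.Q = {c.r u} := by
    ext x
    constructor
    · rintro ⟨⟨a, b, ha, hb, hab, rfl⟩, hxQ⟩
      have ea : a = 1 - b := by linarith
      have hht : c.ht (a • v + b • u) = b * c.ht u := by
        unfold ht
        simp only [map_add, map_smul, smul_eq_mul, ea]; ring
      have h3 := hxQ.2
      rw [hht] at h3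
      have hb' : b = c.ε / c.ht u := by field_simp; linarith
      rw [mem_singleton_iff]
      unfold r
      rw [← hb', ea, sub_smul, one_smul, smul_sub]; abel
    · rintro rfl
      refine ⟨?_, c.r_mem h hv hu.1 huv⟩
      have h3 : c.ε / c.ht u ≤ 1 := (div_le_one hhu0).mpr hhu.le
      refine ⟨1 - c.ε / c.ht u, c.ε / c.ht u, by linarith, div_nonneg c.pos.le hhu0.le, by ring, ?_⟩
      unfold r
      rw [sub_smul, one_smul, smul_sub]; abel
  rw [h2] at h1
  exact isFace_singleton.mp h1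

theorem span_G (h : Poly P) (hv : v ∈ P.extremePoints ℝ) {q q' : E} (hq : q ∈ c.Q)
    (hq' : q' ∈ c.Q) :
    vectorSpan ℝ (c.G (segment ℝ q q')) = Submodule.span ℝ {q - v, q' - v} := by
  have hvG : v ∈ c.G (segment ℝ q q') := ⟨hv.1, Or.inl rfl⟩
  have hqG : q ∈ c.G (segment ℝ q q') :=
    ⟨hq.1, Or.inr (by rw [c.r_eq_of_mem hq]; exact left_mem_segment ℝ q q')⟩
  have hqG' : q' ∈ c.G (segment ℝ q q') :=
    ⟨hq'.1, Or.inr (by rw [c.r_eq_of_mem hq']; exact right_mem_segment ℝ q q')⟩
  apply le_antisymm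
  · rw [vectorSpan_def, Submodule.span_le]
    have key : ∀ p ∈ c.G (segment ℝ q q'), p - v ∈ Submodule.span ℝ {q - v, q' - v} := by
      rintro p ⟨hpP, hp⟩
      by_cases hpv : p = v
      · rw [hpv, sub_self]; exact Submodule.zero_mem _
      obtain ⟨a, b, ha, hb, hab, hr⟩ := hp.resolve_left hpv
      have hpos := c.ht_pos h hv hpP hpv
      have h1 : (c.ε / c.ht p) • (p - v) = a • (q - v) + b • (q' - v) := by
        rw [← c.r_sub, ← hr]
        have ea : a = 1 - b := by linarith
        rw [ea, smul_sub, smul_sub, sub_smul, sub_smul, one_smul, one_smul]; abel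
      have h2 : p - v = (c.ht p / c.ε) • (a • (q - v) + b • (q' - v)) := by
        rw [← h1, smul_smul]
        have e1 : c.ht p / c.ε * (c.ε / c.ht p) = 1 := by
          have := c.pos.ne'; field_simp
        rw [e1, one_smul]
      rw [h2]
      apply Submodule.smul_mem
      apply Submodule.add_mem
      · exact Submodule.smul_mem _ _ (Submodule.subset_span (by simp))
      · exact Submodule.smul_mem _ _ (Submodule.subset_span (by simp))
    rintro _ ⟨x, hx, y, hy, rfl⟩
    have := Submodule.sub_mem _ (key x hx) (key y hy)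
    rwa [sub_sub_sub_cancel_right] at this
  · rw [Submodule.span_le]
    rintro w (rfl | rfl)
    · exact vsub_mem_vectorSpan ℝ hqG hvG
    · exact vsub_mem_vectorSpan ℝ hqG' hvG

theorem fdim_G (h : Poly P) (hv : v ∈ P.extremePoints ℝ) {q q' : E} (hq : q ∈ c.Q)
    (hq' : q' ∈ c.Q) (hne : q ≠ q') : fdim (c.G (segment ℝ q q')) = 2 := by
  unfold fdim
  rw [c.span_G h hv hq hq']
  have hli : LinearIndependent ℝ ![q - v, q' - v] := by
    rw [LinearIndependent.pair_iff]
    intro a b hab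
    have h1 := congrArg c.g hab
    simp only [map_add, map_smul, map_sub, smul_eq_mul, map_zero] at h1
    have h2 : c.g q - c.g v = c.ε := hq.2
    have h3 : c.g q' - c.g v = c.ε := hq'.2
    rw [h2, h3] at h1
    have h4 : b = -a := by
      have : (a + b) * c.ε = 0 := by linarith
      rcases mul_eq_zero.mp this with h5 | h5
      · linarith
      · exact absurd h5 c.pos.ne'
    rw [h4] at hab
    have h5 : a • (q - q') = 0 := by
      rw [← hab, neg_smul, smul_sub, smul_sub, smul_sub]; abel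
    rcases smul_eq_zero.mp h5 with h6 | h6
    · exact ⟨h6, by rw [h4, h6, neg_zero]⟩
    · exact absurd (sub_eq_zero.mp h6) hne
  have h1 := finrank_span_eq_card hli
  have e : (range ![q - v, q' - v] : Set E) = {q - v, q' - v} := by
    rw [Matrix.range_cons, Matrix.range_cons, Matrix.range_empty, union_empty]; rfl
  rw [e] at h1
  rw [h1]; simp

theorem lower_G (h : Poly P) (hv : v ∈ P.extremePoints ℝ) {q q' : E} (l : E →L[ℝ] ℝ)
    (hlq : l q < l v) (hlq' : l q' < l v) {x : E} (hx : x ∈ c.G (segment ℝ q q')) (hxv : x ≠ v) :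
    l x < l v := by
  have h1 := hx.2.resolve_left hxv
  have h2 : l (c.r x) < l v := by
    have : segment ℝ q q' ⊆ {y | l y < l v} :=
      (convex_halfSpace_lt l.isLinear _).segment_subset hlq hlq'
    exact this h1
  exact (c.l_r_lt l (c.ht_pos h hv hx.1 hxv)).mp h2

/-- A function on the lower neighbours of `v` that has equal values at two lower neighbours in a
common 2-face is constant. -/
theorem link_connected (h : Poly P) (hv : v ∈ P.extremePoints ℝ) (l : E →L[ℝ] ℝ)
    (hinj : ∀ q ∈ c.Q.extremePoints ℝ, ∀ q' ∈ c.Q.extremePoints ℝ, l q = l q' → q = q')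
    {α : Type*} (val : E → α)
    (hval : ∀ u u', Nb P v u → Nb P v u' → u ≠ u' → l u < l v → l u' < l v →
      (∃ D, IsFace P D ∧ fdim D = 2 ∧ v ∈ D ∧ u ∈ D ∧ u' ∈ D ∧ ∀ x ∈ D, x ≠ v → l x < l v) →
      val u = val u') :
    ∀ u u', Nb P v u → Nb P v u' → l u < l v → l u' < l v → val u = val u' := by
  intro u0 u1 hu0 hu1 hl0 hl1
  have hfin := c.finite_ext_Q h hv
  have hne : (c.Q.extremePoints ℝ).Nonempty := ⟨_, c.r_mem_ext h hu0⟩
  obtain ⟨m, hm, hmin⟩ := exists_min_image _ l hfin hne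
  obtain ⟨um, hum, humv, hrm, hfm⟩ := c.exists_edge h hv hm
  have key : ∀ n : ℕ, ∀ q ∈ c.Q.extremePoints ℝ, l q < l v →
      {x | x ∈ c.Q.extremePoints ℝ ∧ l x < l q}.ncard = n → ∀ u, Nb P v u → c.r u = q →
      val u = val um := by
    intro n
    induction n using Nat.strong_induction_on with
    | _ n ih =>
      intro q hq hlq hn u hu hru
      by_cases hqm : q = m
      · have : u = um := c.eq_of_r_eq h hv hu.2.1 hu.2.2.1 hum humv (by rw [hru, hrm, hqm])
        rw [this]
      have hlt : l m < l q := lt_of_le_of_ne (hmin q hq) (fun he => hqm (hinj m hm q hq he).symm)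
      obtain ⟨q', hq', hqq', hface, hlq'⟩ := exists_lower (c.poly_Q h hv) hq l hm.1 hlt
      obtain ⟨u', hu', hu'v, hr', hf'⟩ := c.exists_edge h hv hq'
      have hNb' : Nb P v u' := ⟨hv, hu', hu'v, hf'⟩
      have hlu : l u < l v := by
        rw [← hru] at hlq
        exact (c.l_r_lt l (c.ht_pos h hv hu.2.1.1 hu.2.2.1)).mp hlq
      have hlu' : l u' < l v := by
        rw [← hr'] at hlq'
        exact (c.l_r_lt l (c.ht_pos h hv hu'.1 hu'v)).mp (hlq'.trans hlq)
      have hne' : u ≠ u' := by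
        rintro rfl
        exact hqq' (by rw [← hru, ← hr'])
      have h1 : val u = val u' := by
        refine hval u u' hu hNb' hne' hlu hlu' ⟨c.G (segment ℝ q q'), c.isFace_G h hv hface,
          c.fdim_G h hv hq.1 hq'.1 (Ne.symm hqq'), ⟨hv.1, Or.inl rfl⟩,
          ⟨hu.2.1.1, Or.inr ?_⟩, ⟨hu'.1, Or.inr ?_⟩, fun x hx hxv => ?_⟩
        · rw [hru]; exact left_mem_segment ℝ q q'
        · rw [hr']; exact right_mem_segment ℝ q q'
        · exact c.lower_G h hv l hlq (hlq'.trans hlq) hx hxv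
      rw [h1]
      refine ih _ ?_ q' hq' (hlq'.trans hlq) rfl u' hNb' hr'
      rw [← hn]
      apply Set.ncard_lt_ncard
      · refine ⟨fun x hx => ⟨hx.1, hx.2.trans hlq'⟩, fun hsub => ?_⟩
        have := hsub (show q' ∈ {x | x ∈ c.Q.extremePoints ℝ ∧ l x < l q} from ⟨hq', hlq'⟩)
        exact lt_irrefl _ this.2
      · exact hfin.subset fun x hx => hx.1
  have e0 := key _ _ (c.r_mem_ext h hu0)
    ((c.l_r_lt l (c.ht_pos h hv hu0.2.1.1 hu0.2.2.1)).mpr hl0) rfl u0 hu0 rfl
  have e1 := key _ _ (c.r_mem_ext h hu1)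
    ((c.l_r_lt l (c.ht_pos h hv hu1.2.1.1 hu1.2.2.1)).mpr hl1) rfl u1 hu1 rfl
  rw [e0, e1]

end Fig

/-- A generic linear functional. -/
theorem exists_generic (h : Poly P) :
    ∃ (c : ∀ v : P.extremePoints ℝ, Fig P v.1) (l : E →L[ℝ] ℝ),
      (∀ u ∈ P.extremePoints ℝ, ∀ w ∈ P.extremePoints ℝ, l u = l w → u = w) ∧
      ∀ v : P.extremePoints ℝ, ∀ q ∈ (c v).Q.extremePoints ℝ, ∀ q' ∈ (c v).Q.extremePoints ℝ,
        l q = l q' → q = q' := by
  classical
  have hc : ∀ v : P.extremePoints ℝ, Nonempty (Fig P v.1) := fun v => exists_fig h v.2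
  let c : ∀ v : P.extremePoints ℝ, Fig P v.1 := fun v => (hc v).some
  have hfin := h.finite_ext
  have : Finite (P.extremePoints ℝ) := hfin.to_subtype
  let Z : Set E := ((fun p : E × E => p.1 - p.2) '' (P.extremePoints ℝ ×ˢ P.extremePoints ℝ)) ∪
    ⋃ v : P.extremePoints ℝ,
      ((fun p : E × E => p.1 - p.2) '' ((c v).Q.extremePoints ℝ ×ˢ (c v).Q.extremePoints ℝ))
  have hZ : Z.Finite := by
    apply Set.Finite.union
    · exact (hfin.prod hfin).image _
    · apply Set.finite_iUnion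
      intro v
      exact (((c v).finite_ext_Q h v.2).prod ((c v).finite_ext_Q h v.2)).image _
  have hZ' : Finite {z : E // z ∈ Z ∧ z ≠ 0} := (hZ.subset (fun z hz => hz.1) : {z : E | z ∈ Z ∧ z ≠ 0}.Finite).to_subtype
  obtain ⟨f, hf⟩ := Module.exists_dual_forall_apply_ne_zero (K := ℝ)
    (fun z : {z : E // z ∈ Z ∧ z ≠ 0} => z.1) (fun z => z.2.2)
  refine ⟨c, LinearMap.toContinuousLinearMap f, ?_, ?_⟩
  · intro u hu w hw huw
    by_contra hne
    refine hf ⟨u - w, ⟨Or.inl ⟨(u, w), ⟨hu, hw⟩, rfl⟩, sub_ne_zero.mpr hne⟩⟩ ?_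
    simp only [map_sub]
    exact sub_eq_zero.mpr huw
  · intro v u hu w hw huw
    by_contra hne
    refine hf ⟨u - w, ⟨Or.inr (mem_iUnion.mpr ⟨v, ⟨(u, w), ⟨hu, hw⟩, rfl⟩⟩), sub_ne_zero.mpr hne⟩⟩ ?_
    simp only [map_sub]
    exact sub_eq_zero.mpr huw

end Pool.F620bf
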