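import Pool.Agent.W_f620bf_h49.Four

/-!
The star of a vertex and the two colour classes of vertices.
-/

set_option autoImplicit false
set_option linter.unusedSectionVars false
set_option linter.deprecated false

namespace Pool.F620bf

open Set

variable {E : Type*} [NormedAddCommGroup E] [NormedSpace ℝ E] [FiniteDimensional ℝ E]
  {P F : Set E} {v : E} {k : ℕ}

/-- colours of two vertices of a cube -/
theorem s_parity (c : Cubing F k) (h : IsCubical P) (hF : IsFace P F)
    {s : E → Bool} (hs : ∀ u w, Nb P u w → s u ≠ s w) (f g : Fin k → Bool) :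
    (s (c.vx h.poly hF f) = s (c.vx h.poly hF g) ↔
      Even (Finset.univ.filter fun i => f i ≠ g i).card) := by
  classical
  have key : ∀ t : Finset (Fin k), t ⊆ (Finset.univ.filter fun i => f i ≠ g i) →
      (s (c.vx h.poly hF f) = s (c.vx h.poly hF (t.piecewise g f)) ↔ Even t.card) := by
    intro t
    induction t using Finset.induction_on with
    | empty => intro _; rw [Finset.piecewise_empty]; simp
    | insert j t hj ih =>
      intro hsub
      have h1 := ih (fun i hi => hsub (Finset.mem_insert_of_mem hi))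
      have h2 : f j ≠ g j := by
        have := hsub (Finset.mem_insert_self j t)
        rw [Finset.mem_filter] at this
        exact this.2
      have hfj : t.piecewise g f j = f j := Finset.piecewise_eq_of_notMem _ _ _ hj
      have h3 : (insert j t).piecewise g f = flip (t.piecewise g f) j := by
        rw [Finset.piecewise_insert]
        unfold flip
        congr 1
        rw [hfj]
        cases h4 : g j <;> cases h5 : f j <;> simp_all
      rw [h3, Finset.card_insert_of_notMem hj, Nat.even_add_one, ← h1]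
      have h4 := hs _ _ (c.nb h.poly hF (t.piecewise g f) j)
      generalize s (c.vx h.poly hF f) = a at *
      generalize s (c.vx h.poly hF (t.piecewise g f)) = b at *
      generalize s (c.vx h.poly hF (flip (t.piecewise g f) j)) = d at *
      cases a <;> cases b <;> cases d <;> simp_all
  have h1 := key _ Subset.rfl
  have h2 : (Finset.univ.filter fun i => f i ≠ g i).piecewise g f = g := by
    funext i
    by_cases hi : f i ≠ g i
    · rw [Finset.piecewise_eq_of_mem]
      rw [Finset.mem_filter]
      exact ⟨Finset.mem_univ i, hi⟩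
    · rw [Finset.piecewise_eq_of_notMem]
      · push Not at hi; exact hi
      · rw [Finset.mem_filter]
        exact fun h => hi h.2
  rwa [h2] at h1

theorem exists_antipode_col (h : IsCubical P) {s : E → Bool} (hs : ∀ u w, Nb P u w → s u ≠ s w)
    (hF : IsFace P F) (hP : F ≠ P) {v : E}
    (hv : v ∈ P.extremePoints ℝ) (hvF : v ∈ F) :
    ∃ a ∈ P.extremePoints ℝ, a ∈ F ∧ (∀ G, IsFace P G → v ∈ G → a ∈ G → F ⊆ G) ∧
      (s v = s a ↔ Even (fdim F)) := by
  obtain ⟨c⟩ := h.cubing hF ⟨v, hvF⟩ hP
  obtain ⟨f, hf⟩ := c.vx_surj h.poly hF hv hvF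
  refine ⟨c.vx h.poly hF (fun i => !(f i)), c.vx_mem h.poly hF _, c.vx_mem_F h.poly hF _,
    fun G hG hvG haG => ?_, ?_⟩
  · have hFG : IsFace F (F ∩ G) := (hF.inter hG).mono hF.subset inter_subset_left
    obtain ⟨σ, hσ⟩ := c.surj _ hFG ⟨v, hvF, hvG⟩
    have h1 : c.vx h.poly hF f ∈ c.φ σ := by rw [← hσ, hf]; exact ⟨hvF, hvG⟩
    have h2 : c.vx h.poly hF (fun i => !(f i)) ∈ c.φ σ := by
      rw [← hσ]; exact ⟨c.vx_mem_F h.poly hF _, haG⟩
    rw [c.vx_mem_iff] at h1 h2
    have h3 : σ = fun _ => none := by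
      funext i
      cases hi : σ i with
      | none => rfl
      | some b =>
        have e1 := h1 i b hi
        have e2 := h2 i b hi
        rw [← e1] at e2
        cases hfi : f i <;> rw [hfi] at e2 <;> simp at e2
    rw [h3, c.top hF.1 ⟨v, hvF⟩] at hσ
    rw [← hσ]; exact inter_subset_right
  · have h1 := s_parity c h hF hs f (fun i => !(f i))
    rw [hf] at h1
    rw [h1]
    have h2 : (Finset.univ.filter fun i => f i ≠ !(f i)) = Finset.univ := by
      ext i
      cases f i <;> simp
    rw [h2, Finset.card_univ, Fintype.card_fin]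

/-- the proper faces at `v` of even (odd) dimension inject into the vertices with the colour of `v`
(the other colour) -/
theorem star_col (h : IsCubical P) {s : E → Bool} (hs : ∀ u w, Nb P u w → s u ≠ s w)
    (hv : v ∈ P.extremePoints ℝ) (b : Bool) :
    ∑ j ∈ (Finset.range (fdim P)).filter (fun j => (Even j ↔ s v = b)), (fAt P v j).ncard ≤
      {w | w ∈ P.extremePoints ℝ ∧ s w = b}.ncard := by
  classical
  have hfin : {F | IsFace P F ∧ v ∈ F ∧ fdim F < fdim P ∧ (Even (fdim F) ↔ s v = b)}.Finite :=
    (finite_faces h.poly).subset fun F hF => hF.1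
  have h1 : ∑ j ∈ (Finset.range (fdim P)).filter (fun j => (Even j ↔ s v = b)),
      (fAt P v j).ncard =
      {F | IsFace P F ∧ v ∈ F ∧ fdim F < fdim P ∧ (Even (fdim F) ↔ s v = b)}.ncard := by
    rw [Set.ncard_eq_toFinset_card _ hfin]
    rw [Finset.card_eq_sum_card_fiberwise (f := fun F => fdim F)
      (t := (Finset.range (fdim P)).filter (fun j => (Even j ↔ s v = b)))
      (fun F hF => by
        rw [Finset.mem_coe, Set.Finite.mem_toFinset] at hF
        rw [Finset.mem_coe, Finset.mem_filter]
        exact ⟨Finset.mem_range.mpr hF.2.2.1, hF.2.2.2⟩)]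
    refine Finset.sum_congr rfl fun j hj => ?_
    rw [Finset.mem_filter] at hj
    rw [← Set.ncard_coe_finset]
    congr 1
    ext F
    simp only [Finset.coe_filter, Set.Finite.mem_toFinset, mem_setOf_eq, fAt]
    constructor
    · rintro ⟨a, b, c⟩
      exact ⟨⟨a, b, by rw [c]; exact Finset.mem_range.mp hj.1, by rw [c]; exact hj.2⟩, c⟩
    · rintro ⟨⟨a, b, _⟩, c⟩; exact ⟨a, b, c⟩
  rw [h1]
  have hex : ∀ F ∈ {F | IsFace P F ∧ v ∈ F ∧ fdim F < fdim P ∧ (Even (fdim F) ↔ s v = b)},
      ∃ a ∈ P.extremePoints ℝ, a ∈ F ∧ (∀ G, IsFace P G → v ∈ G → a ∈ G → F ⊆ G) ∧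
        (s v = s a ↔ Even (fdim F)) :=
    fun F hF => exists_antipode_col h hs hF.1
      (by rintro rfl; exact lt_irrefl _ hF.2.2.1) hv hF.2.1
  choose! a ha1 ha2 ha3 ha4 using hex
  refine Set.ncard_le_ncard_of_injOn a (fun F hF => ⟨ha1 F hF, ?_⟩) ?_
    (h.poly.finite_ext.subset fun w hw => hw.1)
  · have h2 := ha4 F hF
    have h3 := hF.2.2.2
    generalize s (a F) = x at *
    generalize s v = y at *
    cases x <;> cases y <;> cases b <;> simp_all
  · intro F hF G hG he
    apply Subset.antisymm
    · exact ha3 F hF G hG.1 hG.2.1 (by rw [he]; exact ha2 G hG)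
    · exact ha3 G hG F hF.1 hF.2.1 (by rw [← he]; exact ha2 F hF)

/-- sum of the face numbers at a vertex of a colour class that is not the larger one -/
theorem exists_class (h : IsCubical P) (hd : 3 ≤ fdim P) :
    ∃ (s : E → Bool) (b : Bool), (∀ u w, Nb P u w → s u ≠ s w) ∧
      2 * {w | w ∈ P.extremePoints ℝ ∧ s w = b}.ncard ≤ (P.extremePoints ℝ).ncard ∧
      ∀ v ∈ P.extremePoints ℝ, s v = b →
        ∑ j ∈ Finset.range (fdim P), (fAt P v j).ncard + 1 ≤
          2 * {w | w ∈ P.extremePoints ℝ ∧ s w = b}.ncard := by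
  classical
  obtain ⟨s, hs⟩ := exists_colouring h hd
  set N : Bool → ℕ := fun b => {w | w ∈ P.extremePoints ℝ ∧ s w = b}.ncard with hN
  have hsum : N true + N false = (P.extremePoints ℝ).ncard := by
    rw [hN]
    simp only
    rw [← Set.ncard_union_eq _ (h.poly.finite_ext.subset fun w hw => hw.1)
      (h.poly.finite_ext.subset fun w hw => hw.1)]
    · congr 1
      ext x
      constructor
      · rintro (hx | hx) <;> exact hx.1
      · intro hx
        cases hsx : s x
        · right; exact ⟨hx, hsx⟩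
        · left; exact ⟨hx, hsx⟩
    · rw [Set.disjoint_left]
      rintro x ⟨_, h1⟩ ⟨_, h2⟩
      rw [h1] at h2; exact absurd h2 (by decide)
  obtain ⟨b, hb⟩ : ∃ b, 2 * N b ≤ (P.extremePoints ℝ).ncard := by
    rcases Nat.le_total (N true) (N false) with hle | hle
    · exact ⟨true, by omega⟩
    · exact ⟨false, by omega⟩
  refine ⟨s, b, hs, hb, fun v hv hsv => ?_⟩
  obtain ⟨n, hn⟩ : ∃ n, fdim P = n + 1 := ⟨fdim P - 1, by omega⟩
  have h1 := euler_at h.poly hv hn
  have h2 := star_col h hs hv b
  have h3 := star_col h hs hv (!b)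
  -- even and odd parts
  set Ev := ∑ j ∈ (Finset.range (fdim P)).filter (fun j => Even j), (fAt P v j).ncard with hEv
  set Od := ∑ j ∈ (Finset.range (fdim P)).filter (fun j => ¬ Even j), (fAt P v j).ncard with hOd
  have h4 : Ev ≤ N b := by
    refine le_trans (le_of_eq ?_) h2
    rw [hEv]
    congr 1
    refine Finset.filter_congr fun j _ => ?_
    simp [hsv]
  have h5 : Od ≤ N (!b) := by
    refine le_trans (le_of_eq ?_) h3
    rw [hOd]
    congr 1
    refine Finset.filter_congr fun j _ => ?_
    rw [hsv]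
    cases b <;> simp
  have h6 : ∑ j ∈ Finset.range (fdim P), (fAt P v j).ncard = Ev + Od :=
    (Finset.sum_filter_add_sum_filter_not _ _ _).symm
  have h7 : ∑ j ∈ Finset.range (fdim P), (-1 : ℤ) ^ j * ((fAt P v j).ncard : ℤ) =
      (Ev : ℤ) - Od := by
    rw [← Finset.sum_filter_add_sum_filter_not _ (fun j => Even j), hEv, hOd, sub_eq_add_neg]
    congr 1
    · push_cast
      refine Finset.sum_congr rfl fun j hj => ?_
      rw [Finset.mem_filter] at hj
      rw [hj.2.neg_one_pow, one_mul]
    · push_cast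
      rw [← Finset.sum_neg_distrib]
      refine Finset.sum_congr rfl fun j hj => ?_
      rw [Finset.mem_filter, Nat.not_even_iff_odd] at hj
      rw [hj.2.neg_one_pow]
      ring
  have h8 : ∑ j ∈ Finset.range (fdim P), (-1 : ℤ) ^ j * ((fAt P v j).ncard : ℤ) = (-1) ^ n := by
    rw [hn, Finset.sum_range_succ', fAt_zero hv]
    have : ∑ j ∈ Finset.range n, (-1 : ℤ) ^ (j + 1) * ((fAt P v (j + 1)).ncard : ℤ) =
        - ∑ j ∈ Finset.range n, (-1 : ℤ) ^ j * ((fAt P v (j + 1)).ncard : ℤ) := by
      rw [← Finset.sum_neg_distrib]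
      refine Finset.sum_congr rfl fun j _ => ?_
      rw [pow_succ]; ring
    rw [this, h1]
    push_cast
    ring
  rw [h6]
  show Ev + Od + 1 ≤ 2 * N b
  rcases Nat.even_or_odd n with hn2 | hn2
  · rw [hn2.neg_one_pow] at h8
    omega
  · rw [hn2.neg_one_pow] at h8
    have h9 := classes_eq h (m := (n + 1) / 2) (by
      rw [Nat.odd_iff] at hn2; omega) (by
      rw [Nat.odd_iff] at hn2; omega) hs
    have h10 : ∀ b, (h.poly.finite_ext.toFinset.filter (fun v => s v = b)).card = N b := by
      intro b
      rw [hN]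
      simp only
      rw [← Set.ncard_coe_finset]
      congr 1
      ext v
      simp only [Finset.coe_filter, Set.Finite.mem_toFinset]
    rw [h10, h10] at h9
    have h11 : N (!b) = N b := by cases b <;> simp [h9]
    omega

end Pool.F620bf
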