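import Pool.Agent.W_f620bf_h49.Sharp

/-!
Upper bounds, sharp for the cube, in all dimensions `d ≥ 3`.
-/

set_option autoImplicit false
set_option linter.unusedSectionVars false
set_option linter.deprecated false

namespace Pool.F620bf

open Set

variable {E : Type*} [NormedAddCommGroup E] [NormedSpace ℝ E] [FiniteDimensional ℝ E]
  {P F : Set E} {v : E} {k : ℕ}

theorem choose_le_at (h : IsCubical P) (hv : v ∈ P.extremePoints ℝ) {j : ℕ} (hj : j < fdim P) :
    (fdim P).choose j ≤ (fAt P v j).ncard := by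
  have := ratio_at h hv (Nat.zero_le j) hj
  rwa [fAt_zero hv, one_mul, Nat.choose_zero_right, mul_one] at this

/-- the data of the smaller colour class: its size `M`, and the bound at its vertices -/
theorem class_data (h : IsCubical P) (hd : 3 ≤ fdim P) :
    ∃ X : Finset E, 2 * X.card ≤ (P.extremePoints ℝ).ncard ∧ X.Nonempty ∧
      (∀ v ∈ X, v ∈ P.extremePoints ℝ) ∧
      (∀ v ∈ X, ∑ j ∈ Finset.range (fdim P), (fAt P v j).ncard + 1 ≤ 2 * X.card) ∧
      ∀ i, i + 1 < fdim P → ∑ v ∈ X, (fAt P v (i + 1)).ncard = 2 ^ i * faceNumber P (i + 1) := by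
  classical
  obtain ⟨s, b, hs, hb, hstar⟩ := exists_class h hd
  have hX : (h.poly.finite_ext.toFinset.filter (fun v => s v = b)).card =
      {w | w ∈ P.extremePoints ℝ ∧ s w = b}.ncard := by
    rw [← Set.ncard_coe_finset]
    congr 1
    ext v
    simp only [Finset.coe_filter, Set.Finite.mem_toFinset]
  refine ⟨h.poly.finite_ext.toFinset.filter (fun v => s v = b), by rw [hX]; exact hb, ?_, ?_, ?_,
    fun i hi => sum_class h s hs b hi⟩
  · have h1 := sum_class h s hs b (i := 0) (by omega)
    have h2 : 0 < faceNumber P 1 := by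
      have hne : P.Nonempty := by
        by_contra hcon
        rw [Set.not_nonempty_iff_eq_empty] at hcon
        subst hcon
        unfold fdim at hd
        rw [vectorSpan_empty, finrank_bot] at hd
        omega
      obtain ⟨v, hv, _⟩ := (IsFace.refl h.poly.convex).exists_ext h.poly hne
      have h3 := choose_le_at h hv (j := 1) (by omega)
      rw [Nat.choose_one_right] at h3
      have h4 : 0 < (fAt P v 1).ncard := by omega
      rw [Set.ncard_pos (fAt_finite h.poly v 1)] at h4
      obtain ⟨e, he⟩ := h4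
      unfold faceNumber
      rw [Set.ncard_pos ((finite_faces h.poly).subset fun F hF => hF.1)]
      exact ⟨e, he.1, ⟨v, he.2.1⟩, he.2.2⟩
    by_contra hcon
    rw [Finset.not_nonempty_iff_eq_empty] at hcon
    rw [hcon, Finset.sum_empty, pow_zero, one_mul, zero_add] at h1
    omega
  · intro v hv
    rw [Finset.mem_filter, Set.Finite.mem_toFinset] at hv
    exact hv.1
  · intro v hv
    rw [Finset.mem_filter, Set.Finite.mem_toFinset] at hv
    rw [hX]
    exact hstar v hv.1 hv.2

theorem sq_aux {x n a C : ℤ} (hC : 0 ≤ C) (h1 : x ≤ n) (h2 : a ≤ x) (h3 : 0 ≤ x) :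
    C * x ^ 2 - C * a * x ≤ C * n ^ 2 - C * a * n := by
  have : 0 ≤ C * ((n - x) * (n + x - a)) :=
    mul_nonneg hC (mul_nonneg (by linarith) (by linarith))
  nlinarith

/-- `∑_{i ≥ 1} 2^i f_i ≤ n (n - 2)`, an equality for the cube -/
theorem total_bound (h : IsCubical P) (hd : 3 ≤ fdim P) :
    ∑ i ∈ Finset.range (fdim P - 1), 2 ^ (i + 1) * faceNumber P (i + 1) +
      2 * (P.extremePoints ℝ).ncard ≤ (P.extremePoints ℝ).ncard ^ 2 := by
  classical
  obtain ⟨X, hX, hne, hXv, hstar, hsum⟩ := class_data h hd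
  obtain ⟨n, hn⟩ : ∃ n, fdim P = n + 1 := ⟨fdim P - 1, by omega⟩
  have h1 := Finset.sum_le_sum hstar
  rw [Finset.sum_add_distrib, Finset.sum_const, Finset.sum_const, smul_eq_mul, smul_eq_mul,
    mul_one, Finset.sum_comm, hn, Finset.sum_range_succ'] at h1
  have h2 : ∑ v ∈ X, (fAt P v 0).ncard = X.card := by
    rw [Finset.sum_congr rfl (fun v hv => fAt_zero (hXv v hv)), Finset.sum_const, smul_eq_mul,
      mul_one]
  have h3 : ∑ i ∈ Finset.range n, ∑ v ∈ X, (fAt P v (i + 1)).ncard =
      ∑ i ∈ Finset.range n, 2 ^ i * faceNumber P (i + 1) := by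
    refine Finset.sum_congr rfl fun i hi => ?_
    rw [Finset.mem_range] at hi
    exact hsum i (by omega)
  rw [h2, h3] at h1
  rw [hn]
  have h4 : ∑ i ∈ Finset.range (n + 1 - 1), 2 ^ (i + 1) * faceNumber P (i + 1) =
      2 * ∑ i ∈ Finset.range n, 2 ^ i * faceNumber P (i + 1) := by
    rw [Finset.mul_sum]
    refine Finset.sum_congr rfl fun i _ => by rw [pow_succ]; ring
  rw [h4]
  have hpos := hne.card_pos
  have h5 := sq_aux (x := 2 * (X.card : ℤ)) (n := ((P.extremePoints ℝ).ncard : ℤ)) (a := 2)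
    (C := 1) (by norm_num) (by exact_mod_cast hX) (by exact_mod_cast (by omega)) (by positivity)
  zify at h1 ⊢
  nlinarith

/-- bound for `f_i`, an equality for the cube -/
theorem face_bound (h : IsCubical P) (hd : 3 ≤ fdim P) {i : ℕ} (hi0 : 1 ≤ i) (hi : i < fdim P) :
    2 ^ i * faceNumber P i * ∑ j ∈ Finset.Ico i (fdim P), (fdim P).choose j +
      (fdim P).choose i * (1 + ∑ j ∈ Finset.range i, (fdim P).choose j) *
        (P.extremePoints ℝ).ncard ≤
      (fdim P).choose i * (P.extremePoints ℝ).ncard ^ 2 := by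
  classical
  obtain ⟨X, hX, hne, hXv, hstar, hsum⟩ := class_data h hd
  set A := ∑ j ∈ Finset.range i, (fdim P).choose j with hA
  set T := ∑ j ∈ Finset.Ico i (fdim P), (fdim P).choose j with hT
  have key : ∀ v ∈ X, (fAt P v i).ncard * T + (fdim P).choose i * (1 + A) ≤
      (fdim P).choose i * (2 * X.card) := by
    intro v hvX
    have hv := hXv v hvX
    have e1 : ∑ j ∈ Finset.range (fdim P), (fAt P v j).ncard =
        ∑ j ∈ Finset.range i, (fAt P v j).ncard + ∑ j ∈ Finset.Ico i (fdim P), (fAt P v j).ncard := by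
      rw [Finset.sum_range_add_sum_Ico _ hi.le]
    have e2 : A ≤ ∑ j ∈ Finset.range i, (fAt P v j).ncard := by
      refine Finset.sum_le_sum fun j hj => ?_
      rw [Finset.mem_range] at hj
      exact choose_le_at h hv (by omega)
    have e3 : (fAt P v i).ncard * T ≤
        (fdim P).choose i * ∑ j ∈ Finset.Ico i (fdim P), (fAt P v j).ncard := by
      rw [hT, Finset.mul_sum, Finset.mul_sum]
      refine Finset.sum_le_sum fun j hj => ?_
      rw [Finset.mem_Ico] at hj
      rw [mul_comm ((fdim P).choose i)]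
      exact ratio_at h hv hj.1 hj.2
    have e4 := hstar v hvX
    rw [e1] at e4
    calc (fAt P v i).ncard * T + (fdim P).choose i * (1 + A)
        ≤ (fdim P).choose i * ∑ j ∈ Finset.Ico i (fdim P), (fAt P v j).ncard +
          (fdim P).choose i * (1 + ∑ j ∈ Finset.range i, (fAt P v j).ncard) :=
          Nat.add_le_add e3 (Nat.mul_le_mul_left _ (by omega))
      _ = (fdim P).choose i * (∑ j ∈ Finset.range i, (fAt P v j).ncard +
          ∑ j ∈ Finset.Ico i (fdim P), (fAt P v j).ncard + 1) := by ring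
      _ ≤ _ := Nat.mul_le_mul_left _ e4
  obtain ⟨i', rfl⟩ : ∃ i', i = i' + 1 := ⟨i - 1, by omega⟩
  have h1 := Finset.sum_le_sum key
  rw [Finset.sum_add_distrib, ← Finset.sum_mul, hsum i' hi, Finset.sum_const, Finset.sum_const,
    smul_eq_mul, smul_eq_mul] at h1
  -- the class has at least `1 + A` vertices
  obtain ⟨v, hvX⟩ := hne
  have h2 : 1 + A ≤ 2 * X.card := by
    have e1 := hstar v hvX
    have e2 : A ≤ ∑ j ∈ Finset.range (fdim P), (fAt P v j).ncard := by
      calc A ≤ ∑ j ∈ Finset.range (i' + 1), (fAt P v j).ncard := by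
            refine Finset.sum_le_sum fun j hj => ?_
            rw [Finset.mem_range] at hj
            exact choose_le_at h (hXv v hvX) (by omega)
        _ ≤ _ := Finset.sum_le_sum_of_subset (Finset.range_subset_range.mpr hi.le)
    omega
  have h5 := sq_aux (x := 2 * (X.card : ℤ)) (n := ((P.extremePoints ℝ).ncard : ℤ))
    (a := ((1 + A : ℕ) : ℤ)) (C := (((fdim P).choose (i' + 1) : ℕ) : ℤ)) (by positivity)
    (by exact_mod_cast hX) (by exact_mod_cast h2) (by positivity)
  rw [pow_succ]
  zify at h1 ⊢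
  push_cast at h5
  nlinarith

/-- bound for the number of facets, an equality for the cube -/
theorem facet_bound (h : IsCubical P) {m : ℕ} (hd : fdim P = m + 3) :
    2 ^ (m + 1) * (m + 4) * faceNumber P (m + 2) +
      (1 + ∑ j ∈ Finset.range (m + 1), (fdim P).choose j) * (P.extremePoints ℝ).ncard ≤
      (P.extremePoints ℝ).ncard ^ 2 := by
  classical
  obtain ⟨X, hX, hne, hXv, hstar, hsum⟩ := class_data h (by omega)
  set A := ∑ j ∈ Finset.range (m + 1), (fdim P).choose j with hA
  have hAle : ∀ v ∈ X, A ≤ ∑ j ∈ Finset.range (m + 1), (fAt P v j).ncard := by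
    intro v hvX
    refine Finset.sum_le_sum fun j hj => ?_
    rw [Finset.mem_range] at hj
    exact choose_le_at h (hXv v hvX) (by omega)
  have key : ∀ v ∈ X, (fAt P v (m + 2)).ncard * (m + 4) + 2 * (1 + A) ≤ 2 * (2 * X.card) := by
    intro v hvX
    have e1 := hstar v hvX
    rw [hd, Finset.sum_range_succ, Finset.sum_range_succ] at e1
    have e2 := ridge_facet_at h (hXv v hvX) hd
    have e3 := hAle v hvX
    have e4 : (fAt P v (m + 2)).ncard * (m + 4) =
        (fAt P v (m + 2)).ncard * (m + 2) + 2 * (fAt P v (m + 2)).ncard := by ring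
    omega
  have h1 := Finset.sum_le_sum key
  rw [Finset.sum_add_distrib, ← Finset.sum_mul, hsum (m + 1) (by omega), Finset.sum_const,
    Finset.sum_const, smul_eq_mul, smul_eq_mul] at h1
  obtain ⟨v, hvX⟩ := hne
  have h2 : 1 + A ≤ 2 * X.card := by
    have e1 := hstar v hvX
    have e2 : A ≤ ∑ j ∈ Finset.range (fdim P), (fAt P v j).ncard :=
      (hAle v hvX).trans (Finset.sum_le_sum_of_subset (Finset.range_subset_range.mpr (by omega)))
    omega
  have h5 := sq_aux (x := 2 * (X.card : ℤ)) (n := ((P.extremePoints ℝ).ncard : ℤ))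
    (a := ((1 + A : ℕ) : ℤ)) (C := 1) (by norm_num)
    (by exact_mod_cast hX) (by exact_mod_cast h2) (by positivity)
  zify at h1 ⊢
  push_cast at h5
  nlinarith

/-- dimension five: `f_4 ≤ (n - 2) (n - 8) / 72`, an equality for the cube -/
theorem five_bound (h : IsCubical P) (hd : fdim P = 5) :
    72 * faceNumber P 4 + 10 * (P.extremePoints ℝ).ncard ≤ (P.extremePoints ℝ).ncard ^ 2 + 16 := by
  classical
  obtain ⟨X, hX, hne, hXv, hstar, hsum⟩ := class_data h (by omega)
  have key : ∀ v ∈ X, (fAt P v 1).ncard + 2 * (fAt P v 4).ncard + 1 ≤ X.card := by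
    intro v hvX
    have e1 := hstar v hvX
    have e2 := five_at h hd (hXv v hvX)
    have e3 := fAt_zero (hXv v hvX)
    rw [hd] at e1
    simp only [Finset.sum_range_succ, Finset.sum_range_zero] at e1
    omega
  have h1 := Finset.sum_le_sum key
  rw [Finset.sum_add_distrib, Finset.sum_add_distrib, ← Finset.mul_sum, hsum 0 (by omega),
    hsum 3 (by omega), Finset.sum_const, Finset.sum_const, smul_eq_mul, smul_eq_mul] at h1
  have h2 := (five h hd).1
  have h5 := sq_aux (x := 2 * (X.card : ℤ)) (n := ((P.extremePoints ℝ).ncard : ℤ)) (a := 2)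
    (C := 1) (by norm_num) (by exact_mod_cast hX)
    (by have := hne.card_pos; exact_mod_cast (by omega)) (by positivity)
  zify at h1 h2 ⊢
  norm_num at h1 h2
  nlinarith

end Pool.F620bf
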