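import Pool.Agent.W_f620bf_h49.Fig2

/-!
Faces through a vertex: double counting and the general quadratic bound.
-/

set_option autoImplicit false
set_option linter.unusedSectionVars false
set_option linter.deprecated false

namespace Pool.F620bf

open Set

variable {E : Type*} [NormedAddCommGroup E] [NormedSpace ℝ E] [FiniteDimensional ℝ E]
  {P F : Set E} {v : E}

/-- faces of dimension `i` through `v` -/
def fAt (P : Set E) (v : E) (i : ℕ) : Set (Set E) := {F | IsFace P F ∧ v ∈ F ∧ fdim F = i}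

theorem fAt_finite (h : Poly P) (v : E) (i : ℕ) : (fAt P v i).Finite :=
  (finite_faces h).subset fun _ hF => hF.1

/-- every face of dimension `j` is contained in at least `dim P - j` faces of dimension `j + 1` -/
theorem many_up : ∀ (j : ℕ) (P F : Set E), Poly P → IsFace P F → F.Nonempty → fdim F = j →
    j < fdim P → fdim P - j ≤ {H | IsFace P H ∧ F ⊆ H ∧ fdim H = j + 1}.ncard := by
  intro j
  induction j with
  | zero =>
    intro P F h hF hne h0 hlt
    obtain ⟨v, rfl⟩ := fdim_eq_zero hne h0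
    have hv := isFace_singleton.mp hF
    obtain ⟨c⟩ := exists_fig h hv
    have hPv : P ≠ {v} := by
      rintro rfl
      rw [fdim_singleton] at hlt
      exact lt_irrefl _ hlt
    obtain ⟨hQne, hQd⟩ := c.fdim_Q h hv hPv
    have h1 := fdim_lt_ncard (c.poly_Q h hv) hQne
    rw [← faceNumber_zero, c.faceNumber_Q h hv 0] at h1
    have e : {H | IsFace P H ∧ {v} ⊆ H ∧ fdim H = 0 + 1} = {F | IsFace P F ∧ v ∈ F ∧ fdim F = 0 + 1} := by
      ext H; simp only [singleton_subset_iff]
    rw [e]
    omega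
  | succ j ih =>
    intro P F h hF hne hj hlt
    obtain ⟨v, hv, hvF⟩ := hF.exists_ext h hne
    obtain ⟨c⟩ := exists_fig h hv
    have hFv : F ≠ {v} := by
      rintro rfl
      rw [fdim_singleton] at hj
      omega
    have hPv : P ≠ {v} := by
      rintro rfl
      rw [fdim_singleton] at hlt
      omega
    obtain ⟨hF'ne, hF'd⟩ := c.fdim_section h hv hF hvF hFv
    obtain ⟨hQne, hQd⟩ := c.fdim_Q h hv hPv
    have h1 := ih c.Q (F ∩ c.Q) (c.poly_Q h hv) (c.isFace_section hF) hF'ne (by omega) (by omega)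
    have h2 : {H | IsFace c.Q H ∧ F ∩ c.Q ⊆ H ∧ fdim H = j + 1}.ncard ≤
        {H | IsFace P H ∧ F ⊆ H ∧ fdim H = j + 1 + 1}.ncard := by
      refine Set.ncard_le_ncard_of_injOn c.G ?_ ?_ ((finite_faces h).subset fun H hH => hH.1)
      · rintro H ⟨hH, hFH, hHd⟩
        have hHne : H.Nonempty := hF'ne.mono hFH
        refine ⟨c.isFace_G h hv hH, ?_, by rw [c.fdim_G' h hv hH.subset hHne, hHd]⟩
        rw [← c.G_section h hv hF hvF]
        exact (c.G_subset_iff inter_subset_right hH.subset).mpr hFH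
      · intro H1 hH1 H2 hH2 he
        exact c.G_inj hH1.1.subset hH2.1.subset he
    omega

/-- a proper face of dimension `j + 1` has at most `j + 1` facets through a given vertex -/
theorem few_down (h : IsCubical P) (hv : v ∈ P.extremePoints ℝ) {j : ℕ} (hF : IsFace P F)
    (hvF : v ∈ F) (hj : fdim F = j + 1) (hlt : j + 1 < fdim P) :
    {H | H ∈ fAt P v j ∧ H ⊆ F}.ncard ≤ j + 1 := by
  classical
  have hFP : F ≠ P := by rintro rfl; omega
  obtain ⟨c⟩ := h.cubing hF ⟨v, hvF⟩ hFP
  obtain ⟨f, hf⟩ := c.vx_surj h.poly hF hv hvF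
  have hsub : {H | H ∈ fAt P v j ∧ H ⊆ F} ⊆
      (fun i : Fin (fdim F) => c.φ (fun l => if l = i then some (f i) else none)) '' univ := by
    rintro H ⟨⟨hH, hvH, hHd⟩, hHF⟩
    obtain ⟨σ, hσ⟩ := c.surj H (hH.mono hF.subset hHF) ⟨v, hvH⟩
    have h1 : free σ = j := by rw [← c.fdim_eq h hF hFP σ, ← hσ, hHd]
    have h2 : ∀ l b, σ l = some b → f l = b := by
      rw [← c.vx_mem_iff h.poly hF, hf, ← hσ]; exact hvH
    have h3 : (Finset.univ.filter fun l => ¬ σ l = none).card = 1 := by
      have := Finset.card_filter_add_card_filter_not (s := (Finset.univ : Finset (Fin (fdim F))))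
        (fun l => σ l = none)
      rw [Finset.card_univ, Fintype.card_fin] at this
      unfold free at h1
      omega
    obtain ⟨i, hi⟩ := Finset.card_eq_one.mp h3
    refine ⟨i, mem_univ _, ?_⟩
    rw [hσ]
    show c.φ _ = c.φ _
    congr 1
    funext l
    have h4 := Finset.ext_iff.mp hi l
    simp only [Finset.mem_filter, Finset.mem_univ, true_and, Finset.mem_singleton] at h4
    by_cases hl : l = i
    · rw [if_pos hl]
      obtain ⟨b, hb⟩ := Option.ne_none_iff_exists'.mp (h4.mpr hl)
      rw [hb, ← hl, h2 l b hb]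
    · rw [if_neg hl]
      by_contra hne
      exact hl (h4.mp (Ne.symm hne))
  calc {H | H ∈ fAt P v j ∧ H ⊆ F}.ncard
      ≤ ((fun i : Fin (fdim F) => c.φ (fun l => if l = i then some (f i) else none)) '' univ).ncard :=
        Set.ncard_le_ncard hsub (Set.toFinite _)
    _ ≤ (univ : Set (Fin (fdim F))).ncard := Set.ncard_image_le (Set.toFinite _)
    _ = j + 1 := by rw [Set.ncard_univ, Nat.card_eq_fintype_card, Fintype.card_fin, hj]

theorem step_at (h : IsCubical P) (hv : v ∈ P.extremePoints ℝ) {j : ℕ} (hlt : j + 1 < fdim P) :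
    (fdim P - j) * (fAt P v j).ncard ≤ (j + 1) * (fAt P v (j + 1)).ncard := by
  classical
  have h1 := Finset.card_mul_le_card_mul (s := (fAt_finite h.poly v j).toFinset)
    (t := (fAt_finite h.poly v (j + 1)).toFinset) (m := fdim P - j) (n := j + 1)
    (fun A B : Set E => A ⊆ B) ?_ ?_
  · rw [← Set.ncard_eq_toFinset_card _ (fAt_finite h.poly v j),
      ← Set.ncard_eq_toFinset_card _ (fAt_finite h.poly v (j + 1))] at h1
    linarith
  · intro A hA
    rw [Set.Finite.mem_toFinset] at hA
    have h2 := many_up j P A h.poly hA.1 ⟨v, hA.2.1⟩ hA.2.2 (by omega)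
    refine h2.trans ?_
    rw [← Set.ncard_coe_finset]
    refine Set.ncard_le_ncard ?_ (Finset.finite_toSet _)
    rintro H ⟨hH, hAH, hd⟩
    simp only [Finset.bipartiteAbove, Finset.coe_filter, Set.Finite.mem_toFinset, mem_setOf_eq]
    exact ⟨⟨hH, hAH hA.2.1, hd⟩, hAH⟩
  · intro B hB
    rw [Set.Finite.mem_toFinset] at hB
    refine le_trans ?_ (few_down h hv hB.1 hB.2.1 hB.2.2 hlt)
    rw [← Set.ncard_coe_finset]
    refine Set.ncard_le_ncard ?_ ((fAt_finite h.poly v j).subset fun H hH => hH.1)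
    intro H hH
    simp only [Finset.bipartiteBelow, Finset.coe_filter, Set.Finite.mem_toFinset, mem_setOf_eq] at hH
    exact hH

theorem ratio_at (h : IsCubical P) (hv : v ∈ P.extremePoints ℝ) {i j : ℕ} (hij : i ≤ j)
    (hj : j < fdim P) :
    (fAt P v i).ncard * (fdim P).choose j ≤ (fAt P v j).ncard * (fdim P).choose i := by
  induction j, hij using Nat.le_induction with
  | base => exact le_rfl
  | succ j hij ih =>
    have h1 := ih (by omega)
    have h2 := step_at h hv hj
    have h3 := Nat.choose_succ_right_eq (fdim P) j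
    have h4 : (j + 1) * ((fAt P v i).ncard * (fdim P).choose (j + 1)) ≤
        (j + 1) * ((fAt P v (j + 1)).ncard * (fdim P).choose i) := by
      calc (j + 1) * ((fAt P v i).ncard * (fdim P).choose (j + 1))
          = (fAt P v i).ncard * ((fdim P).choose (j + 1) * (j + 1)) := by ring
        _ = (fAt P v i).ncard * (fdim P).choose j * (fdim P - j) := by rw [h3]; ring
        _ ≤ (fAt P v j).ncard * (fdim P).choose i * (fdim P - j) := Nat.mul_le_mul_right _ h1
        _ = (fdim P - j) * (fAt P v j).ncard * (fdim P).choose i := by ring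
        _ ≤ (j + 1) * (fAt P v (j + 1)).ncard * (fdim P).choose i := Nat.mul_le_mul_right _ h2
        _ = _ := by ring
    exact Nat.le_of_mul_le_mul_left h4 (Nat.succ_pos j)

/-- the star of a vertex: different proper faces through `v` have different antipodes of `v` -/
theorem star_bound (h : IsCubical P) (hv : v ∈ P.extremePoints ℝ) :
    ∑ j ∈ Finset.range (fdim P), (fAt P v j).ncard ≤ (P.extremePoints ℝ).ncard := by
  classical
  have hfin : {F | IsFace P F ∧ v ∈ F ∧ fdim F < fdim P}.Finite :=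
    (finite_faces h.poly).subset fun F hF => hF.1
  have h1 : ∑ j ∈ Finset.range (fdim P), (fAt P v j).ncard =
      {F | IsFace P F ∧ v ∈ F ∧ fdim F < fdim P}.ncard := by
    rw [Set.ncard_eq_toFinset_card _ hfin]
    rw [Finset.card_eq_sum_card_fiberwise (f := fun F => fdim F) (t := Finset.range (fdim P))
      (fun F hF => by
        rw [Finset.mem_coe, Set.Finite.mem_toFinset] at hF
        exact Finset.mem_coe.mpr (Finset.mem_range.mpr hF.2.2))]
    refine Finset.sum_congr rfl fun j hj => ?_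
    rw [← Set.ncard_coe_finset]
    congr 1
    ext F
    simp only [Finset.coe_filter, Set.Finite.mem_toFinset, mem_setOf_eq, fAt]
    constructor
    · rintro ⟨a, b, c⟩; exact ⟨⟨a, b, by rw [c]; exact Finset.mem_range.mp hj⟩, c⟩
    · rintro ⟨⟨a, b, _⟩, c⟩; exact ⟨a, b, c⟩
  rw [h1]
  have hex : ∀ F ∈ {F | IsFace P F ∧ v ∈ F ∧ fdim F < fdim P},
      ∃ a ∈ P.extremePoints ℝ, a ∈ F ∧ ∀ G, IsFace P G → v ∈ G → a ∈ G → F ⊆ G :=
    fun F hF => exists_antipode h hF.1 (by rintro rfl; exact lt_irrefl _ hF.2.2) hv hF.2.1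
  choose! a ha1 ha2 ha3 using hex
  refine Set.ncard_le_ncard_of_injOn a (fun F hF => ha1 F hF) ?_ h.poly.finite_ext
  intro F hF G hG he
  apply Subset.antisymm
  · exact ha3 F hF G hG.1 hG.2.1 (by rw [he]; exact ha2 G hG)
  · exact ha3 G hG F hF.1 hF.2.1 (by rw [← he]; exact ha2 F hF)

theorem sum_fAt (h : IsCubical P) {i : ℕ} (hi : i < fdim P) :
    ∑ v ∈ h.poly.finite_ext.toFinset, (fAt P v i).ncard = 2 ^ i * faceNumber P i := by
  classical
  have hfin : {F : Set E | IsFace P F ∧ F.Nonempty ∧ fdim F = i}.Finite :=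
    (finite_faces h.poly).subset fun F hF => hF.1
  have h1 : ∀ v ∈ h.poly.finite_ext.toFinset, (fAt P v i).ncard =
      (hfin.toFinset.bipartiteAbove (fun (v : E) (F : Set E) => v ∈ F) v).card := by
    intro v _
    rw [← Set.ncard_coe_finset]
    congr 1
    ext F
    simp only [Finset.bipartiteAbove, Finset.coe_filter, Set.Finite.mem_toFinset, mem_setOf_eq, fAt]
    constructor
    · rintro ⟨a, b, c⟩; exact ⟨⟨a, ⟨v, b⟩, c⟩, b⟩
    · rintro ⟨⟨a, _, c⟩, b⟩; exact ⟨a, b, c⟩
  rw [Finset.sum_congr rfl h1, Finset.sum_card_bipartiteAbove_eq_sum_card_bipartiteBelow]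
  have h2 : ∀ F ∈ hfin.toFinset,
      (h.poly.finite_ext.toFinset.bipartiteBelow (fun (v : E) (F : Set E) => v ∈ F) F).card = 2 ^ i := by
    intro F hF
    rw [Set.Finite.mem_toFinset] at hF
    have hFP : F ≠ P := by
      rintro rfl
      have := hF.2.2
      omega
    rw [← hF.2.2, ← h.ncard hF.1 hF.2.1 hFP, ← Set.ncard_coe_finset]
    congr 1
    ext v
    simp only [Finset.bipartiteBelow, Finset.coe_filter, Set.Finite.mem_toFinset, mem_setOf_eq]
    rfl
  rw [Finset.sum_congr rfl h2, Finset.sum_const, smul_eq_mul, mul_comm]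
  congr 1
  rw [← Set.ncard_eq_toFinset_card _ hfin]
  rfl

theorem general_bound (h : IsCubical P) {i : ℕ} (hi : i < fdim P) :
    2 ^ i * faceNumber P i * ∑ j ∈ Finset.Ico i (fdim P), (fdim P).choose j ≤
      (fdim P).choose i * (P.extremePoints ℝ).ncard ^ 2 := by
  classical
  rw [← sum_fAt h hi, Finset.sum_mul]
  have key : ∀ v ∈ h.poly.finite_ext.toFinset,
      (fAt P v i).ncard * ∑ j ∈ Finset.Ico i (fdim P), (fdim P).choose j ≤
        (fdim P).choose i * (P.extremePoints ℝ).ncard := by
    intro v hv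
    rw [Set.Finite.mem_toFinset] at hv
    calc (fAt P v i).ncard * ∑ j ∈ Finset.Ico i (fdim P), (fdim P).choose j
        = ∑ j ∈ Finset.Ico i (fdim P), (fAt P v i).ncard * (fdim P).choose j := Finset.mul_sum _ _ _
      _ ≤ ∑ j ∈ Finset.Ico i (fdim P), (fAt P v j).ncard * (fdim P).choose i := by
          refine Finset.sum_le_sum fun j hj => ?_
          rw [Finset.mem_Ico] at hj
          exact ratio_at h hv hj.1 hj.2
      _ ≤ ∑ j ∈ Finset.range (fdim P), (fAt P v j).ncard * (fdim P).choose i := by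
          refine Finset.sum_le_sum_of_subset fun j hj => ?_
          rw [Finset.mem_Ico] at hj
          exact Finset.mem_range.mpr hj.2
      _ = (fdim P).choose i * ∑ j ∈ Finset.range (fdim P), (fAt P v j).ncard := by
          rw [← Finset.sum_mul, mul_comm]
      _ ≤ _ := Nat.mul_le_mul_left _ (star_bound h hv)
  calc ∑ v ∈ h.poly.finite_ext.toFinset, (fAt P v i).ncard *
        ∑ j ∈ Finset.Ico i (fdim P), (fdim P).choose j
      ≤ ∑ v ∈ h.poly.finite_ext.toFinset, (fdim P).choose i * (P.extremePoints ℝ).ncard :=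
        Finset.sum_le_sum key
    _ = (fdim P).choose i * (P.extremePoints ℝ).ncard ^ 2 := by
        rw [Finset.sum_const, smul_eq_mul, ← Set.ncard_eq_toFinset_card _ h.poly.finite_ext]; ring

end Pool.F620bf
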